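import Mathlib

/-!
# Combinatorial cell complexes

Cyclic intervals, closed thin complexes of dimension 4 and discrete gradients (used by `Cells.lean`).
-/

set_option autoImplicit false

namespace Pool.MP_f18604_gt.LS

/-- The cyclic successor. -/
def rot {N : ℕ} (k : Fin N) : Fin N := ⟨(k.val + 1) % N, Nat.mod_lt _ k.pos⟩

/-- `cyc a b k`: the element `k` lies in the cyclic interval `[a, b)` (for `a ≠ b`). -/
def cyc {N : ℕ} (a b k : Fin N) : Bool :=
  if a < b then decide (a ≤ k ∧ k < b) else decide (a ≤ k ∨ k < b)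

/-- Exactly two elements have the property `P`. -/
def Two {α : Type} (P : α → Prop) : Prop := ∃ a b, a ≠ b ∧ ∀ t, P t ↔ t = a ∨ t = b

/-- A closed thin complex of dimension 4, with cells `X`, facets `bd` and dimension `dim`. -/
structure ClosedThin {X : Type} (bd : X → List X) (dim : X → ℕ) : Prop where
  grade : ∀ a b, b ∈ bd a → dim a = dim b + 1
  dim_le : ∀ a, dim a ≤ 4
  edge : ∀ a, dim a = 1 → Two fun b => b ∈ bd a
  diamond : ∀ a c, (∃ b ∈ bd a, c ∈ bd b) → Two fun b => b ∈ bd a ∧ c ∈ bd b
  pure : ∀ b, dim b < 4 → ∃ a, b ∈ bd a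
  closed : ∀ b, dim b = 3 → Two fun a => b ∈ bd a

/-- A discrete gradient vector field on a cell complex with cells `X` and facets `bd`: a set of
disjoint pairs `(a, b)`, with `a` a facet of `b`, without closed gradient paths. -/
structure Gradient {X : Type} (bd : X → List X) where
  /-- the pairs of the matching -/
  pair : X → X → Prop
  mem : ∀ {a b}, pair a b → a ∈ bd b
  up_unique : ∀ {a b b'}, pair a b → pair a b' → b = b'
  down_unique : ∀ {a a' b}, pair a b → pair a' b → a = a'
  no_both : ∀ {a b c}, pair a b → ¬ pair b c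
  acyclic : ∀ a, ¬ Relation.TransGen (fun a b => ∃ t, pair a t ∧ b ∈ bd t ∧ b ≠ a) a a

/-- The critical cells: those which are in no pair. -/
def Gradient.Critical {X : Type} {bd : X → List X} (G : Gradient bd) (a : X) : Prop :=
  ∀ b, ¬ G.pair a b ∧ ¬ G.pair b a

end Pool.MP_f18604_gt.LS
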