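import Mathlib
import Pool.Agent.Helper7.LS.Basic

/-!
# Link surgery manifolds: the cell complex

An explicit regular cell complex `X(D)` for every grid diagram `D` of a link `L` in the 3-sphere,
together with a number of folds for every column.  It is a cell structure on the Fintushel-Stern
link surgery manifold `E(n_1, ..., n_r)_L` (knot surgery `E(n)_K` if `L = K` has one component).

## The exterior of the link

The grid diagram gives an arc presentation: the rows are points `a_k` on the axis (a circle), the
columns are pages (discs bounded by the axis, in cyclic order around it), and column `m` carries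
an arc of `L` in page `m` from `a_(sig m)` to `a_(tau m)`.  So `S^3` has the following cells:
points `a_k`, axis segments `A_k` from `a_k` to `a_(k+1)`, arcs, two pieces of every page
(`s = false`: the piece containing the `A_k` with `k` in the cyclic interval `[sig m, tau m)`;
`s = true`: the other one), and the sector between page `m` and page `m + 1`.

The exterior `E_L` of an open tube around `L` has the following cells (blow up first the points `a_k`,
then the arcs).
* dimension 0: `up k`, `dn k` (the two ends of the axis at `a_k`, on `A_k` and on `A_(k-1)`),
  `pt m e s` (the tube of arc `m` at its end `e`, on the page piece `s`; end `false` is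
  `a_(sig m)` and end `true` is `a_(tau m)`);
* dimension 1: `ax k` (the axis segment), `seg m k` (page `m` at the point `a_k` not on its arc), `leg m e s` (page
  piece `(m, s)` at the end `e` of its arc), `arc m e x` (half of the meridian circle at the end `e` of arc `m`, in
  front, `x = false`, in the sector between the pages `m` and `m + 1`, or in the back, `x = true`),
  `lon m 0 s` (the tube along arc `m` on the page piece `s`);
* dimension 2: `page m s`, `sec m k` (the sector between pages `m` and `m + 1` at the point `a_k`), `ann m 0 x`
  (half of the tube along arc `m`);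
* dimension 3: `chamber m` (the sector between pages `m` and `m + 1`).

## The folds

Let `c m` be the number of folds in column `m`.  The base disc of the elliptic fibration glued to
the component `L_i` is tiled by bigons: for every column `m` of `L_i` a stack of `c m` bigons, each with one
branch point of the double cover, and one polygon inside.  The corresponding cells of the quotient
orbifold `Q` are
* `lon m j s`, `ann m j x` for `j ≤ c m` (the fibre circle over the edge between the bigons number
  `j - 1` and `j`), `disc m j` for `j < c m`, and Kummer 3-cells `kum m j x`, a quotient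
  `[-1,1]^3/(-1)`, one for each of the two singular points over the branch point;
* `dsk κ w` and `ball κ v`, two discs and two balls which form `S^1 x D^2` over the inner polygon of the component `κ`.

`Y → Q` is the orientation double cover (branched at the singular points): two lifts `(q, o)` of every
cell `q` and one lift of every Kummer cell.

## The 4-manifold

`X(D)` is the resolution of `(S^1 x Y)/(conj x deck transformation)`, where `S^1` has two vertices
exchanged by the complex conjugation and two edges `Z = false, true` which are reversed.  Its cells
are `ord q o` (the lift `(q, o)` over a vertex of `S^1`), `kum m j x` (the lift of a Kummer cell),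
`thick Z q`, and for each Kummer 4-cell `[-1,1]^4/(-1)`, given by `Z` and `(m, j, x)`, the cells of its
minimal resolution: two 2-cells `cap` (fibres of the disc bundle of Euler number `-2`), two 3-cells `wall` and two
4-cells `room`.  The four coordinates of `[-1,1]^4` are the directions of the edges `thick Z _`,
`arc m _ x`, `lon m j _` and `lon m (j+1) _`; the boundary of a cap runs once in each of the four directions, and its
sense of rotation is given by the orientation.
-/

set_option autoImplicit false

namespace Pool.MP_f18604_gt.LS

/-- A grid diagram of a link with `N` rows and `N` columns, and folds.  The link has in column `m` an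
arc from row `sig m` to row `tau m`; `next m` is the column of the next arc.  `c m` is the number
of folds on the arc in column `m`.  The functions `eps` and `del` exist if and only if every component has an
even number of columns (can be reached by a stabilisation) and an even number of folds. -/
structure Diagram (N : ℕ) where
  sig : Equiv.Perm (Fin N)
  tau : Equiv.Perm (Fin N)
  ne : ∀ m, sig m ≠ tau m
  c : Fin N → ℕ
  eps : Fin N → Bool
  del : Fin N → Bool
  eps_next : ∀ m, eps (sig.symm (tau m)) = !eps m
  del_next : ∀ m, del (sig.symm (tau m)) = (del m ^^ (c m).bodd)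

namespace Diagram

variable {N : ℕ} (D : Diagram N)

/-- The permutation of the columns: the next arc of the oriented link. -/
def next : Equiv.Perm (Fin N) := D.tau.trans D.sig.symm

/-- The columns of the component of the link which contains the arc in column `m`. -/
def orbit (m : Fin N) : Finset (Fin N) := (Finset.range N).image fun i => D.next^[i] m

/-- The components of the link, given by their sets of columns. -/
def Comp : Type := {C : Finset (Fin N) // ∃ m, C = D.orbit m}

instance : DecidableEq D.Comp := inferInstanceAs (DecidableEq {C : Finset (Fin N) // _})

/-- The row of the end `e` of the arc in column `m`. -/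
def row (m : Fin N) (e : Bool) : Fin N := if e then D.tau m else D.sig m

/-- The piece of page `m` which contains the axis segment `A_k`. -/
def side (m k : Fin N) : Bool := !cyc (D.sig m) (D.tau m) k

end Diagram

/-- The cells of the quotient orbifold `Q`, except the Kummer cells. -/
inductive QCell {N : ℕ} (D : Diagram N) : Type
  | up (k : Fin N)
  | dn (k : Fin N)
  | pt (m : Fin N) (e s : Bool)
  | ax (k : Fin N)
  | seg (m k : Fin N) (h : k ≠ D.sig m ∧ k ≠ D.tau m)
  | leg (m : Fin N) (e s : Bool)
  | arc (m : Fin N) (e x : Bool)
  | lon (m : Fin N) (j : Fin (D.c m + 1)) (s : Bool)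
  | page (m : Fin N) (s : Bool)
  | sec (m k : Fin N)
  | ann (m : Fin N) (j : Fin (D.c m + 1)) (x : Bool)
  | disc (m : Fin N) (j : Fin (D.c m))
  | dsk (κ : D.Comp) (w : Bool)
  | chamber (m : Fin N)
  | ball (κ : D.Comp) (v : Bool)
  deriving DecidableEq

/-- The cells of `X(D)`. -/
inductive XCell {N : ℕ} (D : Diagram N) : Type
  | ord (q : QCell D) (o : Bool)
  | kum (m : Fin N) (j : Fin (D.c m)) (x : Bool)
  | thick (Z : Bool) (q : QCell D)
  | cap (Z : Bool) (m : Fin N) (j : Fin (D.c m)) (x s : Bool)
  | wall (Z : Bool) (m : Fin N) (j : Fin (D.c m)) (x o : Bool)
  | room (Z : Bool) (m : Fin N) (j : Fin (D.c m)) (x i : Bool)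
  deriving DecidableEq

section

variable {N : ℕ} {D : Diagram N}

/-- The dimension of a cell of `Q`. -/
def QCell.dim : QCell D → ℕ
  | .up _ | .dn _ | .pt _ _ _ => 0
  | .ax _ | .seg _ _ _ | .leg _ _ _ | .arc _ _ _ | .lon _ _ _ => 1
  | .page _ _ | .sec _ _ | .ann _ _ _ | .disc _ _ | .dsk _ _ => 2
  | .chamber _ | .ball _ _ => 3

/-- The edges of page `m` at the point `a_k`; if the arc of page `m` ends at `a_k` they form a path
through the half meridian `arc m e x`. -/
def QCell.rim (m k : Fin N) (x : Bool) : List (QCell D) :=
  if h : k = D.sig m then [.leg m false false, .leg m false true, .arc m false x]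
  else if h' : k = D.tau m then [.leg m true false, .leg m true true, .arc m true x]
  else [.seg m k ⟨h, h'⟩]

/-- The facets of the page piece `(m, s)`, lifted to the sheet `o`. -/
def QCell.pageFacets (m : Fin N) (s o : Bool) : List (QCell D × Bool) :=
  ((List.finRange N).filter fun k => D.side m k = s).map (fun k => (.ax k, o)) ++
  (List.finRange N).flatMap (fun k =>
    if h : k ≠ D.sig m ∧ k ≠ D.tau m then
      if D.side m k = s then [(.seg m k h, o)] else []
    else []) ++
  [(.leg m false s, o), (.leg m true s, o), (.lon m 0 s, o)]

/-- The facets of the disc `(κ, w)` in `S^1 x D^2`, lifted to the sheet `o`. -/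
def QCell.dskFacets (κ : D.Comp) (w o : Bool) : List (QCell D × Bool) :=
  ((List.finRange N).filter fun m => m ∈ κ.1).flatMap fun m =>
    [(.lon m (Fin.last _) (w ^^ D.eps m ^^ D.del m), o ^^ D.del m),
      (.leg m false (w ^^ D.eps m ^^ D.del m), o ^^ D.del m),
      (.leg m true (w ^^ D.eps m ^^ D.del m ^^ (D.c m).bodd), o ^^ D.del m ^^ (D.c m).bodd)]

/-- The facets of the sector between pages `m` and `m + 1`, lifted to the sheet `o`. -/
def QCell.chamberFacets (m : Fin N) (o : Bool) : List (QCell D × Bool) :=
  [(.page m false, o), (.page m true, o), (.page (rot m) false, o), (.page (rot m) true, o),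
    (.ann m 0 false, o), (.ann (rot m) 0 true, o)] ++
  (List.finRange N).map fun k => (.sec m k, o)

/-- The facets of the ball `(κ, v)` in `S^1 x D^2`, lifted to the sheet `o`. -/
def QCell.ballFacets (κ : D.Comp) (v o : Bool) : List (QCell D × Bool) :=
  [(.dsk κ false, o), (.dsk κ true, o)] ++
  ((List.finRange N).filter fun m => m ∈ κ.1).flatMap fun m =>
    (.ann m (Fin.last _) (v ^^ D.eps m), o ^^ D.del m) ::
    ((List.finRange N).filter fun l =>
      if (v ^^ D.eps m) then cyc (D.next m) m l else cyc m (D.next m) l).map fun l =>
        (.sec l (D.tau m), o ^^ D.del m ^^ (D.c m).bodd)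

/-- The facets of the lift `(q, o)` of a cell `q` of `Q`, except the lifts of Kummer cells. -/
def QCell.facets : QCell D → Bool → List (QCell D × Bool)
  | .up _, _ => []
  | .dn _, _ => []
  | .pt _ _ _, _ => []
  | .ax k, o => [(.up k, o), (.dn (rot k), o)]
  | .seg _ k _, o => [(.up k, o), (.dn k, o)]
  | .leg m e s, o => [(.pt m e s, o), (if s = e then .up (D.row m e) else .dn (D.row m e), o)]
  | .arc m e _, o => [(.pt m e false, o), (.pt m e true, o)]
  | .lon m j s, o => [(.pt m false s, o), (.pt m true (s ^^ j.val.bodd), o ^^ j.val.bodd)]
  | .page m s, o => QCell.pageFacets m s o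
  | .sec m k, o => (QCell.rim m k false ++ QCell.rim (rot m) k true).map fun q => (q, o)
  | .ann m j x, o =>
    [(.lon m j false, o), (.lon m j true, o), (.arc m false x, o), (.arc m true x, o ^^ j.val.bodd)]
  | .disc m j, o =>
    [(.lon m j.castSucc false, o), (.lon m j.castSucc true, !o), (.lon m j.succ false, o),
      (.lon m j.succ true, !o)]
  | .dsk κ w, o => QCell.dskFacets κ w o
  | .chamber m, o => QCell.chamberFacets m o
  | .ball κ v, o => QCell.ballFacets κ v o

/-- The dimension of a cell of `X(D)`. -/
def XCell.dim : XCell D → ℕ
  | .ord q _ => q.dim
  | .kum _ _ _ => 3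
  | .thick _ q => q.dim + 1
  | .cap _ _ _ _ _ => 2
  | .wall _ _ _ _ _ => 3
  | .room _ _ _ _ _ => 4

/-- The facets of a cell of `X(D)`. -/
def XCell.facets : XCell D → List (XCell D)
  | .ord q o => (q.facets o).map fun p => .ord p.1 p.2
  | .kum m j x =>
    [.ord (.disc m j) false, .ord (.disc m j) true, .ord (.ann m j.castSucc x) false,
      .ord (.ann m j.castSucc x) true, .ord (.ann m j.succ x) false, .ord (.ann m j.succ x) true]
  | .thick Z q => .ord q false :: .ord q true :: (q.facets false).map fun p => .thick Z p.1
  | .cap Z m j x s =>
    [.thick Z (.pt m false s), .ord (.lon m j.castSucc s) !(Z ^^ x ^^ s),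
      .ord (.arc m true x) (Z ^^ x ^^ s ^^ (j.val + 1).bodd), .ord (.lon m j.succ s) (Z ^^ x ^^ s)]
  | .wall Z m j x o =>
    [.cap Z m j x false, .cap Z m j x true, .ord (.ann m j.castSucc x) o,
      .ord (.ann m j.succ x) o, .thick Z (.lon m j.castSucc (Z ^^ x ^^ o)),
      .thick Z (.lon m j.succ !(Z ^^ x ^^ o))]
  | .room Z m j x i =>
    [.wall Z m j x false, .wall Z m j x true] ++
    if i then [.thick Z (.ann m j.castSucc x), .thick Z (.ann m j.succ x)]
    else [.kum m j x, .thick Z (.disc m j)]

end

namespace Diagram

variable {N : ℕ} (D : Diagram N)

/-- Row `k`, not on the arc of column `m`, crosses the page piece `(m, s)`: it has a mark to the left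
and a mark to the right of column `m`, and the point `a_k` lies on the piece `s` of page `m`. -/
def Crosses (m : Fin N) (s : Bool) (k : Fin N) : Prop :=
  D.side m k = s ∧ (∃ l e, l < m ∧ D.row l e = k) ∧ ∃ l e, m < l ∧ D.row l e = k

/-- The colouring rule of the Wirtinger number, for the horizontal strands of a grid diagram.  Seeds are the
rows in `S`, and the two rows of a column with a fold if all rows crossing one of the two page
pieces are coloured; a colour passes from one end of a column to the other end if all rows
crossing one of the two page pieces are coloured. -/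
inductive Coloured (S : Finset (Fin N)) : Fin N → Prop
  | seed (k : Fin N) : k ∈ S → Coloured S k
  | fold (m : Fin N) (s e : Bool) : 0 < D.c m → (∀ k, D.Crosses m s k → Coloured S k) →
      Coloured S (D.row m e)
  | pass (m : Fin N) (s e : Bool) : (∀ k, D.Crosses m s k → Coloured S k) →
      Coloured S (D.row m e) → Coloured S (D.row m !e)

end Diagram

end Pool.MP_f18604_gt.LS
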