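import Mathlib
import Pool.Agent.Helper7.LS.Cells

/-!
# Link surgery manifolds: the boundary lists in one piece

`QCell.bd` and `XCell.bd` are the functions `QCell.facets` and `XCell.facets` of `Cells.lean`, written without auxiliary
definitions, for simplification in the proofs.
-/

set_option autoImplicit false

namespace Pool.MP_f18604_gt.LS

variable {N : ℕ} {D : Diagram N}

/-- The facets of the lift `(q, o)` of a cell `q` of `Q`, except the lifts of Kummer cells. -/
def QCell.bd : QCell D → Bool → List (QCell D × Bool)
  | .up _, _ => []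
  | .dn _, _ => []
  | .pt _ _ _, _ => []
  | .ax k, o => [(.up k, o), (.dn (rot k), o)]
  | .seg _ k _, o => [(.up k, o), (.dn k, o)]
  | .leg m e s, o => [(.pt m e s, o), (if s = e then .up (D.row m e) else .dn (D.row m e), o)]
  | .arc m e _, o => [(.pt m e false, o), (.pt m e true, o)]
  | .lon m j s, o => [(.pt m false s, o), (.pt m true (s ^^ j.val.bodd), o ^^ j.val.bodd)]
  | .page m s, o =>
    ((List.finRange N).filter fun k => D.side m k = s).map (fun k => (.ax k, o)) ++
    (List.finRange N).flatMap (fun k =>
      if h : k ≠ D.sig m ∧ k ≠ D.tau m then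
        if D.side m k = s then [(.seg m k h, o)] else []
      else []) ++
    [(.leg m false s, o), (.leg m true s, o), (.lon m 0 s, o)]
  | .sec m k, o => (QCell.rim m k false ++ QCell.rim (rot m) k true).map fun q => (q, o)
  | .ann m j x, o =>
    [(.lon m j false, o), (.lon m j true, o), (.arc m false x, o), (.arc m true x, o ^^ j.val.bodd)]
  | .disc m j, o =>
    [(.lon m j.castSucc false, o), (.lon m j.castSucc true, !o), (.lon m j.succ false, o),
      (.lon m j.succ true, !o)]
  | .dsk κ w, o =>
    ((List.finRange N).filter fun m => m ∈ κ.1).flatMap fun m =>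
      [(.lon m (Fin.last _) (w ^^ D.eps m ^^ D.del m), o ^^ D.del m),
        (.leg m false (w ^^ D.eps m ^^ D.del m), o ^^ D.del m),
        (.leg m true (w ^^ D.eps m ^^ D.del m ^^ (D.c m).bodd), o ^^ D.del m ^^ (D.c m).bodd)]
  | .chamber m, o =>
    [(.page m false, o), (.page m true, o), (.page (rot m) false, o), (.page (rot m) true, o),
      (.ann m 0 false, o), (.ann (rot m) 0 true, o)] ++
    (List.finRange N).map fun k => (.sec m k, o)
  | .ball κ v, o =>
    [(.dsk κ false, o), (.dsk κ true, o)] ++
    ((List.finRange N).filter fun m => m ∈ κ.1).flatMap fun m =>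
      (.ann m (Fin.last _) (v ^^ D.eps m), o ^^ D.del m) ::
      ((List.finRange N).filter fun l =>
        if (v ^^ D.eps m) then cyc (D.next m) m l else cyc m (D.next m) l).map fun l =>
          (.sec l (D.tau m), o ^^ D.del m ^^ (D.c m).bodd)

/-- The facets of a cell of `X(D)`. -/
def XCell.bd : XCell D → List (XCell D)
  | .ord q o => (q.bd o).map fun p => .ord p.1 p.2
  | .kum m j x =>
    [.ord (.disc m j) false, .ord (.disc m j) true, .ord (.ann m j.castSucc x) false,
      .ord (.ann m j.castSucc x) true, .ord (.ann m j.succ x) false, .ord (.ann m j.succ x) true]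
  | .thick Z q => .ord q false :: .ord q true :: (q.bd false).map fun p => .thick Z p.1
  | .cap Z m j x s =>
    [.thick Z (.pt m false s), .ord (.lon m j.castSucc s) !(Z ^^ x ^^ s),
      .ord (.arc m true x) (Z ^^ x ^^ s ^^ (j.val + 1).bodd), .ord (.lon m j.succ s) (Z ^^ x ^^ s)]
  | .wall Z m j x o =>
    [.cap Z m j x false, .cap Z m j x true, .ord (.ann m j.castSucc x) o,
      .ord (.ann m j.succ x) o, .thick Z (.lon m j.castSucc (Z ^^ x ^^ o)),
      .thick Z (.lon m j.succ !(Z ^^ x ^^ o))]
  | .room Z m j x i =>
    [.wall Z m j x false, .wall Z m j x true] ++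
    if i then [.thick Z (.ann m j.castSucc x), .thick Z (.ann m j.succ x)]
    else [.kum m j x, .thick Z (.disc m j)]

theorem QCell.facets_eq (q : QCell D) (o : Bool) : q.facets o = q.bd o := by
  cases q <;> rfl

theorem XCell.facets_eq : XCell.facets (D := D) = XCell.bd := by
  funext x
  cases x <;> simp only [XCell.facets, XCell.bd, QCell.facets_eq]

end Pool.MP_f18604_gt.LS
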