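import Mathlib
import Pool.Agent.Helper7.LS.Defs

/-!
# LS-02: the two marks of a row

Row `k` has exactly two marks: the column `sig.symm k` (end `false`) and the column `tau.symm k` (end `true`), different by
`D.ne`.  `lcol`, `lend` is the left one and `rcol`, `rend` the right one.  All lemmas are immediate
(`Equiv.symm_apply_eq`, case distinction on `e`, and `side`, `cyc` unfolded with `D.ne m`).
-/

set_option autoImplicit false

namespace Pool.MP_f18604_gt.LS

namespace Diagram

variable {N : ℕ} (D : Diagram N)

/-- The end which is at the right mark of row `k`. -/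
def rend (k : Fin N) : Bool := decide (D.sig.symm k < D.tau.symm k)

/-- The column of the right mark of row `k`. -/
def rcol (k : Fin N) : Fin N := if D.rend k then D.tau.symm k else D.sig.symm k

/-- The column of the left mark of row `k`. -/
def lcol (k : Fin N) : Fin N := if D.rend k then D.sig.symm k else D.tau.symm k

theorem row_rcol (k : Fin N) : D.row (D.rcol k) (D.rend k) = k := by
  unfold row rcol
  cases h : D.rend k <;> simp

theorem row_lcol (k : Fin N) : D.row (D.lcol k) (!D.rend k) = k := by
  unfold row lcol
  cases h : D.rend k <;> simp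

theorem lcol_lt (k : Fin N) : D.lcol k < D.rcol k := by
  have hne : D.sig.symm k ≠ D.tau.symm k := by
    intro h
    have h1 := D.ne (D.sig.symm k)
    apply h1
    rw [Equiv.apply_symm_apply, h, Equiv.apply_symm_apply]
  unfold lcol rcol rend
  by_cases h : D.sig.symm k < D.tau.symm k
  · simpa [h] using h
  · have h2 : D.tau.symm k < D.sig.symm k := lt_of_le_of_ne (not_lt.mp h) (Ne.symm hne)
    simpa [h] using h2

theorem mark_cases (m : Fin N) (e : Bool) :
    (m = D.lcol (D.row m e) ∧ e = !D.rend (D.row m e)) ∨
      (m = D.rcol (D.row m e) ∧ e = D.rend (D.row m e)) := by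
  cases e
  · have hs : D.sig.symm (D.row m false) = m := by simp [row]
    unfold lcol rcol
    cases h : D.rend (D.row m false)
    · right
      simp [hs]
    · left
      simp [hs]
  · have hs : D.tau.symm (D.row m true) = m := by simp [row]
    unfold lcol rcol
    cases h : D.rend (D.row m true)
    · left
      simp [hs]
    · right
      simp [hs]

theorem row_ne (m : Fin N) (e : Bool) : D.row m e ≠ D.row m !e := by
  cases e
  · simpa [row] using D.ne m
  · simpa [row] using (D.ne m).symm

theorem crosses_iff (m : Fin N) (s : Bool) (k : Fin N) :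
    D.Crosses m s k ↔ D.side m k = s ∧ D.lcol k < m ∧ m < D.rcol k := by
  unfold Crosses
  constructor
  · rintro ⟨h1, ⟨l, e, hl, hk⟩, ⟨l', e', hl', hk'⟩⟩
    refine ⟨h1, ?_, ?_⟩
    · have h2 := D.mark_cases l e
      rw [hk] at h2
      rcases h2 with ⟨h3, _⟩ | ⟨h3, _⟩
      · rw [← h3]; exact hl
      · exact lt_trans (D.lcol_lt k) (by rw [← h3]; exact hl)
    · have h2 := D.mark_cases l' e'
      rw [hk'] at h2
      rcases h2 with ⟨h3, _⟩ | ⟨h3, _⟩
      · exact lt_trans (by rw [← h3]; exact hl') (D.lcol_lt k)
      · rw [← h3]; exact hl'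
  · rintro ⟨h1, h2, h3⟩
    exact ⟨h1, ⟨_, _, h2, D.row_lcol k⟩, ⟨_, _, h3, D.row_rcol k⟩⟩

/-- A row which has no mark in column `m`. -/
theorem not_mark {m k : Fin N} (h : m ≠ D.lcol k) (h' : m ≠ D.rcol k) :
    k ≠ D.sig m ∧ k ≠ D.tau m := by
  constructor
  · intro hk
    have h2 := D.mark_cases m false
    have h3 : D.row m false = k := by simp [row, hk]
    rw [h3] at h2
    rcases h2 with ⟨h4, _⟩ | ⟨h4, _⟩
    · exact h h4
    · exact h' h4
  · intro hk
    have h2 := D.mark_cases m true
    have h3 : D.row m true = k := by simp [row, hk]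
    rw [h3] at h2
    rcases h2 with ⟨h4, _⟩ | ⟨h4, _⟩
    · exact h h4
    · exact h' h4

end Diagram

end Pool.MP_f18604_gt.LS
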