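import Mathlib
import Pool.Agent.Helper7.LS.Defs

/-!
# LS-01: percolation gives a discrete gradient

`Known bd F a`: the edge `a` can be reached from the free edges `F` by the rule: if all facets of a
cell `t` but one are known, then the last one is known.

PROOF of `exists_gradient`.  Define `KnownAt : ℕ → X → Prop` by recursion (`KnownAt 0 a := a ∈ F`,
`KnownAt (n+1) a := KnownAt n a ∨ ∃ t, a ∈ bd t ∧ ∀ b ∈ bd t, b ≠ a → KnownAt n b`); by induction on `Known` and because
lists are finite (`KnownAt` is monotone in `n`) every known cell is `KnownAt n` for some `n`; let `time a` be the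
least `n` (`Nat.find`).  If `dim a = 1`, `a ∉ F`, then `time a = n + 1` and there is a cell `f a` with `a ∈ bd (f a)` and all
`b ∈ bd (f a)`, `b ≠ a` of time at most `n < time a`.
The pairs are: `(v, up v)` for `dim v = 0`, `v ≠ root`; and `(e, f e)` for `dim e = 1`, `e ∉ F`.
* `mem`: clear.  `up_unique`: clear (dimensions).
* `down_unique`: if `up v = up w` with `v ≠ w` then `w ∈ bd (up v)` gives `w = par v`, and `v = par w`, so `rk w < rk v < rk w`. If
  `f e = f e'` with `e ≠ e'` then `time e < time e'` and `time e' < time e`.  A pair of the first kind and one of the second kind have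
  second members of different dimensions (1 and 2, by `hdim`).
* `no_both`: `(v, up v)` and `(up v, c)`: `up v` is in `F` and has dimension 1, so no pair starts at it. `(e, f e)`, `dim (f e) = 2`: no pair
  starts at a cell of dimension 2.
* `acyclic`: along the relation `dim` is constant (`hdim`). In dimension 0: `t = up a`, `b ∈ bd t`, `b ≠ a`, so `b = par a` and the rank
  drops.  In dimension 1: the time drops.  Other dimensions: no pairs.  So `TransGen` decreases a natural number.
* critical cells: a vertex `v ≠ root` is in a pair.  The root: `pair root b` is impossible, and `pair b root` would give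
  `dim root = dim b + 1`.  An edge `e` which is not in `F` is in the pair `(e, f e)`; if `e ∈ F` is not in `S'` then `e = up v`
  for some `v` and it is in the pair `(v, e)`.
-/

set_option autoImplicit false

namespace Pool.MP_f18604_gt.LS

/-- The cells which can be reached from the free cells `F` by percolation. -/
inductive Known {X : Type} (bd : X → List X) (F : Set X) : X → Prop
  | free {a : X} : a ∈ F → Known bd F a
  | cell {a : X} (t : X) : a ∈ bd t → (∀ b ∈ bd t, b ≠ a → Known bd F b) → Known bd F a

/-- The cells which are known after `n` rounds. -/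
def KnownAt {X : Type} (bd : X → List X) (F : Set X) : ℕ → X → Prop
  | 0, a => a ∈ F
  | n + 1, a => KnownAt bd F n a ∨ ∃ t, a ∈ bd t ∧ ∀ b ∈ bd t, b ≠ a → KnownAt bd F n b

theorem KnownAt.mono {X : Type} {bd : X → List X} {F : Set X} {a : X} {n m : ℕ} (h : n ≤ m)
    (hn : KnownAt bd F n a) : KnownAt bd F m a := by
  induction m, h using Nat.le_induction with
  | base => exact hn
  | succ m _ ih => exact Or.inl ih

theorem exists_knownAt_list {X : Type} {bd : X → List X} {F : Set X} {a : X} (l : List X)
    (h : ∀ b ∈ l, b ≠ a → ∃ n, KnownAt bd F n b) :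
    ∃ n, ∀ b ∈ l, b ≠ a → KnownAt bd F n b := by
  induction l with
  | nil => exact ⟨0, fun b hb => absurd hb (List.not_mem_nil)⟩
  | cons c l ih =>
    obtain ⟨n, hn⟩ := ih fun b hb => h b (List.mem_cons_of_mem _ hb)
    by_cases hc : c = a
    · refine ⟨n, fun b hb hba => ?_⟩
      rcases List.mem_cons.1 hb with rfl | hb
      · exact absurd hc hba
      · exact hn b hb hba
    · obtain ⟨k, hk⟩ := h c List.mem_cons_self hc
      refine ⟨max n k, fun b hb hba => ?_⟩
      rcases List.mem_cons.1 hb with rfl | hb
      · exact hk.mono (le_max_right _ _)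
      · exact (hn b hb hba).mono (le_max_left _ _)

theorem Known.exists_knownAt {X : Type} {bd : X → List X} {F : Set X} {a : X}
    (h : Known bd F a) : ∃ n, KnownAt bd F n a := by
  induction h with
  | free ha => exact ⟨0, ha⟩
  | cell t hat _ ih =>
    obtain ⟨n, hn⟩ := exists_knownAt_list (bd t) ih
    exact ⟨n + 1, Or.inr ⟨t, hat, hn⟩⟩

/-- The round in which a cell becomes known. -/
noncomputable def time {X : Type} (bd : X → List X) (F : Set X) (a : X) : ℕ :=
  sInf {n | KnownAt bd F n a}

theorem exists_earlier {X : Type} {bd : X → List X} {F : Set X} {a : X}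
    (h : Known bd F a) (ha : a ∉ F) :
    ∃ t, a ∈ bd t ∧ ∀ b ∈ bd t, b ≠ a → time bd F b < time bd F a := by
  have hmem : KnownAt bd F (time bd F a) a := Nat.sInf_mem (s := {n | KnownAt bd F n a}) h.exists_knownAt
  rcases hn : time bd F a with _ | n
  · rw [hn] at hmem
    exact absurd hmem ha
  · rw [hn] at hmem
    rcases hmem with hmem | ⟨t, hat, ht⟩
    · have : time bd F a ≤ n := Nat.sInf_le (s := {n | KnownAt bd F n a}) hmem
      omega
    · refine ⟨t, hat, fun b hb hba => ?_⟩
      have : time bd F b ≤ n := Nat.sInf_le (s := {n | KnownAt bd F n b}) (ht b hb hba)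
      omega

theorem exists_gradient {X : Type} (bd : X → List X) (dim : X → ℕ)
    (hdim : ∀ a b, b ∈ bd a → dim a = dim b + 1) (root : X) (hroot : dim root = 0)
    (par up : X → X) (rk : X → ℕ)
    (hpar : ∀ v, dim v = 0 → v ≠ root → v ∈ bd (up v) ∧ (∀ b ∈ bd (up v), b = v ∨ b = par v) ∧
      rk (par v) < rk v)
    (S' : Set X) (hS' : ∀ a ∈ S', dim a = 1)
    (hK : ∀ e, dim e = 1 → Known bd ({e | ∃ v, dim v = 0 ∧ v ≠ root ∧ e = up v} ∪ S') e) :
    ∃ G : Gradient bd, (∃! a, G.Critical a ∧ dim a = 0) ∧ {a | G.Critical a ∧ dim a = 1} ⊆ S' := by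
  classical
  set F : Set X := {e | ∃ v, dim v = 0 ∧ v ≠ root ∧ e = up v} ∪ S' with hF
  have hup : ∀ v, dim v = 0 → v ≠ root → dim (up v) = 1 := by
    intro v hv hvr
    have := hdim _ _ (hpar v hv hvr).1
    omega
  have hex : ∀ e, ∃ t, dim e = 1 → e ∉ F →
      e ∈ bd t ∧ ∀ b ∈ bd t, b ≠ e → time bd F b < time bd F e := by
    intro e
    by_cases he : dim e = 1 ∧ e ∉ F
    · obtain ⟨t, ht⟩ := exists_earlier (hK e he.1) he.2
      exact ⟨t, fun _ _ => ht⟩
    · exact ⟨e, fun h1 h2 => absurd ⟨h1, h2⟩ he⟩
  choose f hf using hex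
  have hfd : ∀ e, dim e = 1 → e ∉ F → dim (f e) = 2 := by
    intro e he heF
    have := hdim _ _ (hf e he heF).1
    omega
  let P : X → X → Prop := fun a b =>
    (dim a = 0 ∧ a ≠ root ∧ b = up a) ∨ (dim a = 1 ∧ a ∉ F ∧ b = f a)
  let μ : X → ℕ := fun a => if dim a = 0 then rk a else time bd F a
  have hstep : ∀ a b, (∃ t, P a t ∧ b ∈ bd t ∧ b ≠ a) → μ b < μ a := by
    rintro a b ⟨t, (⟨ha, har, rfl⟩ | ⟨ha, haF, rfl⟩), hb, hba⟩
    · have hd : dim b = 0 := by
        have h1 := hdim _ _ hb
        have h2 := hup a ha har
        omega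
      have hbp : b = par a := ((hpar a ha har).2.1 b hb).resolve_left hba
      have h3 := (hpar a ha har).2.2
      simp only [μ, hd, ha, if_true]
      rw [hbp]
      exact h3
    · have hd : dim b = 1 := by
        have h1 := hdim _ _ hb
        have h2 := hfd a ha haF
        omega
      have h3 := (hf a ha haF).2 b hb hba
      simp only [μ, hd, ha]
      simpa using h3
  have htrans : ∀ a b, Relation.TransGen (fun a b => ∃ t, P a t ∧ b ∈ bd t ∧ b ≠ a) a b →
      μ b < μ a := by
    intro a b h
    induction h with
    | single h => exact hstep _ _ h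
    | tail _ h ih => exact lt_trans (hstep _ _ h) ih
  let G : Gradient bd :=
    { pair := P
      mem := by
        rintro a b (⟨ha, har, rfl⟩ | ⟨ha, haF, rfl⟩)
        · exact (hpar a ha har).1
        · exact (hf a ha haF).1
      up_unique := by
        rintro a b b' (⟨ha, har, rfl⟩ | ⟨ha, haF, rfl⟩) (⟨ha', har', rfl⟩ | ⟨ha', haF', rfl⟩)
        · rfl
        · omega
        · omega
        · rfl
      down_unique := by
        rintro a a' b (⟨ha, har, hb⟩ | ⟨ha, haF, hb⟩) (⟨ha', har', hb'⟩ | ⟨ha', haF', hb'⟩)
        · by_contra hne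
          have e1 : up a = up a' := hb.symm.trans hb'
          have h1 : a' ∈ bd (up a) := e1 ▸ (hpar a' ha' har').1
          have h2 : a ∈ bd (up a') := e1 ▸ (hpar a ha har).1
          have h3 : a' = par a :=
            ((hpar a ha har).2.1 a' h1).resolve_left fun h => hne h.symm
          have h4 : a = par a' := ((hpar a' ha' har').2.1 a h2).resolve_left hne
          have h5 := (hpar a ha har).2.2
          have h6 := (hpar a' ha' har').2.2
          rw [← h3] at h5
          rw [← h4] at h6
          omega
        · have h1 := hup a ha har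
          have h2 := hfd a' ha' haF'
          rw [← hb] at h1
          rw [← hb'] at h2
          omega
        · have h1 := hup a' ha' har'
          have h2 := hfd a ha haF
          rw [← hb'] at h1
          rw [← hb] at h2
          omega
        · by_contra hne
          have e1 : f a = f a' := hb.symm.trans hb'
          have h1 : a' ∈ bd (f a) := e1 ▸ (hf a' ha' haF').1
          have h2 : a ∈ bd (f a') := e1 ▸ (hf a ha haF).1
          have h3 := (hf a ha haF).2 a' h1 fun h => hne h.symm
          have h4 := (hf a' ha' haF').2 a h2 hne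
          omega
      no_both := by
        rintro a b c (⟨ha, har, rfl⟩ | ⟨ha, haF, rfl⟩) (⟨ha', har', _⟩ | ⟨ha', haF', _⟩)
        · have := hup a ha har
          omega
        · exact haF' (Or.inl ⟨a, ha, har, rfl⟩)
        · have := hfd a ha haF
          omega
        · have := hfd a ha haF
          omega
      acyclic := by
        intro a h
        exact lt_irrefl _ (htrans a a h) }
  refine ⟨G, ⟨root, ⟨?_, hroot⟩, ?_⟩, ?_⟩
  · intro b
    refine ⟨?_, ?_⟩
    · rintro (⟨_, h, _⟩ | ⟨h, _, _⟩)
      · exact h rfl
      · omega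
    · rintro (⟨h1, h2, h3⟩ | ⟨h1, h2, h3⟩)
      · have := hup b h1 h2
        rw [← h3] at this
        omega
      · have := hfd b h1 h2
        rw [← h3] at this
        omega
  · rintro y ⟨hy, hy0⟩
    by_contra hyr
    exact (hy (up y)).1 (Or.inl ⟨hy0, hyr, rfl⟩)
  · rintro a ⟨ha, ha1⟩
    by_contra haS
    by_cases haF : a ∈ F
    · rcases haF with ⟨v, hv, hvr, rfl⟩ | h
      · exact (ha v).2 (Or.inl ⟨hv, hvr, rfl⟩)
      · exact haS h
    · exact (ha (f a)).1 (Or.inr ⟨ha1, haF, rfl⟩)

end Pool.MP_f18604_gt.LS
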