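import Mathlib
import Pool.Agent.Helper7.LS.Perc
import Pool.Agent.Helper7.LS.Marks

/-!
# LS-03: the spanning tree and the free edges

`D` has `n + 1` columns; the root is the vertex `up (last)` in the sheet `false`.  `parE q`, `parV q` are the edge to the parent and the
parent of a vertex `q` of `Q`, and `rkQ q` its rank.  In the sheet `true` every vertex is joined to its copy in the sheet `false` by the edge `thick false q`.

PROOFS.
`bd_dim`: cases on `a` (and on the `QCell`), unfold the lists, `simp [XCell.bd, QCell.bd, QCell.rim, XCell.dim, QCell.dim]`, all facets
have dimension one less (for `rim` split the two `if`s; for `page` and `ball` use `List.mem_append`, `mem_map`, `mem_flatMap`, `mem_filter`).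
`parX_spec`: cases on the vertex.  `up k` with `k ≠ last`: `rot k = k + 1` as a number, rank `4 (n - k)` against `4 (n - k - 1) + 3`.
`dn k`: `bd` of `leg (rcol k) (rend k) (!rend k)` is `[pt .., dn (row ..)]` as `(!b) = b` is false, `row_rcol`.
`pt m e s`: if `s = e` the edge `leg m e s` ends at `up (row m e)`; otherwise `arc m e _` joins `pt m e false` and `pt m e true`.
-/

set_option autoImplicit false

namespace Pool.MP_f18604_gt.LS

variable {n : ℕ} (D : Diagram (n + 1))

/-- The side on which the half meridian at the end `e` of arc `m` belongs to the tree: it faces the outside of the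
row (back at the left mark, front at the right mark). -/
def outx (m : Fin (n + 1)) (e : Bool) : Bool := decide (m = D.lcol (D.row m e))

variable {D} in
/-- The edge to the parent. -/
def parE : QCell D → QCell D
  | .up k => .ax k
  | .dn k => .leg (D.rcol k) (D.rend k) (!D.rend k)
  | .pt m e s => if s = e then .leg m e s else .arc m e (outx D m e)
  | q => q

variable {D} in
/-- The parent. -/
def parV : QCell D → QCell D
  | .up k => .dn (rot k)
  | .dn k => .pt (D.rcol k) (D.rend k) (!D.rend k)
  | .pt m e s => if s = e then .up (D.row m e) else .pt m e e
  | q => q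

variable {D} in
/-- The rank of a vertex of `Q`. -/
def rkQ : QCell D → ℕ
  | .up k => 4 * (n - k.val)
  | .dn k => 4 * (n - k.val) + 3
  | .pt m e s => 4 * (n - (D.row m e).val) + (if s = e then 1 else 2)
  | _ => 0

/-- The root. -/
def root : XCell D := .ord (.up (Fin.last n)) false

variable {D} in
/-- The edge to the parent, in `X`. -/
def parEX : XCell D → XCell D
  | .ord q false => .ord (parE q) false
  | .ord q true => .thick false q
  | x => x

variable {D} in
/-- The parent, in `X`. -/
def parVX : XCell D → XCell D
  | .ord q false => .ord (parV q) false
  | .ord q true => .ord q false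
  | x => x

variable {D} in
/-- The rank of a vertex of `X`. -/
def rkX : XCell D → ℕ
  | .ord q false => rkQ q
  | .ord q true => rkQ q + 1
  | _ => 0

/-- The free edges: the tree edges and one half meridian for every seed. -/
def Free (S : Finset (Fin (n + 1))) : Set (XCell D) :=
  {e | ∃ v : XCell D, v.dim = 0 ∧ v ≠ root D ∧ e = parEX v} ∪
    {e | ∃ k ∈ S, e = .ord (.arc (D.lcol k) (!D.rend k) false) false}

/-- The known cells. -/
def Kn (S : Finset (Fin (n + 1))) (a : XCell D) : Prop := Known XCell.bd (Free D S) a

private theorem tr_rim {N : ℕ} {E : Diagram N} (m k : Fin N) (x : Bool) (q : QCell E)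
    (h : q ∈ QCell.rim (D := E) m k x) : q.dim = 1 := by
  unfold QCell.rim at h
  split_ifs at h <;> simp only [List.mem_cons, List.not_mem_nil, or_false] at h
  · rcases h with rfl | rfl | rfl <;> rfl
  · rcases h with rfl | rfl | rfl <;> rfl
  · subst h
    rfl

private theorem tr_qbd {N : ℕ} {E : Diagram N} (q : QCell E) (o : Bool) (p : QCell E × Bool)
    (h : p ∈ q.bd o) : q.dim = p.1.dim + 1 := by
  cases q with
  | up k => simp [QCell.bd] at h
  | dn k => simp [QCell.bd] at h
  | pt m e s => simp [QCell.bd] at h
  | ax k =>
    simp only [QCell.bd, List.mem_cons, List.not_mem_nil, or_false] at h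
    rcases h with rfl | rfl <;> rfl
  | seg m k hk =>
    simp only [QCell.bd, List.mem_cons, List.not_mem_nil, or_false] at h
    rcases h with rfl | rfl <;> rfl
  | leg m e s =>
    simp only [QCell.bd, List.mem_cons, List.not_mem_nil, or_false] at h
    rcases h with rfl | rfl
    · rfl
    · split_ifs <;> rfl
  | arc m e x =>
    simp only [QCell.bd, List.mem_cons, List.not_mem_nil, or_false] at h
    rcases h with rfl | rfl <;> rfl
  | lon m j s =>
    simp only [QCell.bd, List.mem_cons, List.not_mem_nil, or_false] at h
    rcases h with rfl | rfl <;> rfl
  | page m s =>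
    simp only [QCell.bd] at h
    rcases List.mem_append.1 h with h | h
    · rcases List.mem_append.1 h with h | h
      · obtain ⟨k, _, rfl⟩ := List.mem_map.1 h
        rfl
      · obtain ⟨k, _, hk⟩ := List.mem_flatMap.1 h
        split_ifs at hk
        · simp only [List.mem_cons, List.not_mem_nil, or_false] at hk
          subst hk
          rfl
        · simp at hk
        · simp at hk
    · simp only [List.mem_cons, List.not_mem_nil, or_false] at h
      rcases h with rfl | rfl | rfl <;> rfl
  | sec m k =>
    simp only [QCell.bd] at h
    obtain ⟨q, hq, rfl⟩ := List.mem_map.1 h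
    have h1 : q.dim = 1 := by
      rcases List.mem_append.1 hq with h2 | h2
      · exact tr_rim _ _ _ _ h2
      · exact tr_rim _ _ _ _ h2
    show 2 = q.dim + 1
    rw [h1]
  | ann m j x =>
    simp only [QCell.bd, List.mem_cons, List.not_mem_nil, or_false] at h
    rcases h with rfl | rfl | rfl | rfl <;> rfl
  | disc m j =>
    simp only [QCell.bd, List.mem_cons, List.not_mem_nil, or_false] at h
    rcases h with rfl | rfl | rfl | rfl <;> rfl
  | dsk κ w =>
    simp only [QCell.bd] at h
    obtain ⟨m, _, hm⟩ := List.mem_flatMap.1 h
    simp only [List.mem_cons, List.not_mem_nil, or_false] at hm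
    rcases hm with rfl | rfl | rfl <;> rfl
  | chamber m =>
    simp only [QCell.bd] at h
    rcases List.mem_append.1 h with h | h
    · simp only [List.mem_cons, List.not_mem_nil, or_false] at h
      rcases h with rfl | rfl | rfl | rfl | rfl | rfl <;> rfl
    · obtain ⟨k, _, rfl⟩ := List.mem_map.1 h
      rfl
  | ball κ v =>
    simp only [QCell.bd] at h
    rcases List.mem_append.1 h with h | h
    · simp only [List.mem_cons, List.not_mem_nil, or_false] at h
      rcases h with rfl | rfl <;> rfl
    · obtain ⟨m, _, hm⟩ := List.mem_flatMap.1 h
      rcases List.mem_cons.1 hm with rfl | hm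
      · rfl
      · obtain ⟨l, _, rfl⟩ := List.mem_map.1 hm
        rfl

theorem bd_dim {N : ℕ} {E : Diagram N} (a b : XCell E) (h : b ∈ a.bd) : a.dim = b.dim + 1 := by
  cases a with
  | ord q o =>
    obtain ⟨p, hp, rfl⟩ := List.mem_map.1 h
    exact tr_qbd q o p hp
  | kum m j x =>
    simp only [XCell.bd, List.mem_cons, List.not_mem_nil, or_false] at h
    rcases h with rfl | rfl | rfl | rfl | rfl | rfl <;> rfl
  | thick Z q =>
    simp only [XCell.bd] at h
    rcases List.mem_cons.1 h with rfl | h
    · rfl
    · rcases List.mem_cons.1 h with rfl | h
      · rfl
      · obtain ⟨p, hp, rfl⟩ := List.mem_map.1 h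
        show q.dim + 1 = p.1.dim + 1 + 1
        rw [tr_qbd q false p hp]
  | cap Z m j x s =>
    simp only [XCell.bd, List.mem_cons, List.not_mem_nil, or_false] at h
    rcases h with rfl | rfl | rfl | rfl <;> rfl
  | wall Z m j x o =>
    simp only [XCell.bd, List.mem_cons, List.not_mem_nil, or_false] at h
    rcases h with rfl | rfl | rfl | rfl | rfl | rfl <;> rfl
  | room Z m j x i =>
    simp only [XCell.bd] at h
    rcases List.mem_append.1 h with h | h
    · simp only [List.mem_cons, List.not_mem_nil, or_false] at h
      rcases h with rfl | rfl <;> rfl
    · split_ifs at h <;> simp only [List.mem_cons, List.not_mem_nil, or_false] at h <;>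
        rcases h with rfl | rfl <;> rfl

theorem parX_spec (v : XCell D) (h0 : v.dim = 0) (h : v ≠ root D) :
    v ∈ (parEX v).bd ∧ (∀ b ∈ (parEX v).bd, b = v ∨ b = parVX v) ∧ rkX (parVX v) < rkX v := by
  cases v with
  | kum m j x => exact absurd h0 (by simp [XCell.dim])
  | thick Z q => exact absurd h0 (by simp [XCell.dim])
  | cap Z m j x s => exact absurd h0 (by simp [XCell.dim])
  | wall Z m j x o => exact absurd h0 (by simp [XCell.dim])
  | room Z m j x i => exact absurd h0 (by simp [XCell.dim])
  | ord q o =>
    have hq : q.dim = 0 := h0
    cases o with
    | true =>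
      have hb : q.bd false = [] := by
        cases q <;> first | rfl | exact absurd hq (by simp [QCell.dim])
      have hE : (parEX (XCell.ord q true)).bd = [XCell.ord q false, XCell.ord q true] := by
        show XCell.ord q false :: XCell.ord q true :: (q.bd false).map (fun p => XCell.thick false p.1) = _
        rw [hb]
        rfl
      rw [hE]
      refine ⟨by simp, fun b hb => ?_, Nat.lt_succ_self _⟩
      simp only [List.mem_cons, List.not_mem_nil, or_false] at hb
      rcases hb with rfl | rfl
      · exact Or.inr rfl
      · exact Or.inl rfl
    | false =>
      cases q with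
      | up k =>
        refine ⟨?_, fun b hb => ?_, ?_⟩
        · exact List.mem_cons_self
        · have hb' : b ∈ [XCell.ord (QCell.up k) false, XCell.ord (QCell.dn (rot k)) false] := hb
          simp only [List.mem_cons, List.not_mem_nil, or_false] at hb'
          exact hb'
        · show 4 * (n - (rot k).val) + 3 < 4 * (n - k.val)
          have hk : k.val < n := by
            have h1 := k.isLt
            rcases Nat.lt_or_ge k.val n with h2 | h2
            · exact h2
            · exfalso
              apply h
              have h3 : k = Fin.last n := Fin.ext (by rw [Fin.val_last]; omega)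
              rw [h3]
              rfl
          have h2 : (rot k).val = k.val + 1 := by
            show (k.val + 1) % (n + 1) = k.val + 1
            exact Nat.mod_eq_of_lt (by omega)
          rw [h2]
          omega
      | dn k =>
        have hE : (parEX (XCell.ord (QCell.dn k) false : XCell D)).bd =
            [XCell.ord (QCell.pt (D.rcol k) (D.rend k) (!D.rend k)) false, XCell.ord (QCell.dn k) false] := by
          show [XCell.ord (QCell.pt (D.rcol k) (D.rend k) (!D.rend k)) false,
            XCell.ord (if (!D.rend k) = D.rend k then QCell.up (D.row (D.rcol k) (D.rend k))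
              else QCell.dn (D.row (D.rcol k) (D.rend k))) false] = _
          rw [if_neg (by cases D.rend k <;> simp), D.row_rcol]
        rw [hE]
        refine ⟨by simp, fun b hb => ?_, ?_⟩
        · simp only [List.mem_cons, List.not_mem_nil, or_false] at hb
          exact hb.symm
        · show 4 * (n - (D.row (D.rcol k) (D.rend k)).val) + (if (!D.rend k) = D.rend k then 1 else 2) <
            4 * (n - k.val) + 3
          rw [if_neg (by cases D.rend k <;> simp), D.row_rcol]
          omega
      | pt m e s =>
        by_cases hs : s = e
        · have hE : parEX (XCell.ord (QCell.pt m e s) false : XCell D) =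
              XCell.ord (QCell.leg m e s) false := by
            show XCell.ord (if s = e then QCell.leg m e s else QCell.arc m e (outx D m e)) false = _
            rw [if_pos hs]
          have hV : parVX (XCell.ord (QCell.pt m e s) false : XCell D) =
              XCell.ord (QCell.up (D.row m e)) false := by
            show XCell.ord (if s = e then QCell.up (D.row m e) else QCell.pt m e e) false = _
            rw [if_pos hs]
          have hB : (XCell.ord (QCell.leg m e s) false : XCell D).bd =
              [XCell.ord (QCell.pt m e s) false, XCell.ord (QCell.up (D.row m e)) false] := by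
            show [XCell.ord (QCell.pt m e s) false,
              XCell.ord (if s = e then QCell.up (D.row m e) else QCell.dn (D.row m e)) false] = _
            rw [if_pos hs]
          rw [hE, hV, hB]
          refine ⟨by simp, fun b hb => ?_, ?_⟩
          · simp only [List.mem_cons, List.not_mem_nil, or_false] at hb
            exact hb
          · show 4 * (n - (D.row m e).val) < 4 * (n - (D.row m e).val) + (if s = e then 1 else 2)
            rw [if_pos hs]
            omega
        · have hE : parEX (XCell.ord (QCell.pt m e s) false : XCell D) =
              XCell.ord (QCell.arc m e (outx D m e)) false := by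
            show XCell.ord (if s = e then QCell.leg m e s else QCell.arc m e (outx D m e)) false = _
            rw [if_neg hs]
          have hV : parVX (XCell.ord (QCell.pt m e s) false : XCell D) =
              XCell.ord (QCell.pt m e e) false := by
            show XCell.ord (if s = e then QCell.up (D.row m e) else QCell.pt m e e) false = _
            rw [if_neg hs]
          have hB : (XCell.ord (QCell.arc m e (outx D m e)) false : XCell D).bd =
              [XCell.ord (QCell.pt m e false) false, XCell.ord (QCell.pt m e true) false] := rfl
          rw [hE, hV, hB]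
          refine ⟨?_, fun b hb => ?_, ?_⟩
          · cases s <;> simp
          · simp only [List.mem_cons, List.not_mem_nil, or_false] at hb
            cases s <;> cases e
            · exact absurd rfl hs
            · exact hb
            · exact hb.symm
            · exact absurd rfl hs
          · show 4 * (n - (D.row m e).val) + (if e = e then 1 else 2) <
              4 * (n - (D.row m e).val) + (if s = e then 1 else 2)
            rw [if_neg hs, if_pos rfl]
            omega
      | ax k => exact absurd hq (by simp [QCell.dim])
      | seg m k hk => exact absurd hq (by simp [QCell.dim])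
      | leg m e s => exact absurd hq (by simp [QCell.dim])
      | arc m e x => exact absurd hq (by simp [QCell.dim])
      | lon m j s => exact absurd hq (by simp [QCell.dim])
      | page m s => exact absurd hq (by simp [QCell.dim])
      | sec m k => exact absurd hq (by simp [QCell.dim])
      | ann m j x => exact absurd hq (by simp [QCell.dim])
      | disc m j => exact absurd hq (by simp [QCell.dim])
      | dsk κ w => exact absurd hq (by simp [QCell.dim])
      | chamber m => exact absurd hq (by simp [QCell.dim])
      | ball κ v => exact absurd hq (by simp [QCell.dim])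

/-- All edges known: the theorem. -/
theorem gradient_of_known (S : Finset (Fin (n + 1))) (h : ∀ e : XCell D, e.dim = 1 → Kn D S e) :
    ∃ G : Gradient (XCell.bd (D := D)), (∃! a, G.Critical a ∧ a.dim = 0) ∧
      {a | G.Critical a ∧ a.dim = 1}.ncard ≤ S.card := by
  classical
  obtain ⟨G, hG, hsub⟩ := exists_gradient (XCell.bd (D := D)) XCell.dim (fun a b hb => bd_dim a b hb)
    (root D) rfl parVX parEX rkX (fun v h0 h1 => parX_spec D v h0 h1)
    {e | ∃ k ∈ S, e = .ord (.arc (D.lcol k) (!D.rend k) false) false}
    (by rintro a ⟨k, _, rfl⟩; rfl) h
  refine ⟨G, hG, ?_⟩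
  have himg : {e : XCell D | ∃ k ∈ S, e = .ord (.arc (D.lcol k) (!D.rend k) false) false} =
      (fun k => XCell.ord (.arc (D.lcol k) (!D.rend k) false) false) '' (S : Set (Fin (n + 1))) := by
    ext e
    constructor
    · rintro ⟨k, hk, rfl⟩
      exact ⟨k, hk, rfl⟩
    · rintro ⟨k, hk, rfl⟩
      exact ⟨k, hk, rfl⟩
  rw [himg] at hsub
  calc {a | G.Critical a ∧ a.dim = 1}.ncard ≤ _ :=
        Set.ncard_le_ncard hsub (S.finite_toSet.image _)
    _ ≤ (S : Set (Fin (n + 1))).ncard := Set.ncard_image_le S.finite_toSet
    _ = S.card := Set.ncard_coe_finset S

end Pool.MP_f18604_gt.LS
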