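import Mathlib
import Pool.Agent.Helper7.LS.Tree

/-!
# LS-04: the two sheets

`KQ D S q`: both lifts of the edge `q` of `Q` are known.

PROOFS.  `thick_false`: `q` has dimension 0; the vertex `ord q true` is not the root and `parEX (ord q true) = thick false q`.
`kq_of`: the 2-cell `thick false q` has the facets `ord q false`, `ord q true` and `thick false p.1` for `p ∈ q.bd false`; the latter are known by
`thick_false` (`p.1.dim = 0` by `bd_dim` applied to `ord q false`).  So one of the two lifts gives the other.
`thick_true`: the 2-cell `thick true q` of an edge `q`: if `KQ q` and all ends except possibly `v` are known in the form `thick true _`, then `thick true v`.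
`free_edge`: for a vertex `q ≠ up last` of `Q` the edge `ord (parE q) false` is free.
-/

set_option autoImplicit false

namespace Pool.MP_f18604_gt.LS

variable {n : ℕ} (D : Diagram (n + 1)) (S : Finset (Fin (n + 1)))

/-- Both lifts of `q` are known. -/
def KQ (q : QCell D) : Prop := ∀ o, Kn D S (.ord q o)

variable {D}

theorem thick_false (q : QCell D) (h : q.dim = 0) : Kn D S (.thick false q) := by
  refine Known.free (Or.inl ⟨.ord q true, h, ?_, rfl⟩)
  intro h1
  have h2 : (XCell.ord q true : XCell D) = XCell.ord (.up (Fin.last n)) false := h1
  rw [XCell.ord.injEq] at h2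
  exact absurd h2.2 (by decide)

theorem kq_of {q : QCell D} (h : q.dim = 1) {o : Bool} (h1 : Kn D S (.ord q o)) : KQ D S q := by
  intro o'
  by_cases ho : o' = o
  · rw [ho]
    exact h1
  · refine Known.cell (.thick false q) ?_ ?_
    · cases o' <;> simp [XCell.bd]
    · intro b hb hne
      have hb' : b ∈ (XCell.ord q false :: XCell.ord q true ::
          (q.bd false).map fun p => XCell.thick false p.1 : List (XCell D)) := hb
      rw [List.mem_cons, List.mem_cons, List.mem_map] at hb'
      rcases hb' with hb' | hb' | ⟨p, hp, hb'⟩
      · rw [hb'] at hne ⊢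
        have : o = false := by
          cases o'
          · exact absurd rfl hne
          · cases o
            · rfl
            · exact absurd rfl ho
        rw [this] at h1
        exact h1
      · rw [hb'] at hne ⊢
        have : o = true := by
          cases o'
          · cases o
            · exact absurd rfl ho
            · rfl
          · exact absurd rfl hne
        rw [this] at h1
        exact h1
      · rw [← hb']
        apply thick_false
        have h3 := bd_dim (XCell.ord q false) (XCell.ord p.1 p.2) (by
          change _ ∈ (q.bd false).map fun p => XCell.ord p.1 p.2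
          exact List.mem_map_of_mem (f := fun p : QCell D × Bool => XCell.ord p.1 p.2) hp)
        have h4 : q.dim = p.1.dim + 1 := h3
        omega

/-- Percolation in `Q`: if all facets of a lift of the 2-cell `t` except the lifts of `q` are known, then `q`. -/
theorem kq_cell {q t : QCell D} (ht : t.dim = 2) {o o' : Bool} (h : (q, o') ∈ t.bd o)
    (h1 : ∀ p ∈ t.bd o, p.1 ≠ q → KQ D S p.1) (h2 : ∀ p ∈ t.bd o, p.1 = q → p.2 = o') : KQ D S q := by
  have hmem : (XCell.ord q o' : XCell D) ∈ (XCell.ord t o).bd :=
    List.mem_map_of_mem (f := fun p : QCell D × Bool => XCell.ord p.1 p.2) h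
  have h3 : t.dim = q.dim + 1 := bd_dim (XCell.ord t o) (XCell.ord q o') hmem
  refine kq_of S (by omega) (o := o') (Known.cell (.ord t o) hmem ?_)
  intro b hb hne
  have hb' : b ∈ (t.bd o).map fun p => XCell.ord p.1 p.2 := hb
  rw [List.mem_map] at hb'
  obtain ⟨p, hp, rfl⟩ := hb'
  by_cases hpq : p.1 = q
  · exfalso
    apply hne
    rw [hpq, h2 p hp hpq]
  · exact h1 p hp hpq p.2

theorem thick_true {q v : QCell D} (h : q.dim = 1) (hq : KQ D S q) {o : Bool} (hv : (v, o) ∈ q.bd false)
    (h1 : ∀ p ∈ q.bd false, p.1 ≠ v → Kn D S (.thick true p.1)) : Kn D S (.thick true v) := by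
  refine Known.cell (.thick true q) ?_ ?_
  · change _ ∈ (XCell.ord q false :: XCell.ord q true ::
          (q.bd false).map fun p => XCell.thick true p.1 : List (XCell D))
    rw [List.mem_cons, List.mem_cons, List.mem_map]
    exact Or.inr (Or.inr ⟨_, hv, rfl⟩)
  · intro b hb hne
    have hb' : b ∈ (XCell.ord q false :: XCell.ord q true ::
          (q.bd false).map fun p => XCell.thick true p.1 : List (XCell D)) := hb
    rw [List.mem_cons, List.mem_cons, List.mem_map] at hb'
    rcases hb' with hb' | hb' | ⟨p, hp, hb'⟩
    · rw [hb']
      exact hq false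
    · rw [hb']
      exact hq true
    · rw [← hb'] at hne ⊢
      refine h1 p hp ?_
      intro hpv
      exact hne (by rw [hpv])

theorem free_edge (q : QCell D) (h : q.dim = 0) (h1 : q ≠ .up (Fin.last n)) : KQ D S (parE q) := by
  have hd : (parE q).dim = 1 := by
    cases q with
    | up k => rfl
    | dn k => rfl
    | pt m e s =>
      change (if s = e then QCell.leg m e s else QCell.arc m e (outx D m e) : QCell D).dim = 1
      split_ifs <;> rfl
    | ax k => exact absurd h (by simp [QCell.dim])
    | seg m k hh => exact absurd h (by simp [QCell.dim])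
    | leg m e s => exact absurd h (by simp [QCell.dim])
    | arc m e s => exact absurd h (by simp [QCell.dim])
    | lon m j s => exact absurd h (by simp [QCell.dim])
    | page m s => exact absurd h (by simp [QCell.dim])
    | sec m k => exact absurd h (by simp [QCell.dim])
    | ann m j x => exact absurd h (by simp [QCell.dim])
    | disc m j => exact absurd h (by simp [QCell.dim])
    | dsk κ w => exact absurd h (by simp [QCell.dim])
    | chamber m => exact absurd h (by simp [QCell.dim])
    | ball κ v => exact absurd h (by simp [QCell.dim])
  refine kq_of S hd (o := false) (Known.free (Or.inl ⟨.ord q false, h, ?_, rfl⟩))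
  intro h2
  have h3 : (XCell.ord q false : XCell D) = XCell.ord (.up (Fin.last n)) false := h2
  rw [XCell.ord.injEq] at h3
  exact h1 h3.1

/-- The free edges, listed. -/
theorem free_ax (k : Fin (n + 1)) (h : k ≠ Fin.last n) : KQ D S (.ax k) := by
  refine free_edge S (.up k) rfl ?_
  intro h1
  rw [QCell.up.injEq] at h1
  exact h h1

theorem free_leg (m : Fin (n + 1)) (e : Bool) : KQ D S (.leg m e e) := by
  have h1 := free_edge S (.pt m e e : QCell D) rfl (by simp)
  have h2 : parE (.pt m e e : QCell D) = .leg m e e := by simp [parE]
  rw [h2] at h1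
  exact h1

theorem free_arc (m : Fin (n + 1)) (e : Bool) : KQ D S (.arc m e (outx D m e)) := by
  have h1 := free_edge S (.pt m e (!e) : QCell D) rfl (by simp)
  have h2 : parE (.pt m e (!e) : QCell D) = .arc m e (outx D m e) := by
    change (if (!e) = e then QCell.leg m e (!e) else QCell.arc m e (outx D m e) : QCell D) = _
    rw [if_neg]
    cases e <;> decide
  rw [h2] at h1
  exact h1

theorem free_rleg (k : Fin (n + 1)) : KQ D S (.leg (D.rcol k) (D.rend k) (!D.rend k)) := by
  exact free_edge S (.dn k : QCell D) rfl (by simp)

theorem free_seed (k : Fin (n + 1)) (h : k ∈ S) :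
    KQ D S (.arc (D.lcol k) (!D.rend k) false) := by
  exact kq_of S rfl (o := false) (Known.free (Or.inr ⟨k, h, rfl⟩))

end Pool.MP_f18604_gt.LS
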