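import Mathlib
import Pool.Agent.Helper7.LS.Rim

/-!
# LS-06: the outside of a row is known

Row `k` has its marks in the columns `lcol k < rcol k`.  On the outside of the row (pages after `rcol k` and before `lcol k`) everything is known.

PROOF.  At the right mark: `leg (rcol k) (rend k) _` are free (`free_leg`, `free_rleg`) and `arc (rcol k) (rend k) false` is free because `outx` is
`false` there (`rcol k ≠ lcol (row ..)`, `row_rcol`).  So `RimK (rcol k) k false` by `rim_mark`.  Now go to the right, page by page,
through the pages `rcol k + 1, ..., n, 0, 1, ..., lcol k - 1` (no marks of row `k` there: `not_mark`), with `rim_step` and `rim_plain`: at each of them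
`seg m k` is known.  Arriving at the page `lcol k` from the left (`rim_step` with `q = leg (lcol k) (!rend k) (rend k)`, the only unknown element of the list:
`leg (lcol k) (!rend k) (!rend k)` is `free_leg`, and `arc (lcol k) (!rend k) true` is free as `outx = true`) gives the last leg.
Induction: first for `m` from `rcol k` to `n` (upwards), then `rot n = 0`, then upwards to `lcol k`.
-/

set_option autoImplicit false

namespace Pool.MP_f18604_gt.LS

variable {n : ℕ} {D : Diagram (n + 1)} (S : Finset (Fin (n + 1)))

private theorem base_rim_row (m : Fin (n + 1)) (e x : Bool) :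
    (QCell.rim m (D.row m e) x : List (QCell D)) =
      [.leg m e false, .leg m e true, .arc m e x] := by
  unfold QCell.rim
  cases e
  · have h : D.row m false = D.sig m := rfl
    rw [dif_pos h]
  · have h : D.row m true = D.tau m := rfl
    rw [dif_neg (by rw [h]; exact (D.ne m).symm), dif_pos h]

private theorem base_rim_plain {m k : Fin (n + 1)} (h : k ≠ D.sig m ∧ k ≠ D.tau m) (x : Bool) :
    (QCell.rim m k x : List (QCell D)) = [.seg m k h] := by
  unfold QCell.rim
  rw [dif_neg h.1, dif_neg h.2]

private theorem base_step {m k : Fin (n + 1)} (hm : RimK D S m k false)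
    (h1 : rot m ≠ D.lcol k) (h2 : rot m ≠ D.rcol k) : RimK D S (rot m) k false := by
  have h := D.not_mark h1 h2
  have h3 := rim_step S hm (.seg (rot m) k h) (by
    rw [base_rim_plain h]
    exact List.mem_singleton.2 rfl) (by
    intro q' hq' hne
    rw [base_rim_plain h] at hq'
    exact absurd (List.mem_singleton.1 hq') hne)
  exact (rim_plain S h false).2 ((rim_plain S h true).1 h3)

private theorem base_arrive {m l k : Fin (n + 1)} {e : Bool} (hm : RimK D S m k false)
    (hl : rot m = l) (hk : D.row l e = k) (harc : KQ D S (.arc l e true)) (s : Bool) :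
    KQ D S (.leg l e s) := by
  subst hl
  subst hk
  have hq : (QCell.leg (rot m) e (!e) : QCell D) ∈
      (QCell.rim (rot m) (D.row (rot m) e) true : List (QCell D)) := by
    rw [base_rim_row]
    cases e <;> simp
  have h1 := rim_step S hm (.leg (rot m) e (!e)) hq (by
    intro q' hq' hne
    rw [base_rim_row] at hq'
    have hfree := free_leg (D := D) S (rot m) e
    simp only [List.mem_cons, List.not_mem_nil, or_false] at hq'
    rcases hq' with rfl | rfl | rfl
    · cases e
      · exact hfree
      · exact absurd rfl hne
    · cases e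
      · exact absurd rfl hne
      · exact hfree
    · exact harc)
  rw [rim_mark] at h1
  cases s
  · exact h1.1
  · exact h1.2.1

private def base_page (a : ℕ) : Fin (n + 1) := ⟨a % (n + 1), Nat.mod_lt _ (Nat.succ_pos n)⟩

private theorem base_rot (a : ℕ) : rot (base_page a : Fin (n + 1)) = base_page (a + 1) := by
  apply Fin.ext
  show (a % (n + 1) + 1) % (n + 1) = (a + 1) % (n + 1)
  rw [Nat.mod_add_mod]

private theorem base_out (k : Fin (n + 1)) (i : ℕ)
    (hi : (D.rcol k).val + i < n + 1 + (D.lcol k).val) :
    RimK D S (base_page ((D.rcol k).val + i)) k false := by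
  have hlr : (D.lcol k).val < (D.rcol k).val := D.lcol_lt k
  have hr := (D.rcol k).isLt
  induction i with
  | zero =>
    have h0 : (base_page ((D.rcol k).val + 0) : Fin (n + 1)) = D.rcol k := by
      apply Fin.ext
      show ((D.rcol k).val + 0) % (n + 1) = (D.rcol k).val
      rw [add_zero, Nat.mod_eq_of_lt hr]
    rw [h0]
    have h1 : RimK D S (D.rcol k) (D.row (D.rcol k) (D.rend k)) false := by
      rw [rim_mark]
      have h2 := free_leg (D := D) S (D.rcol k) (D.rend k)
      have h3 := free_rleg (D := D) S k
      have h4 := free_arc (D := D) S (D.rcol k) (D.rend k)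
      have h5 : outx D (D.rcol k) (D.rend k) = false := by
        unfold outx
        rw [D.row_rcol k]
        exact decide_eq_false (ne_of_gt (D.lcol_lt k))
      rw [h5] at h4
      refine ⟨?_, ?_, h4⟩
      · cases hb : D.rend k
        · rw [hb] at h2
          exact h2
        · rw [hb] at h3
          exact h3
      · cases hb : D.rend k
        · rw [hb] at h3
          exact h3
        · rw [hb] at h2
          exact h2
    rw [D.row_rcol k] at h1
    exact h1
  | succ i ih =>
    have h1 := ih (by omega)
    have h2 : (base_page ((D.rcol k).val + (i + 1)) : Fin (n + 1)) =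
        rot (base_page ((D.rcol k).val + i)) := by
      rw [base_rot, add_assoc]
    rw [h2]
    have h3 : (rot (base_page ((D.rcol k).val + i) : Fin (n + 1))).val =
        ((D.rcol k).val + (i + 1)) % (n + 1) := by
      rw [← h2]
      rfl
    have h4 : ((D.rcol k).val + (i + 1)) % (n + 1) ≠ (D.lcol k).val ∧
        ((D.rcol k).val + (i + 1)) % (n + 1) ≠ (D.rcol k).val := by
      by_cases hc : (D.rcol k).val + (i + 1) < n + 1
      · rw [Nat.mod_eq_of_lt hc]
        omega
      · rw [Nat.mod_eq_sub_mod (by omega), Nat.mod_eq_of_lt (by omega)]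
        omega
    refine base_step S h1 ?_ ?_
    · intro h
      exact h4.1 (by rw [← h3, h])
    · intro h
      exact h4.2 (by rw [← h3, h])

theorem base_seg {m k : Fin (n + 1)} (h : m < D.lcol k ∨ D.rcol k < m)
    (h' : k ≠ D.sig m ∧ k ≠ D.tau m) : KQ D S (.seg m k h') := by
  have hlr : (D.lcol k).val < (D.rcol k).val := D.lcol_lt k
  have hr := (D.rcol k).isLt
  have hm := m.isLt
  obtain ⟨i, hi, hi'⟩ : ∃ i, (D.rcol k).val + i < n + 1 + (D.lcol k).val ∧
      ((D.rcol k).val + i) % (n + 1) = m.val := by
    rcases h with h | h
    · have h1 : m.val < (D.lcol k).val := h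
      refine ⟨m.val + (n + 1) - (D.rcol k).val, by omega, ?_⟩
      have h2 : (D.rcol k).val + (m.val + (n + 1) - (D.rcol k).val) = m.val + (n + 1) := by omega
      rw [h2, Nat.add_mod_right, Nat.mod_eq_of_lt hm]
    · have h1 : (D.rcol k).val < m.val := h
      refine ⟨m.val - (D.rcol k).val, by omega, ?_⟩
      have h2 : (D.rcol k).val + (m.val - (D.rcol k).val) = m.val := by omega
      rw [h2, Nat.mod_eq_of_lt hm]
  have h1 := base_out (D := D) S k i hi
  have h2 : (base_page ((D.rcol k).val + i) : Fin (n + 1)) = m := Fin.ext hi'
  rw [h2] at h1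
  exact (rim_plain S h' false).1 h1

theorem base_leg (m : Fin (n + 1)) (e s : Bool) : KQ D S (.leg m e s) := by
  rcases D.mark_cases m e with ⟨h1, h2⟩ | ⟨h1, h2⟩
  · -- the left mark
    obtain ⟨k, hk⟩ : ∃ k, k = D.row m e := ⟨_, rfl⟩
    rw [← hk] at h1 h2
    have hlr : (D.lcol k).val < (D.rcol k).val := D.lcol_lt k
    have hr := (D.rcol k).isLt
    have h3 := base_out (D := D) S k (n + (D.lcol k).val - (D.rcol k).val) (by omega)
    have h4 : (D.rcol k).val + (n + (D.lcol k).val - (D.rcol k).val) = n + (D.lcol k).val := by
      omega
    rw [h4] at h3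
    have h5 : rot (base_page (n + (D.lcol k).val) : Fin (n + 1)) = m := by
      rw [base_rot]
      apply Fin.ext
      show (n + (D.lcol k).val + 1) % (n + 1) = m.val
      have h6 : n + (D.lcol k).val + 1 = (D.lcol k).val + (n + 1) := by omega
      rw [h6, Nat.add_mod_right, Nat.mod_eq_of_lt (D.lcol k).isLt, h1]
    refine base_arrive S h3 h5 hk.symm ?_ s
    have h7 := free_arc (D := D) S m e
    have h8 : outx D m e = true := by
      unfold outx
      rw [← hk]
      exact decide_eq_true h1
    rw [h8] at h7
    exact h7
  · -- the right mark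
    by_cases hs : s = e
    · rw [hs]
      exact free_leg S m e
    · have h3 := free_rleg (D := D) S (D.row m e)
      rw [← h1, ← h2] at h3
      have h4 : s = !e := by
        clear h3 h2 h1
        revert hs
        cases s <;> cases e <;> simp
      rw [h4]
      exact h3

end Pool.MP_f18604_gt.LS
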