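import Mathlib
import Pool.Agent.Helper7.LS.Base

/-!
# LS-08: a coloured row

`RowK D S k`: everything at the row `k` is known.

PROOF of `row_of_left` (the half meridian in front at the left mark is known): `RimK (lcol k) k false` by `rim_mark` and `base_leg`. Go to the right through the pages
`lcol k + 1, ..., rcol k - 1` (`rim_step`, `rim_plain`, `not_mark`) and arrive at the page `rcol k`: `rim_step` with `q = arc (rcol k) (rend k) true`, the legs are
known by `base_leg`.  So all `seg m k` with `lcol k < m < rcol k` and `arc (rcol k) (rend k) true` are known.  The others are known by `base_seg` and `free_arc`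
(`arc (lcol k) (!rend k) true` and `arc (rcol k) (rend k) false`, see `outx`).  `mark_cases` shows that these are all.
`row_of_right` is the same from right to left with `rim_step_back`.
`row_of_arcs` follows: by `mark_cases` the mark `(m, e)` is the left or the right mark of its row.
-/

set_option autoImplicit false

namespace Pool.MP_f18604_gt.LS

variable {n : ℕ} (D : Diagram (n + 1)) (S : Finset (Fin (n + 1)))

/-- Everything at row `k` is known. -/
def RowK (k : Fin (n + 1)) : Prop :=
  (∀ m (h : k ≠ D.sig m ∧ k ≠ D.tau m), KQ D S (.seg m k h)) ∧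
    ∀ m e, D.row m e = k → ∀ x, KQ D S (.arc m e x)

variable {D}

/-- A mark read as a page: the list of the mark is known as soon as its half meridian is. -/
private theorem row_mark {m k : Fin (n + 1)} {e x : Bool} (hk : D.row m e = k)
    (h : KQ D S (.arc m e x)) : RimK D S m k x := by
  subst hk
  rw [rim_mark]
  exact ⟨base_leg S m e false, base_leg S m e true, h⟩

/-- A page without a mark, seen from its two sides. -/
private theorem row_flip {m k : Fin (n + 1)} (h1 : m ≠ D.lcol k) (h2 : m ≠ D.rcol k) {x : Bool}
    (h : RimK D S m k x) (y : Bool) : RimK D S m k y :=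
  (rim_plain S (D.not_mark h1 h2) y).2 ((rim_plain S (D.not_mark h1 h2) x).1 h)

private theorem row_mem_rim {m k : Fin (n + 1)} {e x : Bool} (hk : D.row m e = k) :
    (QCell.arc m e x : QCell D) ∈ (QCell.rim m k x : List (QCell D)) := by
  subst hk
  unfold QCell.rim
  cases e
  · have h : D.row m false = D.sig m := rfl
    rw [dif_pos h]
    simp
  · have h : D.row m true = D.tau m := rfl
    rw [dif_neg (by rw [h]; exact (D.ne m).symm), dif_pos h]
    simp

private theorem row_rim_others {m k : Fin (n + 1)} {e x : Bool} (hk : D.row m e = k) :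
    ∀ q' ∈ (QCell.rim m k x : List (QCell D)), q' ≠ .arc m e x → KQ D S q' := by
  subst hk
  intro q' hq' hne
  unfold QCell.rim at hq'
  cases e
  · have h : D.row m false = D.sig m := rfl
    rw [dif_pos h] at hq'
    simp only [List.mem_cons, List.not_mem_nil, or_false] at hq'
    rcases hq' with rfl | rfl | rfl
    · exact base_leg S m false false
    · exact base_leg S m false true
    · exact absurd rfl hne
  · have h : D.row m true = D.tau m := rfl
    rw [dif_neg (by rw [h]; exact (D.ne m).symm), dif_pos h] at hq'
    simp only [List.mem_cons, List.not_mem_nil, or_false] at hq'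
    rcases hq' with rfl | rfl | rfl
    · exact base_leg S m true false
    · exact base_leg S m true true
    · exact absurd rfl hne

private theorem row_arc_of_rim {m k : Fin (n + 1)} {e x : Bool} (hk : D.row m e = k)
    (h : RimK D S m k x) : KQ D S (.arc m e x) :=
  h _ (row_mem_rim hk)

private theorem row_plain_mem {m k : Fin (n + 1)} (h : k ≠ D.sig m ∧ k ≠ D.tau m) (x : Bool) :
    (QCell.rim m k x : List (QCell D)) = [.seg m k h] := by
  unfold QCell.rim
  rw [dif_neg h.1, dif_neg h.2]

/-- One step to the right onto a page without a mark. -/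
private theorem row_right {m k : Fin (n + 1)} (hm : RimK D S m k false)
    (h1 : rot m ≠ D.lcol k) (h2 : rot m ≠ D.rcol k) : RimK D S (rot m) k false := by
  have h := D.not_mark h1 h2
  refine row_flip S h1 h2 (x := true) (rim_step S hm (.seg (rot m) k h) ?_ ?_) false
  · rw [row_plain_mem h]
    exact List.mem_singleton.2 rfl
  · intro q' hq' hne
    rw [row_plain_mem h] at hq'
    exact absurd (List.mem_singleton.1 hq') hne

/-- One step to the left onto a page without a mark. -/
private theorem row_left {m k : Fin (n + 1)} (hm : RimK D S (rot m) k true)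
    (h1 : m ≠ D.lcol k) (h2 : m ≠ D.rcol k) : RimK D S m k true := by
  have h := D.not_mark h1 h2
  refine row_flip S h1 h2 (x := false) (rim_step_back S hm (.seg m k h) ?_ ?_) true
  · rw [row_plain_mem h]
    exact List.mem_singleton.2 rfl
  · intro q' hq' hne
    rw [row_plain_mem h] at hq'
    exact absurd (List.mem_singleton.1 hq') hne

private theorem row_rot {a : ℕ} (h : a + 1 < n + 1) (h' : a < n + 1) :
    rot (⟨a, h'⟩ : Fin (n + 1)) = ⟨a + 1, h⟩ := by
  apply Fin.ext
  show (a + 1) % (n + 1) = a + 1
  exact Nat.mod_eq_of_lt h

/-- The pages between the two marks, from left to right. -/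
private theorem row_walk_right (k : Fin (n + 1))
    (h : KQ D S (.arc (D.lcol k) (!D.rend k) false)) (i : ℕ)
    (hi : (D.lcol k).val + i < (D.rcol k).val) (hn : (D.lcol k).val + i < n + 1) :
    RimK D S ⟨(D.lcol k).val + i, hn⟩ k false := by
  have hr := (D.rcol k).isLt
  induction i with
  | zero => exact row_mark S (D.row_lcol k) h
  | succ i ih =>
    have h1 := ih (by omega) (by omega)
    have h2 : rot (⟨(D.lcol k).val + i, by omega⟩ : Fin (n + 1)) =
        ⟨(D.lcol k).val + (i + 1), hn⟩ := row_rot (by omega) (by omega)
    have h3 := row_right S h1 (by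
      rw [h2]
      intro he
      have h4 := congrArg Fin.val he
      simp only at h4
      omega) (by
      rw [h2]
      intro he
      have h4 := congrArg Fin.val he
      simp only at h4
      omega)
    rw [h2] at h3
    exact h3

/-- The pages between the two marks, from right to left. -/
private theorem row_walk_left (k : Fin (n + 1))
    (h : KQ D S (.arc (D.rcol k) (D.rend k) true)) (i : ℕ)
    (hi : (D.lcol k).val < (D.rcol k).val - i) (hn : (D.rcol k).val - i < n + 1) :
    RimK D S ⟨(D.rcol k).val - i, hn⟩ k true := by
  have hr := (D.rcol k).isLt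
  induction i with
  | zero => exact row_mark S (D.row_rcol k) h
  | succ i ih =>
    have h1 := ih (by omega) (by omega)
    have h2 : rot (⟨(D.rcol k).val - (i + 1), hn⟩ : Fin (n + 1)) =
        ⟨(D.rcol k).val - i, by omega⟩ := by
      rw [row_rot (by omega) hn]
      apply Fin.ext
      show (D.rcol k).val - (i + 1) + 1 = (D.rcol k).val - i
      omega
    rw [← h2] at h1
    refine row_left S h1 ?_ ?_
    · intro he
      have h4 := congrArg Fin.val he
      simp only at h4
      omega
    · intro he
      have h4 := congrArg Fin.val he
      simp only at h4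
      omega

/-- The row is known when the two inner half meridians and the inner segments are. -/
private theorem row_all (k : Fin (n + 1))
    (h1 : KQ D S (.arc (D.lcol k) (!D.rend k) false))
    (h2 : KQ D S (.arc (D.rcol k) (D.rend k) true))
    (h3 : ∀ m, D.lcol k < m → m < D.rcol k → ∀ h : k ≠ D.sig m ∧ k ≠ D.tau m,
      KQ D S (.seg m k h)) : RowK D S k := by
  refine ⟨?_, ?_⟩
  · intro m h
    by_cases h4 : m < D.lcol k
    · exact base_seg S (Or.inl h4) h
    by_cases h5 : D.rcol k < m
    · exact base_seg S (Or.inr h5) h
    have h6 : ∀ e, D.row m e ≠ k := by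
      intro e he
      cases e
      · exact h.1 he.symm
      · exact h.2 he.symm
    have h7 : D.lcol k ≠ m := by
      intro he
      exact h6 (!D.rend k) (by rw [← he]; exact D.row_lcol k)
    have h8 : m ≠ D.rcol k := by
      intro he
      exact h6 (D.rend k) (by rw [he]; exact D.row_rcol k)
    exact h3 m (lt_of_le_of_ne (not_lt.1 h4) h7) (lt_of_le_of_ne (not_lt.1 h5) h8) h
  · intro m e hk x
    have h4 := free_arc (D := D) S m e
    rcases D.mark_cases m e with ⟨h5, h6⟩ | ⟨h5, h6⟩
    · rw [hk] at h5 h6
      have h7 : outx D m e = true := by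
        unfold outx
        rw [hk]
        exact decide_eq_true h5
      rw [h7] at h4
      cases x
      · rw [h5, h6]
        exact h1
      · exact h4
    · rw [hk] at h5 h6
      have h7 : outx D m e = false := by
        unfold outx
        rw [hk]
        exact decide_eq_false (by rw [h5]; exact ne_of_gt (D.lcol_lt k))
      rw [h7] at h4
      cases x
      · exact h4
      · rw [h5, h6]
        exact h2

theorem row_of_left (k : Fin (n + 1)) (h : KQ D S (.arc (D.lcol k) (!D.rend k) false)) :
    RowK D S k := by
  have hlr : (D.lcol k).val < (D.rcol k).val := D.lcol_lt k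
  have hr := (D.rcol k).isLt
  refine row_all S k h ?_ ?_
  · -- arrive at the right mark
    have h1 := row_walk_right S k h ((D.rcol k).val - 1 - (D.lcol k).val) (by omega) (by omega)
    have h2 : rot (⟨(D.lcol k).val + ((D.rcol k).val - 1 - (D.lcol k).val), by omega⟩ :
        Fin (n + 1)) = D.rcol k := by
      rw [row_rot (by omega) (by omega)]
      apply Fin.ext
      show (D.lcol k).val + ((D.rcol k).val - 1 - (D.lcol k).val) + 1 = (D.rcol k).val
      omega
    have h3 := rim_step S h1 (.arc (D.rcol k) (D.rend k) true) (by
      rw [h2]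
      exact row_mem_rim (D.row_rcol k)) (by
      rw [h2]
      exact row_rim_others S (D.row_rcol k))
    rw [h2] at h3
    exact row_arc_of_rim S (D.row_rcol k) h3
  · intro m hm1 hm2 h'
    have hm1' : (D.lcol k).val < m.val := hm1
    have hm2' : m.val < (D.rcol k).val := hm2
    have h1 := row_walk_right S k h (m.val - (D.lcol k).val) (by omega) (by omega)
    have h2 : (⟨(D.lcol k).val + (m.val - (D.lcol k).val), by omega⟩ : Fin (n + 1)) = m := by
      apply Fin.ext
      show (D.lcol k).val + (m.val - (D.lcol k).val) = m.val
      omega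
    rw [h2] at h1
    exact (rim_plain S h' false).1 h1

theorem row_of_right (k : Fin (n + 1)) (h : KQ D S (.arc (D.rcol k) (D.rend k) true)) :
    RowK D S k := by
  have hlr : (D.lcol k).val < (D.rcol k).val := D.lcol_lt k
  have hr := (D.rcol k).isLt
  refine row_all S k ?_ h ?_
  · -- arrive at the left mark
    have h1 := row_walk_left S k h ((D.rcol k).val - 1 - (D.lcol k).val) (by omega) (by omega)
    have h2 : (⟨(D.rcol k).val - ((D.rcol k).val - 1 - (D.lcol k).val), by omega⟩ :
        Fin (n + 1)) = rot (D.lcol k) := by
      apply Fin.ext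
      show (D.rcol k).val - ((D.rcol k).val - 1 - (D.lcol k).val) = ((D.lcol k).val + 1) % (n + 1)
      rw [Nat.mod_eq_of_lt (by omega)]
      omega
    rw [h2] at h1
    exact row_arc_of_rim S (D.row_lcol k)
      (rim_step_back S h1 (.arc (D.lcol k) (!D.rend k) false) (row_mem_rim (D.row_lcol k))
        (row_rim_others S (D.row_lcol k)))
  · intro m hm1 hm2 h'
    have hm1' : (D.lcol k).val < m.val := hm1
    have hm2' : m.val < (D.rcol k).val := hm2
    have h1 := row_walk_left S k h ((D.rcol k).val - m.val) (by omega) (by omega)
    have h2 : (⟨(D.rcol k).val - ((D.rcol k).val - m.val), by omega⟩ : Fin (n + 1)) = m := by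
      apply Fin.ext
      show (D.rcol k).val - ((D.rcol k).val - m.val) = m.val
      omega
    rw [h2] at h1
    exact (rim_plain S h' true).1 h1

theorem row_of_arcs (m : Fin (n + 1)) (e : Bool) (h : ∀ x, KQ D S (.arc m e x)) :
    RowK D S (D.row m e) := by
  obtain ⟨k, hk⟩ : ∃ k, k = D.row m e := ⟨_, rfl⟩
  rw [← hk]
  rcases D.mark_cases m e with ⟨h1, h2⟩ | ⟨h1, h2⟩
  · rw [← hk] at h1 h2
    refine row_of_left S k ?_
    rw [← h1, ← h2]
    exact h false
  · rw [← hk] at h1 h2
    refine row_of_right S k ?_
    rw [← h1, ← h2]
    exact h true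

end Pool.MP_f18604_gt.LS
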