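import Mathlib
import Pool.Agent.Helper7.LS.Row
import Pool.Agent.Helper7.LS.AxLast

/-!
# LS-09: the colouring rules

PROOFS.
`lon_of_crosses`: all facets of `page m s` except `lon m 0 s` are known: `ax k` (`all_ax`), legs (`base_leg`), `seg m k` with `side m k = s`: if
`m < lcol k` or `rcol k < m` by `base_seg`; otherwise `lcol k < m < rcol k` (a row without a mark in column `m`), so it crosses (`crosses_iff`) and `RowK` applies.
`pass`: let `e' = !e` and `x0 = outx D m e'`. The annulus `ann m 0 x0` (level 0, no twist) has the facets `lon m 0 false`, `lon m 0 true`,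
`arc m false x0`, `arc m true x0`: all known except possibly `lon m 0 (!s)`; so it is known. Then the annulus `ann m 0 (!x0)`: all known except
`arc m e' (!x0)`. So both half meridians at `e'` are known: `row_of_arcs`.
`fold`: let `x0 = outx D m true`, `j = 0 : Fin (c m)`.  The 2-cell `cap false m j x0 s` has four facets: `thick false (pt m false s)` (`thick_false`), a lift of
`lon m 0 s`, a lift of `arc m true x0` (`free_arc`), and a lift of `lon m 1 s`; so a lift of `lon m 1 s` is known, hence both (`kq_of`).  The 2-cell
`cap false m j (!x0) s` then gives a lift of `arc m true (!x0)`, hence both. So `RowK (row m true)` by `row_of_arcs`, and `pass` gives `RowK (row m false)`.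
(`j.castSucc = 0`, `j.succ = 1` in `Fin (c m + 1)`.)
-/

set_option autoImplicit false

namespace Pool.MP_f18604_gt.LS

variable {n : ℕ} {D : Diagram (n + 1)} (S : Finset (Fin (n + 1)))

theorem lon_of_crosses (m : Fin (n + 1)) (s : Bool) (h : ∀ k, D.Crosses m s k → RowK D S k) :
    KQ D S (.lon m 0 s) := by
  have hh : ∀ p ∈ (QCell.page m s : QCell D).bd false,
      (p.1 ≠ .lon m 0 s → KQ D S p.1) ∧ p.2 = false := by
    intro p hp
    simp only [QCell.bd, List.mem_append, List.mem_map, List.mem_flatMap, List.mem_cons,
      List.not_mem_nil, or_false] at hp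
    rcases hp with (⟨k, _, rfl⟩ | ⟨k, _, hk⟩) | (rfl | rfl | rfl)
    · exact ⟨fun _ => all_ax S k, rfl⟩
    · split_ifs at hk with h1 h2
      · rw [List.mem_singleton] at hk
        subst hk
        refine ⟨fun _ => ?_, rfl⟩
        by_cases h3 : D.lcol k < m ∧ m < D.rcol k
        · exact (h k ((D.crosses_iff m s k).2 ⟨h2, h3.1, h3.2⟩)).1 m h1
        · rw [not_and_or, not_lt, not_lt] at h3
          have h4 : m ≠ D.lcol k := by
            rintro rfl
            have h5 := D.row_lcol k
            rcases hb : D.rend k with _ | _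
            · rw [hb] at h5
              exact h1.2 h5.symm
            · rw [hb] at h5
              exact h1.1 h5.symm
          have h6 : m ≠ D.rcol k := by
            rintro rfl
            have h5 := D.row_rcol k
            rcases hb : D.rend k with _ | _
            · rw [hb] at h5
              exact h1.1 h5.symm
            · rw [hb] at h5
              exact h1.2 h5.symm
          refine base_seg S ?_ h1
          rcases h3 with h3 | h3
          · exact Or.inl (lt_of_le_of_ne h3 h4)
          · exact Or.inr (lt_of_le_of_ne h3 (Ne.symm h6))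
      · simp at hk
      · simp at hk
    · exact ⟨fun _ => base_leg S m false s, rfl⟩
    · exact ⟨fun _ => base_leg S m true s, rfl⟩
    · exact ⟨fun h1 => absurd rfl h1, rfl⟩
  refine kq_cell S (t := .page m s) rfl (o := false) (o' := false) ?_ (fun p hp => (hh p hp).1)
    (fun p hp _ => (hh p hp).2)
  simp [QCell.bd]

private theorem lon_other (m : Fin (n + 1)) (s x : Bool) (h : KQ D S (.lon m 0 s))
    (h1 : KQ D S (.arc m false x)) (h2 : KQ D S (.arc m true x)) : KQ D S (.lon m 0 !s) := by
  have hh : ∀ p ∈ (QCell.ann m 0 x : QCell D).bd false,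
      (p.1 ≠ .lon m 0 (!s) → KQ D S p.1) ∧ p.2 = false := by
    intro p hp
    simp only [QCell.bd, List.mem_cons, List.not_mem_nil, or_false] at hp
    rcases hp with rfl | rfl | rfl | rfl
    · refine ⟨fun h3 => ?_, rfl⟩
      cases s
      · exact h
      · exact absurd rfl h3
    · refine ⟨fun h3 => ?_, rfl⟩
      cases s
      · exact absurd rfl h3
      · exact h
    · exact ⟨fun _ => h1, rfl⟩
    · exact ⟨fun _ => h2, by simp⟩
  refine kq_cell S (t := .ann m 0 x) rfl (o := false) (o' := false) ?_ (fun p hp => (hh p hp).1)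
    (fun p hp _ => (hh p hp).2)
  cases s <;> simp [QCell.bd]

private theorem arc_other (m : Fin (n + 1)) (x e : Bool) (h : ∀ s, KQ D S (.lon m 0 s))
    (h1 : KQ D S (.arc m e x)) : KQ D S (.arc m (!e) x) := by
  have hh : ∀ p ∈ (QCell.ann m 0 x : QCell D).bd false,
      (p.1 ≠ .arc m (!e) x → KQ D S p.1) ∧ p.2 = false := by
    intro p hp
    simp only [QCell.bd, List.mem_cons, List.not_mem_nil, or_false] at hp
    rcases hp with rfl | rfl | rfl | rfl
    · exact ⟨fun _ => h false, rfl⟩
    · exact ⟨fun _ => h true, rfl⟩
    · refine ⟨fun h3 => ?_, rfl⟩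
      cases e
      · exact h1
      · exact absurd rfl h3
    · refine ⟨fun h3 => ?_, by simp⟩
      cases e
      · exact absurd rfl h3
      · exact h1
  refine kq_cell S (t := .ann m 0 x) rfl (o := false) (o' := false) ?_ (fun p hp => (hh p hp).1)
    (fun p hp _ => (hh p hp).2)
  cases e <;> simp [QCell.bd]

theorem row_pass (m : Fin (n + 1)) (s e : Bool) (h : KQ D S (.lon m 0 s))
    (h1 : RowK D S (D.row m e)) : RowK D S (D.row m !e) := by
  have hf := free_arc (D := D) S m (!e)
  have ha : ∀ x, KQ D S (.arc m e x) := fun x => h1.2 m e rfl x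
  have hl : KQ D S (.lon m 0 !s) := by
    cases e
    · exact lon_other S m s _ h (ha _) hf
    · exact lon_other S m s _ h hf (ha _)
  have hl' : ∀ s', KQ D S (.lon m 0 s') := by
    intro s'
    by_cases hs : s' = s
    · rw [hs]; exact h
    · have h3 : s' = !s := by
        cases s <;> cases s' <;> simp_all
      rw [h3]; exact hl
  exact row_of_arcs S m (!e) fun x => arc_other S m x e hl' (ha x)

/-- Percolation through a resolution disc, first form. -/
theorem cap_lon (Z : Bool) (m : Fin (n + 1)) (j : Fin (D.c m)) (x s : Bool)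
    (h0 : Kn D S (.thick Z (.pt m false s))) (h1 : KQ D S (.lon m j.castSucc s))
    (h2 : KQ D S (.arc m true x)) : KQ D S (.lon m j.succ s) := by
  refine kq_of S rfl (o := (Z ^^ x ^^ s)) (Known.cell (.cap Z m j x s) (by simp [XCell.bd]) ?_)
  intro b hb hne
  simp only [XCell.bd, List.mem_cons, List.not_mem_nil, or_false] at hb
  rcases hb with rfl | rfl | rfl | rfl
  · exact h0
  · exact h1 _
  · exact h2 _
  · exact absurd rfl hne

/-- Second form. -/
theorem cap_arc (Z : Bool) (m : Fin (n + 1)) (j : Fin (D.c m)) (x s : Bool)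
    (h0 : Kn D S (.thick Z (.pt m false s))) (h1 : KQ D S (.lon m j.castSucc s))
    (h2 : KQ D S (.lon m j.succ s)) : KQ D S (.arc m true x) := by
  refine kq_of S rfl (o := (Z ^^ x ^^ s ^^ (j.val + 1).bodd))
    (Known.cell (.cap Z m j x s) (by simp only [XCell.bd, List.mem_cons, true_or, or_true]) ?_)
  intro b hb hne
  simp only [XCell.bd, List.mem_cons, List.not_mem_nil, or_false] at hb
  rcases hb with rfl | rfl | rfl | rfl
  · exact h0
  · exact h1 _
  · exact absurd rfl hne
  · exact h2 _

/-- Third form. -/
theorem cap_thick (Z : Bool) (m : Fin (n + 1)) (j : Fin (D.c m)) (x s : Bool)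
    (h1 : KQ D S (.lon m j.castSucc s)) (h2 : KQ D S (.lon m j.succ s))
    (h3 : KQ D S (.arc m true x)) : Kn D S (.thick Z (.pt m false s)) := by
  refine Known.cell (.cap Z m j x s) (by simp only [XCell.bd, List.mem_cons, true_or]) ?_
  intro b hb hne
  simp only [XCell.bd, List.mem_cons, List.not_mem_nil, or_false] at hb
  rcases hb with rfl | rfl | rfl | rfl
  · exact absurd rfl hne
  · exact h1 _
  · exact h3 _
  · exact h2 _

theorem row_fold (m : Fin (n + 1)) (s e : Bool) (hc : 0 < D.c m) (h : KQ D S (.lon m 0 s)) :
    RowK D S (D.row m e) := by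
  obtain ⟨j, hj⟩ : ∃ j : Fin (D.c m), j = ⟨0, hc⟩ := ⟨_, rfl⟩
  have hj0 : j.castSucc = 0 := by rw [hj]; rfl
  have h0 : Kn D S (.thick false (.pt m false s)) := thick_false S _ rfl
  have h1 : KQ D S (.lon m j.castSucc s) := by rw [hj0]; exact h
  have hf := free_arc (D := D) S m true
  have h2 := cap_lon S false m j _ s h0 h1 hf
  have h3 : RowK D S (D.row m true) :=
    row_of_arcs S m true fun x => cap_arc S false m j x s h0 h1 h2
  cases e
  · exact row_pass S m s true h h3
  · exact h3

theorem row_of_coloured {k : Fin (n + 1)} (h : D.Coloured S k) : RowK D S k := by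
  induction h with
  | seed k hk => exact row_of_left S k (free_seed S k hk)
  | fold m s e hc _ ih => exact row_fold S m s e hc (lon_of_crosses S m s ih)
  | pass m s e _ _ ih1 ih2 => exact row_pass S m s e (lon_of_crosses S m s ih1) ih2

end Pool.MP_f18604_gt.LS
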