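import Mathlib
import Pool.Agent.Helper7.LS.Col

/-!
# LS-10: all edges are known

PROOF of `all_known`.  `e` has dimension 1: `e = ord q o` with `q.dim = 1`, or `e = thick Z q` with `q.dim = 0`.
* `q = ax k`: `all_ax`; `seg`, `arc`: `RowK`; `leg`: `base_leg`; `lon m j s`: induction on `j`: `j = 0` is `lon_of_crosses`, and `cap_lon` (with `Z = false`,
  `thick_false`, `x` arbitrary) goes from `j.castSucc` to `j.succ`.
* `thick false q`: `thick_false`.
* `thick true q`: `cap_thick` with `Z = true`, the column `m` with `0 < c m` and `j = 0` gives `thick true (pt m false s)`.  For every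
  vertex `q ≠ up last` of `Q`: `thick true q` is known if and only if `thick true (parV q)` is known (`thick_true` for the edge `parE q`, which joins them, both
  directions); by induction on the rank `rkQ q` (as in `parX_spec`) `thick true q` is known if and only if `thick true (up last)` is known. So all are known.
-/

set_option autoImplicit false

namespace Pool.MP_f18604_gt.LS

variable {n : ℕ} {D : Diagram (n + 1)} (S : Finset (Fin (n + 1)))

private theorem all_KQ (h : ∀ k, RowK D S k) (q : QCell D) (hq : q.dim = 1) : KQ D S q := by
  cases q with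
  | ax k => exact all_ax S k
  | seg m k hk => exact (h k).1 m hk
  | leg m e s => exact base_leg S m e s
  | arc m e x => exact (h (D.row m e)).2 m e rfl x
  | lon m j s =>
    induction j using Fin.induction with
    | zero => exact lon_of_crosses S m s (fun k _ => h k)
    | succ j ih =>
      exact cap_lon S false m j false s (thick_false S _ rfl) (ih rfl)
        ((h (D.row m true)).2 m true rfl false)
  | up k => simp [QCell.dim] at hq
  | dn k => simp [QCell.dim] at hq
  | pt m e s => simp [QCell.dim] at hq
  | page m s => simp [QCell.dim] at hq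
  | sec m k => simp [QCell.dim] at hq
  | ann m j x => simp [QCell.dim] at hq
  | disc m j => simp [QCell.dim] at hq
  | dsk κ w => simp [QCell.dim] at hq
  | chamber m => simp [QCell.dim] at hq
  | ball κ v => simp [QCell.dim] at hq

private theorem par_facts (q : QCell D) (hq : q.dim = 0) (h1 : q ≠ .up (Fin.last n)) :
    (parE q).dim = 1 ∧ (parV q).dim = 0 ∧ (q, false) ∈ (parE q).bd false ∧
      (parV q, false) ∈ (parE q).bd false ∧
      (∀ p ∈ (parE q).bd false, p.1 = q ∨ p.1 = parV q) ∧ rkQ (parV q) < rkQ q := by
  obtain ⟨a1, a2, a3⟩ := parX_spec D (.ord q false) hq (by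
    intro h
    apply h1
    simpa [root] using h)
  have b1 : (q, false) ∈ (parE q).bd false := by
    simp only [parEX, XCell.bd, List.mem_map] at a1
    obtain ⟨p, hp, hp2⟩ := a1
    injection hp2 with e1 e2
    have : p = (q, false) := Prod.ext e1 e2
    rwa [← this]
  have b2 : ∀ p ∈ (parE q).bd false, p.1 = q ∨ p.1 = parV q := by
    intro p hp
    have := a2 (.ord p.1 p.2) (by
      simp only [parEX, XCell.bd, List.mem_map]
      exact ⟨p, hp, rfl⟩)
    rcases this with h | h
    · injection h with e1 e2
      exact Or.inl e1
    · simp only [parVX] at h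
      injection h with e1 e2
      exact Or.inr e1
  have b3 : rkQ (parV q) < rkQ q := a3
  refine ⟨?_, ?_, b1, ?_, b2, b3⟩
  · cases q with
    | up k => rfl
    | dn k => rfl
    | pt m e s =>
      simp only [parE]
      split <;> rfl
    | _ => simp [QCell.dim] at hq
  · cases q with
    | up k => rfl
    | dn k => rfl
    | pt m e s =>
      simp only [parV]
      split <;> rfl
    | _ => simp [QCell.dim] at hq
  · cases q with
    | up k => simp [parE, parV, QCell.bd]
    | dn k => simp [parE, parV, QCell.bd]
    | pt m e s =>
      by_cases hs : s = e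
      · simp [parE, parV, QCell.bd, hs]
      · simp only [parE, parV, hs, if_false, QCell.bd]
        cases e <;> simp
    | _ => simp [QCell.dim] at hq

private theorem thick_step (h : ∀ k, RowK D S k) (q : QCell D) (hq : q.dim = 0)
    (h1 : q ≠ .up (Fin.last n)) :
    Kn D S (.thick true q) ↔ Kn D S (.thick true (parV q)) := by
  obtain ⟨d1, d2, b1, b2, b3, -⟩ := par_facts q hq h1
  constructor
  · intro hk
    refine thick_true S d1 (all_KQ S h _ d1) b2 (fun p hp hne => ?_)
    rcases b3 p hp with e | e
    · rw [e]
      exact hk
    · exact absurd e hne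
  · intro hk
    refine thick_true S d1 (all_KQ S h _ d1) b1 (fun p hp hne => ?_)
    rcases b3 p hp with e | e
    · exact absurd e hne
    · rw [e]
      exact hk

private theorem thick_iff (h : ∀ k, RowK D S k) : ∀ (N : ℕ) (q : QCell D), rkQ q ≤ N →
    q.dim = 0 → (Kn D S (.thick true q) ↔ Kn D S (.thick true (.up (Fin.last n)))) := by
  intro N
  induction N with
  | zero =>
    intro q hN hq
    by_cases h1 : q = .up (Fin.last n)
    · rw [h1]
    · obtain ⟨-, -, -, -, -, hr⟩ := par_facts q hq h1
      omega
  | succ N ih =>
    intro q hN hq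
    by_cases h1 : q = .up (Fin.last n)
    · rw [h1]
    · obtain ⟨-, d2, -, -, -, hr⟩ := par_facts q hq h1
      rw [thick_step S h q hq h1]
      exact ih (parV q) (by omega) d2

theorem all_known (hc : ∃ m, 0 < D.c m) (h : ∀ k, RowK D S k) (e : XCell D) (he : e.dim = 1) :
    Kn D S e := by
  cases e with
  | ord q o => exact all_KQ S h q he o
  | thick Z q =>
    have hq : q.dim = 0 := by
      simp only [XCell.dim] at he
      omega
    cases Z with
    | false => exact thick_false S q hq
    | true =>
      obtain ⟨m, hm⟩ := hc
      have h0 : Kn D S (.thick true (.pt m false false)) :=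
        cap_thick S true m ⟨0, hm⟩ false false (all_KQ S h _ rfl) (all_KQ S h _ rfl)
          (all_KQ S h _ rfl)
      have h1 := (thick_iff S h _ (.pt m false false) le_rfl rfl).1 h0
      exact (thick_iff S h _ q le_rfl hq).2 h1
  | kum m j x => simp [XCell.dim] at he
  | cap Z m j x s => simp [XCell.dim] at he
  | wall Z m j x o => simp [XCell.dim] at he
  | room Z m j x i => simp [XCell.dim] at he

end Pool.MP_f18604_gt.LS
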