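import Mathlib
import Pool.Agent.Helper7.LS.Defs

/-!
# The cells of `X(D)` are finitely many
-/

set_option autoImplicit false

namespace Pool.MP_f18604_gt.LS

instance {N : ℕ} (D : Diagram N) : Fintype D.Comp :=
  inferInstanceAs (Fintype {C : Finset (Fin N) // ∃ m, C = D.orbit m})

deriving instance Fintype for QCell

deriving instance Fintype for XCell

end Pool.MP_f18604_gt.LS
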