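import Mathlib
import Pool.Agent.Helper7.LS.DefsC

/-!
# LS-21: cyclic intervals

All by unfolding `rot`, `cyc`, `side`, `row` (`Fin.ext`, `Nat.mod_eq_of_lt`, `omega`): `rot k` is `k + 1` if `k + 1 < N` and `0` if `k + 1 = N`.
`rot_ne`: `D.ne m` gives `2 ≤ N`.
-/

set_option autoImplicit false

namespace Pool.MP_f18604_gt.LS

private theorem rot_val {N : ℕ} (k : Fin N) :
    ((rot k).val = k.val + 1 ∧ k.val + 1 < N) ∨ ((rot k).val = 0 ∧ k.val + 1 = N) := by
  have hk := k.isLt
  rcases Nat.lt_or_ge (k.val + 1) N with h | h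
  · left
    exact ⟨Nat.mod_eq_of_lt h, h⟩
  · right
    have h1 : k.val + 1 = N := by omega
    refine ⟨?_, h1⟩
    change (k.val + 1) % N = 0
    rw [h1, Nat.mod_self]

private theorem cyc_iff {N : ℕ} (a b k : Fin N) : cyc a b k = true ↔
    (a.val < b.val ∧ a.val ≤ k.val ∧ k.val < b.val) ∨
      (¬ a.val < b.val ∧ (a.val ≤ k.val ∨ k.val < b.val)) := by
  unfold cyc
  by_cases h : a < b
  · rw [if_pos h, decide_eq_true_iff]
    have h1 : a.val < b.val := h
    rw [Fin.le_def, Fin.lt_def]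
    tauto
  · rw [if_neg h, decide_eq_true_iff]
    have h1 : ¬ a.val < b.val := h
    rw [Fin.le_def, Fin.lt_def]
    tauto

private theorem bool_eq {x y : Bool} (h : x = true ↔ y = true) : x = y := by
  cases x <;> cases y <;> simp_all

theorem rot_inj {N : ℕ} {j k : Fin N} (h : rot j = rot k) : j = k := by
  have h1 := rot_val j
  have h2 := rot_val k
  have h3 := congrArg Fin.val h
  apply Fin.ext
  omega

theorem rot_surj {N : ℕ} (k : Fin N) : ∃ j, rot j = k := by
  have hk := k.isLt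
  rcases Nat.eq_zero_or_pos k.val with h | h
  · refine ⟨⟨N - 1, by omega⟩, ?_⟩
    apply Fin.ext
    have h1 := rot_val (⟨N - 1, by omega⟩ : Fin N)
    simp only at h1
    omega
  · refine ⟨⟨k.val - 1, by omega⟩, ?_⟩
    apply Fin.ext
    have h1 := rot_val (⟨k.val - 1, by omega⟩ : Fin N)
    simp only at h1
    omega

theorem rot_ne {N : ℕ} (D : Diagram N) (m : Fin N) : rot m ≠ m := by
  intro h
  have h1 := rot_val m
  have h2 := congrArg Fin.val h
  have h3 : (D.sig m).val ≠ (D.tau m).val := fun h4 => D.ne m (Fin.ext h4)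
  have h4 := (D.sig m).isLt
  have h5 := (D.tau m).isLt
  omega

theorem cyc_left {N : ℕ} {a b : Fin N} (h : a ≠ b) : cyc a b a = true := by
  have h1 : a.val ≠ b.val := fun h2 => h (Fin.ext h2)
  rw [cyc_iff]
  omega

theorem cyc_right {N : ℕ} {a b : Fin N} (h : a ≠ b) : cyc a b b = false := by
  have h1 : a.val ≠ b.val := fun h2 => h (Fin.ext h2)
  rw [Bool.eq_false_iff, Ne, cyc_iff]
  omega

theorem cyc_swap {N : ℕ} {a b : Fin N} (h : a ≠ b) (k : Fin N) : cyc b a k = !cyc a b k := by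
  have h1 : a.val ≠ b.val := fun h2 => h (Fin.ext h2)
  apply bool_eq
  rw [Bool.not_eq_true', Bool.eq_false_iff, Ne, cyc_iff, cyc_iff]
  omega

theorem cyc_rot {N : ℕ} {a b k : Fin N} (h : a ≠ b) (h1 : rot k ≠ a) (h2 : rot k ≠ b) :
    cyc a b (rot k) = cyc a b k := by
  have h3 : a.val ≠ b.val := fun h2 => h (Fin.ext h2)
  have h4 : (rot k).val ≠ a.val := fun h2 => h1 (Fin.ext h2)
  have h5 : (rot k).val ≠ b.val := fun h1 => h2 (Fin.ext h1)
  have h6 := rot_val k
  have h7 := a.isLt
  have h8 := b.isLt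
  apply bool_eq
  rw [cyc_iff, cyc_iff]
  omega

theorem cyc_pred_left {N : ℕ} {a b k : Fin N} (h : a ≠ b) (hk : rot k = a) : cyc a b k = false := by
  have h3 : a.val ≠ b.val := fun h2 => h (Fin.ext h2)
  have h4 : (rot k).val = a.val := congrArg Fin.val hk
  have h6 := rot_val k
  have h7 := a.isLt
  have h8 := b.isLt
  rw [Bool.eq_false_iff, Ne, cyc_iff]
  omega

theorem cyc_pred_right {N : ℕ} {a b k : Fin N} (h : a ≠ b) (hk : rot k = b) : cyc a b k = true := by
  have h3 : a.val ≠ b.val := fun h2 => h (Fin.ext h2)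
  have h4 : (rot k).val = b.val := congrArg Fin.val hk
  have h6 := rot_val k
  have h7 := a.isLt
  have h8 := b.isLt
  rw [cyc_iff]
  omega

theorem side_row {N : ℕ} (D : Diagram N) (m : Fin N) (e : Bool) : D.side m (D.row m e) = e := by
  unfold Diagram.side Diagram.row
  cases e
  · simp [cyc_left (D.ne m)]
  · simp [cyc_right (D.ne m)]

theorem side_pred {N : ℕ} (D : Diagram N) {m k : Fin N} {e : Bool} (h : rot k = D.row m e) :
    D.side m k = !e := by
  unfold Diagram.side
  unfold Diagram.row at h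
  cases e
  · simp only [Bool.false_eq_true, if_false] at h
    rw [cyc_pred_left (D.ne m) h]
  · simp only [if_true] at h
    rw [cyc_pred_right (D.ne m) h]

theorem side_rot {N : ℕ} (D : Diagram N) {m k : Fin N} (h1 : rot k ≠ D.sig m)
    (h2 : rot k ≠ D.tau m) : D.side m (rot k) = D.side m k := by
  unfold Diagram.side
  rw [cyc_rot (D.ne m) h1 h2]

end Pool.MP_f18604_gt.LS
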