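import Mathlib
import Pool.Agent.Helper7.LS.DefsC

/-!
# LS-22: the components

`mem_orbit`: `orbit m` is the image of `range N` under `i ↦ next^[i] m`; the sequence `next^[i] m` is periodic with a period at most `N` (pigeonhole:
two of `next^[0] m, ..., next^[N] m` are equal and `next` is injective), so every `next^[i] m` is in the orbit.  The others follow: `next` is a permutation of a finite set, so
`next^[i] m = m` for some `i > 0`.
-/

set_option autoImplicit false

namespace Pool.MP_f18604_gt.LS

variable {N : ℕ} {D : Diagram N}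

theorem mem_orbit {m m' : Fin N} : m' ∈ D.orbit m ↔ ∃ i : ℕ, D.next^[i] m = m' := by
  unfold Diagram.orbit
  rw [Finset.mem_image]
  constructor
  · rintro ⟨i, _, h⟩
    exact ⟨i, h⟩
  · rintro ⟨i, h⟩
    have hp : 0 < Function.minimalPeriod (D.next : Fin N → Fin N) m :=
      Function.minimalPeriod_pos_of_mem_periodicPts
        (Function.Injective.mem_periodicPts D.next.injective m)
    have hN : Function.minimalPeriod (D.next : Fin N → Fin N) m ≤ N := by
      have h1 := Function.minimalPeriod_le_card (f := (D.next : Fin N → Fin N)) (x := m)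
      rwa [Fintype.card_fin] at h1
    refine ⟨i % Function.minimalPeriod (D.next : Fin N → Fin N) m, ?_, ?_⟩
    · rw [Finset.mem_range]
      exact (Nat.mod_lt _ hp).trans_le hN
    · rw [Function.iterate_mod_minimalPeriod_eq]
      exact h

theorem self_mem_orbit (m : Fin N) : m ∈ D.orbit m := mem_orbit.2 ⟨0, rfl⟩

theorem orbit_eq {m m' : Fin N} (h : m' ∈ D.orbit m) : D.orbit m' = D.orbit m := by
  obtain ⟨i, rfl⟩ := mem_orbit.1 h
  have hback : ∃ k : ℕ, (D.next : Fin N → Fin N)^[k] ((D.next : Fin N → Fin N)^[i] m) = m := by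
    have hp : 0 < Function.minimalPeriod (D.next : Fin N → Fin N) m :=
      Function.minimalPeriod_pos_of_mem_periodicPts
        (Function.Injective.mem_periodicPts D.next.injective m)
    refine ⟨Function.minimalPeriod (D.next : Fin N → Fin N) m * (i + 1) - i, ?_⟩
    rw [← Function.iterate_add_apply]
    have h1 : i ≤ Function.minimalPeriod (D.next : Fin N → Fin N) m * (i + 1) := by
      nlinarith
    rw [Nat.sub_add_cancel h1]
    exact (Function.isPeriodicPt_minimalPeriod (D.next : Fin N → Fin N) m).mul_const (i + 1)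
  obtain ⟨k, hk⟩ := hback
  ext z
  rw [mem_orbit, mem_orbit]
  constructor
  · rintro ⟨j, rfl⟩
    exact ⟨j + i, by rw [Function.iterate_add_apply]⟩
  · rintro ⟨j, rfl⟩
    exact ⟨j + k, by rw [Function.iterate_add_apply, hk]⟩

theorem next_mem (κ : D.Comp) (m : Fin N) : D.next m ∈ κ.1 ↔ m ∈ κ.1 := by
  obtain ⟨C, m0, rfl⟩ := κ
  show D.next m ∈ D.orbit m0 ↔ m ∈ D.orbit m0
  have h1 : D.next m ∈ D.orbit m := mem_orbit.2 ⟨1, rfl⟩
  constructor
  · intro h
    rw [← orbit_eq h, orbit_eq h1]
    exact self_mem_orbit m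
  · intro h
    rw [← orbit_eq h]
    exact h1

/-- The component of a column. -/
def compOf (D : Diagram N) (m : Fin N) : D.Comp := ⟨D.orbit m, m, rfl⟩

theorem mem_compOf (m : Fin N) : m ∈ (compOf D m).1 := self_mem_orbit m

theorem comp_unique {κ : D.Comp} {m : Fin N} (h : m ∈ κ.1) : κ = compOf D m := by
  obtain ⟨C, m0, rfl⟩ := κ
  exact Subtype.ext (orbit_eq h).symm

theorem next_ne (m : Fin N) : D.next m ≠ m := by
  intro h
  have h1 : D.sig.symm (D.tau m) = m := h
  rw [Equiv.symm_apply_eq] at h1
  exact D.ne m h1.symm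

theorem sig_next (m : Fin N) : D.sig (D.next m) = D.tau m :=
  D.sig.apply_symm_apply (D.tau m)

end Pool.MP_f18604_gt.LS
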