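import Mathlib
import Pool.Agent.Helper7.LS.Cyc
import Pool.Agent.Helper7.LS.Orb

/-!
# LS-36: 3-cells in exactly two 4-cells, first part

A cell `thick Z q` with `q` of dimension 2 is a facet of `thick Z t` for the `t` with `q ∈ (t.bd false).map fst`, and of rooms if `q` is `ann` or `disc`.
* `page m s`: `chamber m` and `chamber m0` with `rot m0 = m` (`rot_surj`, `rot_inj`, `rot_ne`);
* `sec m k`: `chamber m`, and `ball κ v`: let `k = tau l`; then `κ = compOf l` (`comp_unique`) and `v` is determined by `m ∈ I l` (see `DiaBall`; `cyc_swap`, `next_ne`);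
* `dsk κ w`: `ball κ false`, `ball κ true`;
* `ord (chamber m) o`, `ord (ball κ v) o`: only `thick false _`, `thick true _` (a 3-cell `ord q o` is a facet of `ord q' o'` for no `q'`, as `q'.dim ≤ 3`).
-/

set_option autoImplicit false

namespace Pool.MP_f18604_gt.LS

variable {N : ℕ} {D : Diagram N}

theorem thick_mem_thick {Z Z' : Bool} {q q' : QCell D} :
    XCell.thick Z q ∈ (XCell.thick Z' q').bd ↔ Z' = Z ∧ ∃ o, (q, o) ∈ q'.bd false := by
  simp only [XCell.bd, List.mem_cons, List.mem_map, reduceCtorEq, false_or, XCell.thick.injEq, Prod.exists]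
  constructor
  · rintro ⟨a, o, h, h1, rfl⟩
    exact ⟨h1, o, h⟩
  · rintro ⟨h1, o, h⟩
    exact ⟨q, o, h, h1, rfl⟩

/-- The cells of `X(D)` which have a facet `thick Z (page m s)`. -/
theorem thick_page_mem {Z : Bool} {m : Fin N} {s : Bool} {t : XCell D} :
    XCell.thick Z (.page m s) ∈ t.bd ↔
      ∃ q : QCell D, t = .thick Z q ∧ ∃ o, (QCell.page m s, o) ∈ q.bd false := by
  cases t with
  | thick Z' q =>
    rw [thick_mem_thick]
    constructor
    · rintro ⟨rfl, h⟩
      exact ⟨q, rfl, h⟩
    · rintro ⟨q', h1, h⟩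
      cases h1
      exact ⟨rfl, h⟩
  | room Z m j x i => cases i <;> simp [XCell.bd]
  | _ => simp [XCell.bd]

/-- The cells of `X(D)` which have a facet `thick Z (sec m k)`. -/
theorem thick_sec_mem {Z : Bool} {m k : Fin N} {t : XCell D} :
    XCell.thick Z (.sec m k) ∈ t.bd ↔
      ∃ q : QCell D, t = .thick Z q ∧ ∃ o, (QCell.sec m k, o) ∈ q.bd false := by
  cases t with
  | thick Z' q =>
    rw [thick_mem_thick]
    constructor
    · rintro ⟨rfl, h⟩
      exact ⟨q, rfl, h⟩
    · rintro ⟨q', h1, h⟩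
      cases h1
      exact ⟨rfl, h⟩
  | room Z m j x i => cases i <;> simp [XCell.bd]
  | _ => simp [XCell.bd]

/-- The cells of `X(D)` which have a facet `thick Z (dsk κ w)`. -/
theorem thick_dsk_mem {Z : Bool} {κ : D.Comp} {w : Bool} {t : XCell D} :
    XCell.thick Z (.dsk κ w) ∈ t.bd ↔
      ∃ q : QCell D, t = .thick Z q ∧ ∃ o, (QCell.dsk κ w, o) ∈ q.bd false := by
  cases t with
  | thick Z' q =>
    rw [thick_mem_thick]
    constructor
    · rintro ⟨rfl, h⟩
      exact ⟨q, rfl, h⟩
    · rintro ⟨q', h1, h⟩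
      cases h1
      exact ⟨rfl, h⟩
  | room Z m j x i => cases i <;> simp [XCell.bd]
  | _ => simp [XCell.bd]

theorem not_mem_rim_page {m k l : Fin N} {x s : Bool} : (QCell.page l s : QCell D) ∉ QCell.rim m k x := by
  unfold QCell.rim
  split_ifs <;> simp

theorem not_mem_rim_sec {m k l j : Fin N} {x : Bool} : (QCell.sec l j : QCell D) ∉ QCell.rim m k x := by
  unfold QCell.rim
  split_ifs <;> simp

theorem not_mem_rim_dsk {m k : Fin N} {κ : D.Comp} {x w : Bool} : (QCell.dsk κ w : QCell D) ∉ QCell.rim m k x := by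
  unfold QCell.rim
  split_ifs <;> simp

theorem not_mem_rim_chamber {m k l : Fin N} {x : Bool} :
    (QCell.chamber l : QCell D) ∉ QCell.rim m k x := by
  unfold QCell.rim
  split_ifs <;> simp

theorem not_mem_rim_ball {m k : Fin N} {κ : D.Comp} {x v : Bool} :
    (QCell.ball κ v : QCell D) ∉ QCell.rim m k x := by
  unfold QCell.rim
  split_ifs <;> simp

theorem page_mem {m : Fin N} {s o : Bool} {q : QCell D} :
    (QCell.page m s, o) ∈ q.bd false ↔ ∃ l, q = .chamber l ∧ (l = m ∨ rot l = m) ∧ o = false := by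
  cases q with
  | chamber l => cases s <;> cases o <;> simp [QCell.bd, eq_comm]
  | sec l k => simp [QCell.bd, not_mem_rim_page]
  | page l s' => simp [QCell.bd]
  | leg l e s' => simp only [QCell.bd]; split_ifs <;> simp
  | _ => simp [QCell.bd]

theorem sec_mem {m k : Fin N} {q : QCell D} :
    (∃ o, (QCell.sec m k, o) ∈ q.bd false) ↔ q = .chamber m ∨
      ∃ κ v, q = .ball κ v ∧ D.tau.symm k ∈ κ.1 ∧
        ((v ^^ D.eps (D.tau.symm k)) ^^ cyc (D.tau.symm k) (D.next (D.tau.symm k)) m) = true := by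
  cases q with
  | chamber l => simp [QCell.bd]
  | sec l k => simp [QCell.bd, not_mem_rim_sec]
  | page l s' => simp [QCell.bd]
  | leg l e s' => simp only [QCell.bd]; split_ifs <;> simp
  | ball κ v =>
    simp only [QCell.bd, List.mem_append, List.mem_cons, List.mem_flatMap, List.mem_filter, List.mem_finRange,
      List.mem_map, Prod.mk.injEq, reduceCtorEq, false_and, QCell.sec.injEq, List.not_mem_nil, or_false, false_or,
      true_and, decide_eq_true_eq, QCell.ball.injEq]
    constructor
    · rintro ⟨o, l, hl, n, hn, ⟨rfl, rfl⟩, -⟩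
      refine ⟨κ, v, ⟨rfl, rfl⟩, ?_, ?_⟩
      · rwa [Equiv.symm_apply_apply]
      · rw [Equiv.symm_apply_apply]
        revert hn
        cases v ^^ D.eps l
        · simp
        · rw [cyc_swap (next_ne l).symm]
          simp
    · rintro ⟨κ', v', ⟨rfl, rfl⟩, h1, h2⟩
      refine ⟨_, D.tau.symm k, h1, m, ?_, ⟨rfl, by simp⟩, rfl⟩
      revert h2
      cases v ^^ D.eps (D.tau.symm k)
      · simp
      · rw [cyc_swap (next_ne (D.tau.symm k)).symm]
        simp
  | _ => simp [QCell.bd]

theorem dsk_mem {κ : D.Comp} {w o : Bool} {q : QCell D} :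
    (QCell.dsk κ w, o) ∈ q.bd false ↔ ∃ v, q = .ball κ v ∧ o = false := by
  cases q with
  | chamber l => simp [QCell.bd]
  | sec l k => simp [QCell.bd, not_mem_rim_dsk]
  | page l s' => simp [QCell.bd]
  | leg l e s' => simp only [QCell.bd]; split_ifs <;> simp
  | ball κ' v => cases w <;> simp [QCell.bd, eq_comm (a := κ)]
  | _ => simp [QCell.bd]

theorem chamber_mem {m : Fin N} {o o' : Bool} {q : QCell D} :
    ¬ (QCell.chamber m, o) ∈ q.bd o' := by
  cases q with
  | chamber l => simp [QCell.bd]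
  | sec l k => simp [QCell.bd, not_mem_rim_chamber]
  | page l s' => simp [QCell.bd]
  | leg l e s' => simp only [QCell.bd]; split_ifs <;> simp
  | _ => simp [QCell.bd]

theorem ball_mem {κ : D.Comp} {v o o' : Bool} {q : QCell D} :
    ¬ (QCell.ball κ v, o) ∈ q.bd o' := by
  cases q with
  | chamber l => simp [QCell.bd]
  | sec l k => simp [QCell.bd, not_mem_rim_ball]
  | page l s' => simp [QCell.bd]
  | leg l e s' => simp only [QCell.bd]; split_ifs <;> simp
  | _ => simp [QCell.bd]

/-- The cells of `X(D)` which have a facet `ord (chamber m) o`. -/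
theorem ord_chamber_mem {m : Fin N} {o : Bool} {t : XCell D} :
    XCell.ord (.chamber m) o ∈ t.bd ↔
      t = .thick false (.chamber m) ∨ t = .thick true (.chamber m) := by
  cases t with
  | ord q o' => simp [XCell.bd, chamber_mem]
  | thick Z q => cases Z <;> cases o <;> simp [XCell.bd, eq_comm]
  | room Z m j x i => cases i <;> simp [XCell.bd]
  | _ => simp [XCell.bd]

/-- The cells of `X(D)` which have a facet `ord (ball κ v) o`. -/
theorem ord_ball_mem {κ : D.Comp} {v o : Bool} {t : XCell D} :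
    XCell.ord (.ball κ v) o ∈ t.bd ↔
      t = .thick false (.ball κ v) ∨ t = .thick true (.ball κ v) := by
  cases t with
  | ord q o' => simp [XCell.bd, ball_mem]
  | thick Z q => cases Z <;> cases o <;> simp [XCell.bd, eq_comm]
  | room Z m j x i => cases i <;> simp [XCell.bd]
  | _ => simp [XCell.bd]

theorem cof_page (Z : Bool) (m : Fin N) (s : Bool) :
    Two fun t : XCell D => XCell.thick Z (.page m s) ∈ t.bd := by
  obtain ⟨m0, rfl⟩ := rot_surj m
  refine ⟨.thick Z (.chamber (rot m0)), .thick Z (.chamber m0), ?_, fun t => ?_⟩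
  · intro h
    simp only [XCell.thick.injEq, QCell.chamber.injEq, true_and] at h
    exact rot_ne D m0 h
  · beta_reduce
    rw [thick_page_mem]
    simp only [page_mem]
    constructor
    · rintro ⟨q, rfl, o, l, rfl, h | h, rfl⟩
      · exact Or.inl (by rw [h])
      · exact Or.inr (by rw [rot_inj h])
    · rintro (rfl | rfl)
      · exact ⟨_, rfl, false, _, rfl, Or.inl rfl, rfl⟩
      · exact ⟨_, rfl, false, _, rfl, Or.inr rfl, rfl⟩

theorem cof_sec (Z : Bool) (m k : Fin N) :
    Two fun t : XCell D => XCell.thick Z (.sec m k) ∈ t.bd := by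
  refine ⟨.thick Z (.chamber m), .thick Z (.ball (compOf D (D.tau.symm k))
    !(D.eps (D.tau.symm k) ^^ cyc (D.tau.symm k) (D.next (D.tau.symm k)) m)), by simp, fun t => ?_⟩
  beta_reduce
  rw [thick_sec_mem]
  simp only [sec_mem]
  constructor
  · rintro ⟨q, rfl, rfl | ⟨κ, v, rfl, h1, h2⟩⟩
    · exact Or.inl rfl
    · right
      rw [comp_unique h1]
      revert h2
      cases v <;> cases D.eps (D.tau.symm k) <;>
        cases cyc (D.tau.symm k) (D.next (D.tau.symm k)) m <;> simp
  · rintro (rfl | rfl)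
    · exact ⟨_, rfl, Or.inl rfl⟩
    · refine ⟨_, rfl, Or.inr ⟨_, _, rfl, mem_compOf _, ?_⟩⟩
      cases D.eps (D.tau.symm k) <;>
        cases cyc (D.tau.symm k) (D.next (D.tau.symm k)) m <;> simp

theorem cof_dsk (Z : Bool) (κ : D.Comp) (w : Bool) :
    Two fun t : XCell D => XCell.thick Z (.dsk κ w) ∈ t.bd := by
  refine ⟨.thick Z (.ball κ false), .thick Z (.ball κ true), by simp, fun t => ?_⟩
  beta_reduce
  rw [thick_dsk_mem]
  simp only [dsk_mem]
  constructor
  · rintro ⟨q, rfl, o, v, rfl, rfl⟩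
    cases v
    · exact Or.inl rfl
    · exact Or.inr rfl
  · rintro (rfl | rfl)
    · exact ⟨_, rfl, false, _, rfl, rfl⟩
    · exact ⟨_, rfl, false, _, rfl, rfl⟩

theorem cof_chamber (m : Fin N) (o : Bool) :
    Two fun t : XCell D => XCell.ord (.chamber m) o ∈ t.bd :=
  ⟨_, _, by simp, fun _ => ord_chamber_mem⟩

theorem cof_ball (κ : D.Comp) (v o : Bool) :
    Two fun t : XCell D => XCell.ord (.ball κ v) o ∈ t.bd :=
  ⟨_, _, by simp, fun _ => ord_ball_mem⟩

end Pool.MP_f18604_gt.LS
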