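import Mathlib
import Pool.Agent.Helper7.LS.Cyc
import Pool.Agent.Helper7.LS.Orb

/-!
# LS-37: 3-cells in exactly two 4-cells, second part

* `thick Z (ann m j x)`, `j : Fin (c m + 1)`: the outer side is `thick Z (chamber m)` (`j = 0`, `x = false`), `thick Z (chamber m0)`, `rot m0 = m` (`j = 0`, `x = true`), or the room
  `room Z m j' x true` with `j'.succ = j` (`j > 0`); the inner side is the room `room Z m j' x true` with `j'.castSucc = j` if `j < c m`, and `thick Z (ball (compOf m) (x ^^ eps m))` if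
  `j = last` (`comp_unique`).
* `thick Z (disc m j)`: `room Z m j false false`, `room Z m j true false`;
* `kum m j x`: `room false m j x false`, `room true m j x false`;
* `wall Z m j x o`: `room Z m j x false`, `room Z m j x true`.
-/

set_option autoImplicit false

namespace Pool.MP_f18604_gt.LS

variable {N : ℕ} {D : Diagram N}

private lemma c2_rim {m k : Fin N} {x : Bool} {q : QCell D} (hq : q ∈ QCell.rim (D := D) m k x) :
    q.dim = 1 := by
  unfold QCell.rim at hq
  split_ifs at hq <;> simp only [List.mem_cons, List.not_mem_nil, or_false] at hq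
  · rcases hq with rfl | rfl | rfl <;> rfl
  · rcases hq with rfl | rfl | rfl <;> rfl
  · rw [hq]
    rfl

private lemma c2_chamber {m m' : Fin N} {j : Fin (D.c m + 1)} {x : Bool} :
    (∃ b, (QCell.ann m j x, b) ∈ (QCell.chamber m' : QCell D).bd false) ↔
      (m' = m ∧ j.val = 0 ∧ x = false) ∨ (rot m' = m ∧ j.val = 0 ∧ x = true) := by
  constructor
  · rintro ⟨b, hb⟩
    simp only [QCell.bd, List.mem_append, List.mem_cons, List.mem_map, Prod.mk.injEq,
      List.not_mem_nil, or_false, reduceCtorEq, false_and, false_or, and_false, exists_false] at hb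
    rcases hb with ⟨h, -⟩ | ⟨h, -⟩
    · cases h
      exact Or.inl ⟨rfl, rfl, rfl⟩
    · cases h
      exact Or.inr ⟨rfl, rfl, rfl⟩
  · rintro (⟨rfl, hj, rfl⟩ | ⟨rfl, hj, rfl⟩)
    · have : j = 0 := Fin.ext hj
      subst this
      exact ⟨false, by simp [QCell.bd]⟩
    · have : j = 0 := Fin.ext hj
      subst this
      exact ⟨false, by simp [QCell.bd]⟩

private lemma c2_ball {m : Fin N} {j : Fin (D.c m + 1)} {x : Bool} {κ : D.Comp} {v : Bool} :
    (∃ b, (QCell.ann m j x, b) ∈ (QCell.ball κ v : QCell D).bd false) ↔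
      m ∈ κ.1 ∧ j.val = D.c m ∧ x = (v ^^ D.eps m) := by
  constructor
  · rintro ⟨b, hb⟩
    simp only [QCell.bd, List.mem_append, List.mem_cons, List.mem_map, List.mem_flatMap,
      List.mem_filter, Prod.mk.injEq, List.not_mem_nil, or_false, reduceCtorEq, false_and,
      false_or, and_false, exists_false, decide_eq_true_eq] at hb
    obtain ⟨m0, ⟨-, hm0⟩, h, -⟩ := hb
    cases h
    exact ⟨hm0, rfl, rfl⟩
  · rintro ⟨hm, hj, rfl⟩
    have : j = Fin.last _ := Fin.ext hj
    subst this
    refine ⟨false ^^ D.del m, ?_⟩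
    simp only [QCell.bd, List.mem_append, List.mem_flatMap]
    refine Or.inr ⟨m, ?_, List.mem_cons_self⟩
    simp [hm]

private lemma c2_thick {Z : Bool} {m : Fin N} {j : Fin (D.c m + 1)} {x : Bool} {Z' : Bool}
    {q : QCell D} : XCell.thick Z (.ann m j x) ∈ (XCell.thick Z' q).bd ↔
      Z' = Z ∧ ∃ b, (QCell.ann m j x, b) ∈ q.bd false := by
  simp only [XCell.bd, List.mem_cons, List.mem_map, reduceCtorEq, false_or, XCell.thick.injEq]
  constructor
  · rintro ⟨⟨q', b⟩, hb, rfl, h⟩
    change q' = _ at h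
    subst h
    exact ⟨rfl, b, hb⟩
  · rintro ⟨rfl, b, hb⟩
    exact ⟨_, hb, rfl, rfl⟩

/-- The cells with `thick Z (ann m j x)` as a facet. -/
private lemma c2_iff {Z : Bool} {m : Fin N} {j : Fin (D.c m + 1)} {x : Bool} (t : XCell D) :
    XCell.thick Z (.ann m j x) ∈ t.bd ↔
      ((∃ m', t = .thick Z (.chamber m') ∧
          ((m' = m ∧ j.val = 0 ∧ x = false) ∨ (rot m' = m ∧ j.val = 0 ∧ x = true))) ∨
        ∃ i : Fin (D.c m), t = .room Z m i x true ∧ j = i.succ) ∨
      ((∃ κ v, t = .thick Z (.ball κ v) ∧ m ∈ κ.1 ∧ j.val = D.c m ∧ x = (v ^^ D.eps m)) ∨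
        ∃ i : Fin (D.c m), t = .room Z m i x true ∧ j = i.castSucc) := by
  cases t with
  | ord q o => simp [XCell.bd]
  | kum m' j' x' => simp [XCell.bd]
  | cap Z' m' j' x' s => simp [XCell.bd]
  | wall Z' m' j' x' o => simp [XCell.bd]
  | thick Z' q =>
    rw [c2_thick]
    cases q with
    | chamber m' =>
      rw [c2_chamber]
      simp only [XCell.thick.injEq, QCell.chamber.injEq, reduceCtorEq, and_false, false_and,
        exists_false, or_false]
      constructor
      · rintro ⟨rfl, h⟩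
        exact ⟨m', ⟨rfl, rfl⟩, h⟩
      · rintro ⟨m'', ⟨rfl, rfl⟩, h⟩
        exact ⟨rfl, h⟩
    | ball κ v =>
      rw [c2_ball]
      simp only [XCell.thick.injEq, QCell.ball.injEq, reduceCtorEq, and_false, false_and,
        exists_false, or_false, false_or]
      constructor
      · rintro ⟨rfl, h⟩
        exact ⟨κ, v, ⟨rfl, rfl, rfl⟩, h⟩
      · rintro ⟨κ', v', ⟨rfl, rfl, rfl⟩, h⟩
        exact ⟨rfl, h⟩
    | leg m' e s =>
      simp only [QCell.bd]
      split_ifs <;> simp
    | sec m' k =>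
      have h1 : ∀ b, (QCell.ann m j x, b) ∉ (QCell.sec m' k : QCell D).bd false := by
        intro b hb
        simp only [QCell.bd, List.mem_map, List.mem_append, Prod.mk.injEq] at hb
        obtain ⟨q, hq | hq, h, -⟩ := hb
        · have h2 := c2_rim hq
          rw [h] at h2
          exact absurd (show (2 : ℕ) = 1 from h2) (by decide)
        · have h2 := c2_rim hq
          rw [h] at h2
          exact absurd (show (2 : ℕ) = 1 from h2) (by decide)
      simp [h1]
    | _ => simp [QCell.bd]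
  | room Z' m' j' x' i =>
    cases i with
    | false => simp [XCell.bd]
    | true =>
      simp only [XCell.bd, if_true, List.mem_append, List.mem_cons, List.not_mem_nil, or_false,
        reduceCtorEq, false_or, false_and, exists_false, XCell.thick.injEq, QCell.ann.injEq,
        XCell.room.injEq, and_true]
      constructor
      · rintro (⟨rfl, rfl, hj, rfl⟩ | ⟨rfl, rfl, hj, rfl⟩)
        · exact Or.inr ⟨j', ⟨rfl, rfl, HEq.rfl, rfl⟩, eq_of_heq hj⟩
        · exact Or.inl ⟨j', ⟨rfl, rfl, HEq.rfl, rfl⟩, eq_of_heq hj⟩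
      · rintro (⟨i, ⟨rfl, rfl, hj, rfl⟩, h⟩ | ⟨i, ⟨rfl, rfl, hj, rfl⟩, h⟩)
        · obtain rfl := eq_of_heq hj
          subst h
          exact Or.inr ⟨rfl, rfl, HEq.rfl, rfl⟩
        · obtain rfl := eq_of_heq hj
          subst h
          exact Or.inl ⟨rfl, rfl, HEq.rfl, rfl⟩

theorem cof_ann (Z : Bool) (m : Fin N) (j : Fin (D.c m + 1)) (x : Bool) :
    Two fun t : XCell D => XCell.thick Z (.ann m j x) ∈ t.bd := by
  obtain ⟨a, ha⟩ : ∃ a : XCell D, ∀ t : XCell D,
      ((∃ m', t = .thick Z (.chamber m') ∧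
          ((m' = m ∧ j.val = 0 ∧ x = false) ∨ (rot m' = m ∧ j.val = 0 ∧ x = true))) ∨
        ∃ i : Fin (D.c m), t = .room Z m i x true ∧ j = i.succ) ↔ t = a := by
    by_cases hj : j = 0
    · have hs : ∀ i : Fin (D.c m), j ≠ i.succ := fun i h => Fin.succ_ne_zero i (h.symm.trans hj)
      have hj0 : j.val = 0 := by rw [hj]; rfl
      cases x with
      | false =>
        refine ⟨.thick Z (.chamber m), fun t => ⟨?_, ?_⟩⟩
        · rintro (⟨m', rfl, ⟨rfl, -, -⟩ | ⟨-, -, h⟩⟩ | ⟨i, -, h⟩)
          · rfl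
          · exact absurd h (by decide)
          · exact absurd h (hs i)
        · rintro rfl
          exact Or.inl ⟨m, rfl, Or.inl ⟨rfl, hj0, rfl⟩⟩
      | true =>
        obtain ⟨m0, hm0⟩ := rot_surj m
        refine ⟨.thick Z (.chamber m0), fun t => ⟨?_, ?_⟩⟩
        · rintro (⟨m', rfl, ⟨-, -, h⟩ | ⟨h, -, -⟩⟩ | ⟨i, -, h⟩)
          · exact absurd h (by decide)
          · rw [rot_inj (h.trans hm0.symm)]
          · exact absurd h (hs i)
        · rintro rfl
          exact Or.inl ⟨m0, rfl, Or.inr ⟨hm0, hj0, rfl⟩⟩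
    · obtain ⟨i, hi⟩ := Fin.exists_succ_eq.2 hj
      have hj0 : j.val ≠ 0 := fun h => hj (Fin.ext h)
      refine ⟨.room Z m i x true, fun t => ⟨?_, ?_⟩⟩
      · rintro (⟨m', -, ⟨-, h, -⟩ | ⟨-, h, -⟩⟩ | ⟨i', rfl, h⟩)
        · exact absurd h hj0
        · exact absurd h hj0
        · rw [Fin.succ_injective _ (hi.trans h)]
      · rintro rfl
        exact Or.inr ⟨i, rfl, hi.symm⟩
  obtain ⟨b, hb⟩ : ∃ b : XCell D, ∀ t : XCell D,
      ((∃ κ v, t = .thick Z (.ball κ v) ∧ m ∈ κ.1 ∧ j.val = D.c m ∧ x = (v ^^ D.eps m)) ∨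
        ∃ i : Fin (D.c m), t = .room Z m i x true ∧ j = i.castSucc) ↔ t = b := by
    by_cases hj : j = Fin.last _
    · have hs : ∀ i : Fin (D.c m), j ≠ i.castSucc := fun i h =>
        Fin.castSucc_ne_last i (h.symm.trans hj)
      have hj0 : j.val = D.c m := by rw [hj]; rfl
      refine ⟨.thick Z (.ball (compOf D m) (x ^^ D.eps m)), fun t => ⟨?_, ?_⟩⟩
      · rintro (⟨κ, v, rfl, hκ, -, h⟩ | ⟨i, -, h⟩)
        · rw [comp_unique hκ, h, Bool.xor_assoc, Bool.xor_self, Bool.xor_false]
        · exact absurd h (hs i)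
      · rintro rfl
        refine Or.inl ⟨_, _, rfl, mem_compOf m, hj0, ?_⟩
        rw [Bool.xor_assoc, Bool.xor_self, Bool.xor_false]
    · obtain ⟨i, hi⟩ := Fin.exists_castSucc_eq.2 hj
      have hj0 : j.val ≠ D.c m := fun h => hj (Fin.ext h)
      refine ⟨.room Z m i x true, fun t => ⟨?_, ?_⟩⟩
      · rintro (⟨κ, v, -, -, h, -⟩ | ⟨i', rfl, h⟩)
        · exact absurd h hj0
        · rw [Fin.castSucc_injective _ (hi.trans h)]
      · rintro rfl
        exact Or.inr ⟨i, rfl, hi.symm⟩
  refine ⟨a, b, ?_, fun t => ?_⟩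
  · intro hab
    have h1 := (ha a).2 rfl
    have h2 := (hb a).2 hab
    rcases h1 with ⟨m', h1, -⟩ | ⟨i, h1, h1'⟩ <;> rcases h2 with ⟨κ, v, h2, -⟩ | ⟨i', h2, h2'⟩
    · rw [h1] at h2
      cases h2
    · rw [h1] at h2
      cases h2
    · rw [h1] at h2
      cases h2
    · rw [h1] at h2
      cases h2
      have h3 := congrArg Fin.val (h1'.symm.trans h2')
      rw [Fin.val_succ, Fin.val_castSucc] at h3
      omega
  · exact (c2_iff t).trans (or_congr (ha t) (hb t))

theorem cof_disc (Z : Bool) (m : Fin N) (j : Fin (D.c m)) :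
    Two fun t : XCell D => XCell.thick Z (.disc m j) ∈ t.bd := by
  refine ⟨.room Z m j false false, .room Z m j true false, by simp, fun t => ?_⟩
  cases t with
  | ord q o => simp [XCell.bd]
  | kum m' j' x => simp [XCell.bd]
  | thick Z' q =>
    cases q with
    | leg m' e s =>
      simp only [XCell.bd, QCell.bd]
      split_ifs <;> simp
    | sec m' k =>
      have h1 : XCell.thick Z (.disc m j) ∉ (XCell.thick Z' (.sec m' k) : XCell D).bd := by
        intro hb
        simp only [XCell.bd, QCell.bd, List.mem_cons, List.mem_map, List.mem_append,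
          reduceCtorEq, false_or, XCell.thick.injEq] at hb
        obtain ⟨p, ⟨q, hq, rfl⟩, -, h⟩ := hb
        change q = _ at h
        rcases hq with hq | hq
        · have h2 := c2_rim hq
          rw [h] at h2
          exact absurd (show (2 : ℕ) = 1 from h2) (by decide)
        · have h2 := c2_rim hq
          rw [h] at h2
          exact absurd (show (2 : ℕ) = 1 from h2) (by decide)
      simp [h1]
    | _ => simp [XCell.bd, QCell.bd]
  | cap Z' m' j' x s => simp [XCell.bd]
  | wall Z' m' j' x o => simp [XCell.bd]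
  | room Z' m' j' x i =>
    cases i <;> cases x <;> simp [XCell.bd]
    all_goals
      constructor <;>
      · rintro ⟨h1, h2, h3⟩
        exact ⟨h1.symm, h2.symm, h3.symm⟩

theorem cof_kum (m : Fin N) (j : Fin (D.c m)) (x : Bool) :
    Two fun t : XCell D => XCell.kum m j x ∈ t.bd := by
  refine ⟨.room false m j x false, .room true m j x false, by simp, fun t => ?_⟩
  cases t with
  | ord q o => simp [XCell.bd]
  | kum m' j' x => simp [XCell.bd]
  | thick Z' q => simp [XCell.bd]
  | cap Z' m' j' x s => simp [XCell.bd]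
  | wall Z' m' j' x o => simp [XCell.bd]
  | room Z' m' j' x' i =>
    cases i <;> cases Z' <;> simp [XCell.bd]
    all_goals
      constructor <;>
      · rintro ⟨h1, h2, h3⟩
        exact ⟨h1.symm, h2.symm, h3.symm⟩

theorem cof_wall (Z : Bool) (m : Fin N) (j : Fin (D.c m)) (x o : Bool) :
    Two fun t : XCell D => XCell.wall Z m j x o ∈ t.bd := by
  refine ⟨.room Z m j x false, .room Z m j x true, by simp, fun t => ?_⟩
  cases t with
  | ord q o => simp [XCell.bd]
  | kum m' j' x => simp [XCell.bd]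
  | thick Z' q => simp [XCell.bd]
  | cap Z' m' j' x s => simp [XCell.bd]
  | wall Z' m' j' x o => simp [XCell.bd]
  | room Z' m' j' x' i =>
    cases i <;> cases o <;> simp [XCell.bd]
    all_goals
      constructor <;>
      · rintro ⟨h1, h2, h3, h4⟩
        exact ⟨h1.symm, h2.symm, h3.symm, h4.symm⟩

end Pool.MP_f18604_gt.LS
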