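import Mathlib
import Pool.Agent.Helper7.LS.DefsC

/-!
# LS-35: diamonds below the resolution cells and the Kummer 3-cells

Put `η = Z ^^ x`, `b = j.val.bodd`, `b' = (j.val + 1).bodd = !b`, `L s = lon m j.castSucc s`, `L' s = lon m j.succ s`, `A = ann m j.castSucc x`, `A' = ann m j.succ x`.
* `cap .. s` (facets `thick Z (pt m false s)`, `(L s, !(η ^^ s))`, `(arc m true x, η ^^ s ^^ b')`, `(L' s, η ^^ s)`): the vertices `(pt m false s, !(η ^^ s))`: thick and `L s`;
  `(pt m false s, η ^^ s)`: thick and `L' s`; `(pt m true (s ^^ b), !(η ^^ s) ^^ b)`: `L s` and `arc`; `(pt m true (s ^^ b'), η ^^ s ^^ b')`: `L' s` and `arc` (`!(η ^^ s) ^^ b = η ^^ s ^^ b'`).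
* `wall .. o` (facets `cap false`, `cap true`, `(A, o)`, `(A', o)`, `thick Z (L (η ^^ o))`, `thick Z (L' !(η ^^ o))`): the 12 edges of the solid:
  `thick Z (pt m false s)`: `cap s` and the one of `thick Z (L (η ^^ o))`, `thick Z (L' !(η ^^ o))` with the right side; `thick Z (pt m true s')`: both thick squares or none (`(η ^^ o) ^^ b = !(η ^^ o) ^^ b'`);
  `(L s, o')`, `(L' s, o')`, `(arc m true x, _)`, `(arc m false x, o)`: found by the case distinction on the booleans `Z, x, o, s, b` (every edge which occurs occurs exactly twice).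
* `room .. false` (`wall false`, `wall true`, `kum`, `thick Z (disc m j)`) and `room .. true` (`wall false`, `wall true`, `thick Z A`, `thick Z A'`): the 2-cells `cap s`: both walls; `(A, o)`, `(A', o)`: `wall o` and `kum`
  (or `thick Z A`, `thick Z A'`); `(disc, o)`: `kum` and `thick Z disc`; `thick Z (L s)`, `thick Z (L' s)`: one wall and `thick Z (disc m j)` (or `thick Z A`, `thick Z A'`); `thick Z (arc ..)`: `thick Z A`, `thick Z A'`.
* `kum m j x` is a cube: `(L s, o)`: `disc (s ^^ o)` and `(A, o)`; `(L' s, o)`: `disc (s ^^ o)` and `(A', o)`; `(arc m false x, o)`: `(A, o)`, `(A', o)`; `(arc m true x, o)`: `(A, o ^^ b)`, `(A', o ^^ b')`.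
PROOF.  All lists are explicit; case distinction on all booleans and on `b` (`Nat.bodd_succ`), then every `Two` is given by two explicit cells; `j.castSucc ≠ j.succ`.
-/

set_option autoImplicit false
set_option linter.unusedSimpArgs false

namespace Pool.MP_f18604_gt.LS

variable {N : ℕ} {D : Diagram N}

private theorem two_of_filter {α : Type} {l : List α} {P : α → Prop} [DecidablePred P]
    (h : ∃ a b, a ≠ b ∧ l.filter (fun t => decide (P t)) = [a, b]) :
    Two fun t => t ∈ l ∧ P t := by
  obtain ⟨a, b, hab, h⟩ := h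
  refine ⟨a, b, hab, fun t => ?_⟩
  have h1 : (t ∈ l ∧ P t) ↔ t ∈ l.filter (fun t => decide (P t)) := by
    rw [List.mem_filter, decide_eq_true_iff]
  change t ∈ l ∧ P t ↔ t = a ∨ t = b
  rw [h1, h]
  simp

private theorem castSucc_ne {n : ℕ} (j : Fin n) :
    (j.castSucc = j.succ) = False ∧ (j.succ = j.castSucc) = False :=
  ⟨eq_false (Fin.castSucc_lt_succ).ne, eq_false (Fin.castSucc_lt_succ).ne'⟩

theorem dia_cap (Z : Bool) (m : Fin N) (j : Fin (D.c m)) (x s : Bool) (c : XCell D)
    (h : ∃ b ∈ (XCell.cap Z m j x s).bd, c ∈ b.bd) :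
    Two fun b => b ∈ (XCell.cap Z m j x s).bd ∧ c ∈ b.bd := by
  have hne := castSucc_ne j
  apply two_of_filter
  obtain ⟨b, hb, hc⟩ := h
  obtain ⟨e, he⟩ : ∃ e, (Z ^^ x) = e := ⟨_, rfl⟩
  simp only [XCell.bd, he, List.mem_cons, List.mem_append, List.not_mem_nil, or_false, if_true,
    Bool.false_eq_true, if_false, or_assoc] at hb
  rcases hb with rfl | rfl | rfl | rfl <;>
  simp only [XCell.bd, QCell.bd, he, List.mem_cons, List.not_mem_nil, or_false, List.map_cons,
    List.map_nil, Fin.val_castSucc, Fin.val_succ, Nat.bodd_succ] at hc <;>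
  rcases hj : j.val.bodd with _ | _ <;> rcases e with _ | _ <;> rcases s with _ | _ <;>
  (try simp only [hj] at hc) <;>
  rcases hc with rfl | rfl <;>
  simp [XCell.bd, QCell.bd, Nat.bodd_succ, hj, hne, he]

theorem dia_wall (Z : Bool) (m : Fin N) (j : Fin (D.c m)) (x o : Bool) (c : XCell D)
    (h : ∃ b ∈ (XCell.wall Z m j x o).bd, c ∈ b.bd) :
    Two fun b => b ∈ (XCell.wall Z m j x o).bd ∧ c ∈ b.bd := by
  have hne := castSucc_ne j
  apply two_of_filter
  obtain ⟨b, hb, hc⟩ := h
  obtain ⟨e, he⟩ : ∃ e, (Z ^^ x) = e := ⟨_, rfl⟩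
  simp only [XCell.bd, he, List.mem_cons, List.mem_append, List.not_mem_nil, or_false, if_true,
    Bool.false_eq_true, if_false, or_assoc] at hb
  rcases hb with rfl | rfl | rfl | rfl | rfl | rfl <;>
  simp only [XCell.bd, QCell.bd, he, List.mem_cons, List.not_mem_nil, or_false, List.map_cons,
    List.map_nil, Fin.val_castSucc, Fin.val_succ, Nat.bodd_succ] at hc <;>
  rcases hj : j.val.bodd with _ | _ <;> rcases e with _ | _ <;> rcases o with _ | _ <;>
  (try simp only [hj] at hc) <;>
  rcases hc with rfl | rfl | rfl | rfl <;>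
  simp [XCell.bd, QCell.bd, Nat.bodd_succ, hj, hne, he]

theorem dia_room (Z : Bool) (m : Fin N) (j : Fin (D.c m)) (x i : Bool) (c : XCell D)
    (h : ∃ b ∈ (XCell.room Z m j x i).bd, c ∈ b.bd) :
    Two fun b => b ∈ (XCell.room Z m j x i).bd ∧ c ∈ b.bd := by
  cases i with
  | false =>
    have hne := castSucc_ne j
    apply two_of_filter
    obtain ⟨b, hb, hc⟩ := h
    obtain ⟨e, he⟩ : ∃ e, (Z ^^ x) = e := ⟨_, rfl⟩
    simp only [XCell.bd, he, List.mem_cons, List.mem_append, List.not_mem_nil, or_false, if_true,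
      Bool.false_eq_true, if_false, or_assoc] at hb
    rcases hb with rfl | rfl | rfl | rfl <;>
    simp only [XCell.bd, QCell.bd, he, List.mem_cons, List.not_mem_nil, or_false, List.map_cons,
      List.map_nil, Fin.val_castSucc, Fin.val_succ, Nat.bodd_succ] at hc <;>
    rcases hj : j.val.bodd with _ | _ <;> rcases e with _ | _ <;>
    rcases hc with rfl | rfl | rfl | rfl | rfl | rfl <;>
    simp [XCell.bd, QCell.bd, Nat.bodd_succ, hj, hne, he]
  | true =>
    have hne := castSucc_ne j
    apply two_of_filter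
    obtain ⟨b, hb, hc⟩ := h
    obtain ⟨e, he⟩ : ∃ e, (Z ^^ x) = e := ⟨_, rfl⟩
    simp only [XCell.bd, he, List.mem_cons, List.mem_append, List.not_mem_nil, or_false, if_true,
      Bool.false_eq_true, if_false, or_assoc] at hb
    rcases hb with rfl | rfl | rfl | rfl <;>
    simp only [XCell.bd, QCell.bd, he, List.mem_cons, List.not_mem_nil, or_false, List.map_cons,
      List.map_nil, Fin.val_castSucc, Fin.val_succ, Nat.bodd_succ] at hc <;>
    rcases hj : j.val.bodd with _ | _ <;> rcases e with _ | _ <;>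
    rcases hc with rfl | rfl | rfl | rfl | rfl | rfl <;>
    simp [XCell.bd, QCell.bd, Nat.bodd_succ, hj, hne, he]

theorem dia_kum (m : Fin N) (j : Fin (D.c m)) (x : Bool) (c : XCell D)
    (h : ∃ b ∈ (XCell.kum m j x).bd, c ∈ b.bd) :
    Two fun b => b ∈ (XCell.kum m j x).bd ∧ c ∈ b.bd := by
  have hne := castSucc_ne j
  apply two_of_filter
  obtain ⟨b, hb, hc⟩ := h
  simp only [XCell.bd, List.mem_cons, List.mem_append, List.not_mem_nil, or_false, if_true,
    Bool.false_eq_true, if_false, or_assoc] at hb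
  rcases hb with rfl | rfl | rfl | rfl | rfl | rfl <;>
  simp only [XCell.bd, QCell.bd, List.mem_cons, List.not_mem_nil, or_false, List.map_cons,
    List.map_nil, Fin.val_castSucc, Fin.val_succ, Nat.bodd_succ] at hc <;>
  rcases hj : j.val.bodd with _ | _ <;> 
  (try simp only [hj] at hc) <;>
  rcases hc with rfl | rfl | rfl | rfl <;>
  simp [XCell.bd, QCell.bd, Nat.bodd_succ, hj, hne]

end Pool.MP_f18604_gt.LS
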