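import Mathlib
import Pool.Agent.Helper7.LS.Cyc
import Pool.Agent.Helper7.LS.Orb

/-!
# LS-32: the boundary of `ball` is a closed surface

For `m ∈ κ` put `x m = v ^^ eps m`, `o m = o ^^ del m`, `p m = (c m).bodd`, `I m` = the set of `l` with `cyc m (next m) l` if `x m = false` and with `cyc (next m) m l` if `x m = true`.
By `eps_next`, `del_next`: `x (next m) = !x m`, `o (next m) = o m ^^ p m`; `sig (next m) = tau m`.  The 2-cells are `dsk κ w` (sheet `o`), `ann m last (x m)` (sheet `o m`), `sec l (tau m)`,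
`l ∈ I m` (sheet `o m ^^ p m`), `m ∈ κ`.  The edges and their two 2-cells:
* `(lon m last s, o m)`: `dsk κ w` with `w = s ^^ eps m ^^ del m`, and `ann m last (x m)`;
* `(leg m true s, o m ^^ p m)`: `dsk κ w` with `w = s ^^ p m ^^ eps m ^^ del m`, and `sec l (tau m)` for the `l ∈ I m` with `l = m` or `rot l = m`: if `x m = false` then
  `m ∈ I m` (`cyc_left`) and the predecessor of `m` is not (`cyc_pred_left`); if `x m = true` it is the other way round (`cyc_right`, `cyc_pred_right`);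
* `(arc m true (x m), o m ^^ p m)`: `ann m last (x m)` and the same sector (`rim m _ false` contains `arc m true false`, `rim m _ true` contains `arc m true true`);
* `(leg m false s, o m)`: let `m = next m0`, so `x m0 = !x m`: `dsk κ w` with `w = s ^^ eps m ^^ del m`, and `sec l (sig m)`, `sig m = tau m0`, for the `l ∈ I m0` with `l = m` or
  `rot l = m`: if `x m0 = true` then `I m0 = [m, m0)` contains `m` and not its predecessor; if `x m0 = false` then `I m0 = [m0, m)` contains the predecessor and not `m`;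
* `(arc m false (x m), o m)`: `ann m last (x m)` and the same sector;
* `(seg l k, _)`, `k = tau m`, `l ≠ m`, `l ≠ next m` (as `k ≠ tau l`, `k ≠ sig l`): `sec l k` and `sec l' k`, `rot l' = l`: both in `I m` or both not (`cyc_rot`).
-/

set_option autoImplicit false

namespace Pool.MP_f18604_gt.LS

variable {N : ℕ} {D : Diagram N}

private theorem rim_leg (m l k : Fin N) (e s y : Bool) :
    (QCell.leg m e s : QCell D) ∈ QCell.rim l k y ↔ l = m ∧ k = D.row m e := by
  have hne := D.ne m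
  unfold QCell.rim
  split_ifs with h h'
  · simp only [List.mem_cons, QCell.leg.injEq, List.not_mem_nil, or_false, reduceCtorEq]
    constructor
    · rintro (⟨h1, h2, -⟩ | ⟨h1, h2, -⟩)
      · subst h1
        subst h2
        exact ⟨rfl, h⟩
      · subst h1
        subst h2
        exact ⟨rfl, h⟩
    · rintro ⟨h1, h2⟩
      subst h1
      cases e
      · cases s
        · exact Or.inl ⟨rfl, rfl, rfl⟩
        · exact Or.inr ⟨rfl, rfl, rfl⟩
      · exact absurd (h.symm.trans h2) hne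
  · simp only [List.mem_cons, QCell.leg.injEq, List.not_mem_nil, or_false, reduceCtorEq]
    constructor
    · rintro (⟨h1, h2, -⟩ | ⟨h1, h2, -⟩)
      · subst h1
        subst h2
        exact ⟨rfl, h'⟩
      · subst h1
        subst h2
        exact ⟨rfl, h'⟩
    · rintro ⟨h1, h2⟩
      subst h1
      cases e
      · exact absurd h2 h
      · cases s
        · exact Or.inl ⟨rfl, rfl, rfl⟩
        · exact Or.inr ⟨rfl, rfl, rfl⟩
  · simp only [List.mem_cons, List.not_mem_nil, or_false, reduceCtorEq, false_iff]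
    rintro ⟨h1, h2⟩
    subst h1
    cases e
    · exact h h2
    · exact h' h2

private theorem rim_arc (m l k : Fin N) (e x y : Bool) :
    (QCell.arc m e x : QCell D) ∈ QCell.rim l k y ↔ l = m ∧ k = D.row m e ∧ x = y := by
  have hne := D.ne m
  unfold QCell.rim
  split_ifs with h h'
  · simp only [List.mem_cons, QCell.arc.injEq, List.not_mem_nil, or_false, reduceCtorEq, false_or]
    constructor
    · rintro ⟨h1, h2, h3⟩
      subst h1
      subst h2
      exact ⟨rfl, h, h3⟩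
    · rintro ⟨h1, h2, h3⟩
      subst h1
      cases e
      · exact ⟨rfl, rfl, h3⟩
      · exact absurd (h.symm.trans h2) hne
  · simp only [List.mem_cons, QCell.arc.injEq, List.not_mem_nil, or_false, reduceCtorEq, false_or]
    constructor
    · rintro ⟨h1, h2, h3⟩
      subst h1
      subst h2
      exact ⟨rfl, h', h3⟩
    · rintro ⟨h1, h2, h3⟩
      subst h1
      cases e
      · exact absurd h2 h
      · exact ⟨rfl, rfl, h3⟩
  · simp only [List.mem_cons, List.not_mem_nil, or_false, reduceCtorEq, false_iff]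
    rintro ⟨h1, h2, -⟩
    subst h1
    cases e
    · exact h h2
    · exact h' h2

private theorem rim_seg (m l k k' : Fin N) (y : Bool) (hk : k' ≠ D.sig m ∧ k' ≠ D.tau m) :
    (QCell.seg m k' hk : QCell D) ∈ QCell.rim l k y ↔ l = m ∧ k = k' := by
  unfold QCell.rim
  split_ifs with h h'
  · simp only [List.mem_cons, List.not_mem_nil, or_false, reduceCtorEq, false_iff]
    rintro ⟨h1, h2⟩
    subst h1
    exact hk.1 (h2.symm.trans h)
  · simp only [List.mem_cons, List.not_mem_nil, or_false, reduceCtorEq, false_iff]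
    rintro ⟨h1, h2⟩
    subst h1
    exact hk.2 (h2.symm.trans h')
  · simp only [List.mem_cons, List.not_mem_nil, or_false, QCell.seg.injEq]
    exact ⟨fun h3 => ⟨h3.1.symm, h3.2.symm⟩, fun h3 => ⟨h3.1.symm, h3.2.symm⟩⟩

private theorem rim_kind {q : QCell D} {l k : Fin N} {y : Bool} (h : q ∈ QCell.rim l k y) :
    (∃ m e s, q = .leg m e s) ∨ (∃ m e x, q = .arc m e x) ∨ ∃ m k h, q = .seg m k h := by
  unfold QCell.rim at h
  split_ifs at h with h1 h2
  · simp only [List.mem_cons, List.not_mem_nil, or_false] at h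
    rcases h with h | h | h
    · exact Or.inl ⟨_, _, _, h⟩
    · exact Or.inl ⟨_, _, _, h⟩
    · exact Or.inr (Or.inl ⟨_, _, _, h⟩)
  · simp only [List.mem_cons, List.not_mem_nil, or_false] at h
    rcases h with h | h | h
    · exact Or.inl ⟨_, _, _, h⟩
    · exact Or.inl ⟨_, _, _, h⟩
    · exact Or.inr (Or.inl ⟨_, _, _, h⟩)
  · simp only [List.mem_cons, List.not_mem_nil, or_false] at h
    exact Or.inr (Or.inr ⟨_, _, _, h⟩)

private theorem mem_sec (l k : Fin N) (o : Bool) (r : QCell D × Bool) :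
    r ∈ (QCell.sec l k : QCell D).bd o ↔
      r.2 = o ∧ (r.1 ∈ QCell.rim l k false ∨ r.1 ∈ QCell.rim (rot l) k true) := by
  obtain ⟨q, o'⟩ := r
  simp only [QCell.bd, List.mem_map, List.mem_append, Prod.mk.injEq]
  constructor
  · rintro ⟨q', h1, h2, h3⟩
    subst h2
    exact ⟨h3.symm, h1⟩
  · rintro ⟨h1, h2⟩
    exact ⟨q, h2, rfl, h1.symm⟩

private theorem mem_dsk (κ : D.Comp) (w o : Bool) (r : QCell D × Bool) :
    r ∈ (QCell.dsk κ w : QCell D).bd o ↔ ∃ m ∈ κ.1,
      r = (.lon m (Fin.last _) (w ^^ D.eps m ^^ D.del m), o ^^ D.del m) ∨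
      r = (.leg m false (w ^^ D.eps m ^^ D.del m), o ^^ D.del m) ∨
      r = (.leg m true (w ^^ D.eps m ^^ D.del m ^^ (D.c m).bodd), o ^^ D.del m ^^ (D.c m).bodd) := by
  simp only [QCell.bd, List.mem_flatMap, List.mem_filter, List.mem_finRange, true_and,
    decide_eq_true_eq, List.mem_cons, List.not_mem_nil, or_false]

private theorem mem_ball (κ : D.Comp) (v o : Bool) (p : QCell D × Bool) :
    p ∈ (QCell.ball κ v : QCell D).bd o ↔ (∃ w, p = (.dsk κ w, o)) ∨ ∃ m ∈ κ.1,
      p = (.ann m (Fin.last _) (v ^^ D.eps m), o ^^ D.del m) ∨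
      ∃ l, (if (v ^^ D.eps m) then cyc (D.next m) m l else cyc m (D.next m) l) = true ∧
        p = (.sec l (D.tau m), o ^^ D.del m ^^ (D.c m).bodd) := by
  simp only [QCell.bd, List.mem_append, List.mem_flatMap, List.mem_filter, List.mem_finRange, true_and,
    decide_eq_true_eq, List.mem_cons, List.not_mem_nil, or_false, List.mem_map]
  constructor
  · rintro ((h | h) | ⟨m, hm, h | ⟨l, h1, h2⟩⟩)
    · exact Or.inl ⟨_, h⟩
    · exact Or.inl ⟨_, h⟩
    · exact Or.inr ⟨m, hm, Or.inl h⟩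
    · exact Or.inr ⟨m, hm, Or.inr ⟨l, h1, h2.symm⟩⟩
  · rintro (⟨w, h⟩ | ⟨m, hm, h | ⟨l, h1, h2⟩⟩)
    · cases w
      · exact Or.inl (Or.inl h)
      · exact Or.inl (Or.inr h)
    · exact Or.inr ⟨m, hm, Or.inl h⟩
    · exact Or.inr ⟨m, hm, Or.inr ⟨l, h1, h2.symm⟩⟩

private theorem mem_ann (m : Fin N) (x o : Bool) (r : QCell D × Bool) :
    r ∈ (QCell.ann m (Fin.last _) x : QCell D).bd o ↔ (∃ s, r = (.lon m (Fin.last _) s, o)) ∨
      r = (.arc m false x, o) ∨ r = (.arc m true x, o ^^ (D.c m).bodd) := by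
  simp only [QCell.bd, List.mem_cons, List.not_mem_nil, or_false, Fin.val_last]
  constructor
  · rintro (h | h | h | h)
    · exact Or.inl ⟨_, h⟩
    · exact Or.inl ⟨_, h⟩
    · exact Or.inr (Or.inl h)
    · exact Or.inr (Or.inr h)
  · rintro (⟨s, h⟩ | h | h)
    · cases s
      · exact Or.inl h
      · exact Or.inr (Or.inl h)
    · exact Or.inr (Or.inr (Or.inl h))
    · exact Or.inr (Or.inr (Or.inr h))

/-- the sectors at the end `e` of the arc `m` -/
private theorem key {κ : D.Comp} {m : Fin N} (hm : m ∈ κ.1) (v o e : Bool) :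
    ∃ m0, m0 ∈ κ.1 ∧ D.tau m0 = D.row m e ∧
      (o ^^ D.del m0 ^^ (D.c m0).bodd) = (o ^^ D.del m ^^ (e && (D.c m).bodd)) ∧
      ∀ l, (l = m → ((if (v ^^ D.eps m0) then cyc (D.next m0) m0 l else cyc m0 (D.next m0) l) = true ↔
        (v ^^ D.eps m) = false)) ∧
        (rot l = m → ((if (v ^^ D.eps m0) then cyc (D.next m0) m0 l else cyc m0 (D.next m0) l) = true ↔
        (v ^^ D.eps m) = true)) := by
  cases e with
  | true =>
    refine ⟨m, hm, rfl, by simp, fun l => ⟨fun h => ?_, fun h => ?_⟩⟩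
    · subst h
      have hn := next_ne (D := D) l
      cases hx : (v ^^ D.eps l)
      · simp [cyc_left hn.symm]
      · simp [cyc_right hn]
    · have hn := next_ne (D := D) m
      cases hx : (v ^^ D.eps m)
      · simp [cyc_pred_left hn.symm h]
      · simp [cyc_pred_right hn h]
  | false =>
    obtain ⟨m0, hm0⟩ : ∃ m0, D.next m0 = m := D.next.surjective m
    have hmem : m0 ∈ κ.1 := (next_mem κ m0).1 (by rw [hm0]; exact hm)
    have hsig : D.tau m0 = D.sig m := by rw [← hm0, sig_next]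
    have hdel : D.del m = (D.del m0 ^^ (D.c m0).bodd) := by
      rw [← hm0]
      exact D.del_next m0
    have heps : D.eps m = !D.eps m0 := by
      rw [← hm0]
      exact D.eps_next m0
    have hn : m ≠ m0 := by
      rw [← hm0]
      exact next_ne m0
    refine ⟨m0, hmem, hsig, by rw [hdel]; simp, fun l => ⟨fun h => ?_, fun h => ?_⟩⟩
    · subst h
      rw [hm0, heps]
      cases v <;> cases D.eps m0 <;> simp [cyc_left hn, cyc_right hn.symm]
    · rw [hm0, heps]
      cases v <;> cases D.eps m0 <;> simp [cyc_pred_left hn h, cyc_pred_right hn.symm h]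

private theorem mem_dsk2 (κ : D.Comp) (w o : Bool) (r : QCell D × Bool) :
    r ∈ (QCell.dsk κ w : QCell D).bd o ↔ ∃ m ∈ κ.1,
      r = (.lon m (Fin.last _) (w ^^ D.eps m ^^ D.del m), o ^^ D.del m) ∨
      ∃ e, r = (.leg m e (w ^^ D.eps m ^^ D.del m ^^ (e && (D.c m).bodd)),
        o ^^ D.del m ^^ (e && (D.c m).bodd)) := by
  rw [mem_dsk]
  constructor
  · rintro ⟨m, hm, h | h | h⟩
    · exact ⟨m, hm, Or.inl h⟩
    · exact ⟨m, hm, Or.inr ⟨false, by rw [h]; simp⟩⟩
    · exact ⟨m, hm, Or.inr ⟨true, by rw [h]; simp⟩⟩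
  · rintro ⟨m, hm, h | ⟨e, h⟩⟩
    · exact ⟨m, hm, Or.inl h⟩
    · cases e
      · exact ⟨m, hm, Or.inr (Or.inl (by rw [h]; simp))⟩
      · exact ⟨m, hm, Or.inr (Or.inr (by rw [h]; simp))⟩

private theorem mem_ann2 (m : Fin N) (x o : Bool) (r : QCell D × Bool) :
    r ∈ (QCell.ann m (Fin.last _) x : QCell D).bd o ↔ (∃ s, r = (.lon m (Fin.last _) s, o)) ∨
      ∃ e, r = (.arc m e x, o ^^ (e && (D.c m).bodd)) := by
  rw [mem_ann]
  constructor
  · rintro (h | h | h)
    · exact Or.inl h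
    · exact Or.inr ⟨false, by rw [h]; simp⟩
    · exact Or.inr ⟨true, by rw [h]; simp⟩
  · rintro (h | ⟨e, h⟩)
    · exact Or.inl h
    · cases e
      · exact Or.inr (Or.inl (by rw [h]; simp))
      · exact Or.inr (Or.inr (by rw [h]; simp))

private theorem row_mem {κ : D.Comp} {m m1 : Fin N} {e : Bool} (h1 : m1 ∈ κ.1)
    (h : D.tau m1 = D.row m e) : m ∈ κ.1 := by
  cases e with
  | true =>
    have h2 : m1 = m := D.tau.injective h
    rw [← h2]
    exact h1
  | false =>
    have h2 : D.next m1 = m := D.sig.injective (by rw [sig_next]; exact h)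
    rw [← h2]
    exact (next_mem κ m1).2 h1

private theorem sect {κ : D.Comp} {m : Fin N} (hm : m ∈ κ.1) (v o e : Bool) :
    ∃ m0 l0, m0 ∈ κ.1 ∧ D.tau m0 = D.row m e ∧
      (o ^^ D.del m0 ^^ (D.c m0).bodd) = (o ^^ D.del m ^^ (e && (D.c m).bodd)) ∧
      (if (v ^^ D.eps m0) then cyc (D.next m0) m0 l0 else cyc m0 (D.next m0) l0) = true ∧
      ((l0 = m ∧ (v ^^ D.eps m) = false) ∨ (rot l0 = m ∧ (v ^^ D.eps m) = true)) ∧
      ∀ m1 l, D.tau m1 = D.row m e →
        (if (v ^^ D.eps m1) then cyc (D.next m1) m1 l else cyc m1 (D.next m1) l) = true →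
        (l = m ∨ rot l = m) → m1 = m0 ∧ l = l0 := by
  obtain ⟨m0, h0, h1, h2, h3⟩ := key hm v o e
  cases hx : (v ^^ D.eps m)
  · refine ⟨m0, m, h0, h1, h2, ((h3 m).1 rfl).2 hx, Or.inl ⟨rfl, rfl⟩, ?_⟩
    intro m1 l h4 h5 h6
    have h7 : m1 = m0 := D.tau.injective (h4.trans h1.symm)
    subst h7
    rcases h6 with h6 | h6
    · exact ⟨rfl, h6⟩
    · have h8 := ((h3 l).2 h6).1 h5
      rw [hx] at h8
      exact absurd h8 (by simp)
  · obtain ⟨l0, hl0⟩ := rot_surj m
    refine ⟨m0, l0, h0, h1, h2, ((h3 l0).2 hl0).2 hx, Or.inr ⟨hl0, rfl⟩, ?_⟩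
    intro m1 l h4 h5 h6
    have h7 : m1 = m0 := D.tau.injective (h4.trans h1.symm)
    subst h7
    rcases h6 with h6 | h6
    · have h8 := ((h3 l).1 h6).1 h5
      rw [hx] at h8
      exact absurd h8 (by simp)
    · exact ⟨rfl, rot_inj (h6.trans hl0.symm)⟩

private theorem bx (a b c : Bool) : (a ^^ b ^^ c ^^ b ^^ c) = a := by
  cases a <;> cases b <;> cases c <;> rfl

private theorem bx2 (a b c d : Bool) : (a ^^ b ^^ c ^^ d ^^ b ^^ c ^^ d) = a := by
  cases a <;> cases b <;> cases c <;> cases d <;> rfl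

theorem dia_ball (κ : D.Comp) (v o : Bool) (r : QCell D × Bool)
    (h : ∃ p ∈ (QCell.ball κ v : QCell D).bd o, r ∈ p.1.bd p.2) :
    Two fun p => p ∈ (QCell.ball κ v : QCell D).bd o ∧ r ∈ p.1.bd p.2 := by
  obtain ⟨p0, hp0, hr0⟩ := h
  have hkind : (∃ m j s o', r = (.lon m j s, o')) ∨ (∃ m e s o', r = (.leg m e s, o')) ∨
      (∃ m e x o', r = (.arc m e x, o')) ∨ ∃ m k h o', r = (.seg m k h, o') := by
    rw [mem_ball] at hp0
    rcases hp0 with ⟨w, rfl⟩ | ⟨m, hm, rfl | ⟨l, hl, rfl⟩⟩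
    · rw [mem_dsk] at hr0
      obtain ⟨m, hm, h | h | h⟩ := hr0
      · exact Or.inl ⟨_, _, _, _, h⟩
      · exact Or.inr (Or.inl ⟨_, _, _, _, h⟩)
      · exact Or.inr (Or.inl ⟨_, _, _, _, h⟩)
    · rw [mem_ann] at hr0
      rcases hr0 with ⟨s, h⟩ | h | h
      · exact Or.inl ⟨_, _, _, _, h⟩
      · exact Or.inr (Or.inr (Or.inl ⟨_, _, _, _, h⟩))
      · exact Or.inr (Or.inr (Or.inl ⟨_, _, _, _, h⟩))
    · rw [mem_sec] at hr0
      obtain ⟨q, o'⟩ := r
      have h2 : (∃ m e s, q = .leg m e s) ∨ (∃ m e x, q = .arc m e x) ∨ ∃ m k h, q = .seg m k h := by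
        rcases hr0.2 with h1 | h1
        · exact rim_kind h1
        · exact rim_kind h1
      rcases h2 with ⟨m, e, s, h⟩ | ⟨m, e, x, h⟩ | ⟨m, k, hk, h⟩
      · exact Or.inr (Or.inl ⟨m, e, s, o', by rw [h]⟩)
      · exact Or.inr (Or.inr (Or.inl ⟨m, e, x, o', by rw [h]⟩))
      · exact Or.inr (Or.inr (Or.inr ⟨m, k, hk, o', by rw [h]⟩))
  -- a description of the pairs
  have hdesc : ∀ p, (p ∈ (QCell.ball κ v : QCell D).bd o ∧ r ∈ p.1.bd p.2) ↔
      (∃ w, p = (.dsk κ w, o) ∧ r ∈ (QCell.dsk κ w : QCell D).bd o) ∨ ∃ m ∈ κ.1,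
      (p = (.ann m (Fin.last _) (v ^^ D.eps m), o ^^ D.del m) ∧
        r ∈ (QCell.ann m (Fin.last _) (v ^^ D.eps m) : QCell D).bd (o ^^ D.del m)) ∨
      ∃ l, (if (v ^^ D.eps m) then cyc (D.next m) m l else cyc m (D.next m) l) = true ∧
        p = (.sec l (D.tau m), o ^^ D.del m ^^ (D.c m).bodd) ∧
        r ∈ (QCell.sec l (D.tau m) : QCell D).bd (o ^^ D.del m ^^ (D.c m).bodd) := by
    intro p
    rw [mem_ball]
    constructor
    · rintro ⟨⟨w, rfl⟩ | ⟨m, hm, rfl | ⟨l, hl, rfl⟩⟩, h⟩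
      · exact Or.inl ⟨w, rfl, h⟩
      · exact Or.inr ⟨m, hm, Or.inl ⟨rfl, h⟩⟩
      · exact Or.inr ⟨m, hm, Or.inr ⟨l, hl, rfl, h⟩⟩
    · rintro (⟨w, rfl, h⟩ | ⟨m, hm, ⟨rfl, h⟩ | ⟨l, hl, rfl, h⟩⟩)
      · exact ⟨Or.inl ⟨w, rfl⟩, h⟩
      · exact ⟨Or.inr ⟨m, hm, Or.inl rfl⟩, h⟩
      · exact ⟨Or.inr ⟨m, hm, Or.inr ⟨l, hl, rfl⟩⟩, h⟩
  rcases hkind with ⟨m, j, s, o', rfl⟩ | ⟨m, e, s, o', rfl⟩ | ⟨m, e, x, o', rfl⟩ | ⟨m, k, hk, o', rfl⟩
  · -- lon
    have hfact : m ∈ κ.1 ∧ HEq j (Fin.last (D.c m)) ∧ o' = (o ^^ D.del m) := by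
      rcases (hdesc p0).1 ⟨hp0, hr0⟩ with ⟨w, -, h⟩ | ⟨m', hm', ⟨-, h⟩ | ⟨l, -, -, h⟩⟩
      · rw [mem_dsk2] at h
        obtain ⟨m', hm', h | ⟨e, h⟩⟩ := h
        · simp only [Prod.mk.injEq, QCell.lon.injEq] at h
          obtain ⟨⟨h1, h2, -⟩, h4⟩ := h
          subst h1
          exact ⟨hm', h2, h4⟩
        · simp only [Prod.mk.injEq, reduceCtorEq, false_and] at h
      · rw [mem_ann2] at h
        rcases h with ⟨s', h⟩ | ⟨e, h⟩
        · simp only [Prod.mk.injEq, QCell.lon.injEq] at h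
          obtain ⟨⟨h1, h2, -⟩, h4⟩ := h
          subst h1
          exact ⟨hm', h2, h4⟩
        · simp only [Prod.mk.injEq, reduceCtorEq, false_and] at h
      · rw [mem_sec] at h
        exfalso
        rcases h.2 with h1 | h1
        · rcases rim_kind h1 with ⟨_, _, _, h2⟩ | ⟨_, _, _, h2⟩ | ⟨_, _, _, h2⟩ <;> simp at h2
        · rcases rim_kind h1 with ⟨_, _, _, h2⟩ | ⟨_, _, _, h2⟩ | ⟨_, _, _, h2⟩ <;> simp at h2
    obtain ⟨hm, hj, ho⟩ := hfact
    have hj' := eq_of_heq hj
    subst hj'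
    subst ho
    refine ⟨(.dsk κ (s ^^ D.eps m ^^ D.del m), o), (.ann m (Fin.last _) (v ^^ D.eps m), o ^^ D.del m),
      by simp, fun p => ?_⟩
    refine (hdesc p).trans ?_
    constructor
    · rintro (⟨w, h0, h⟩ | ⟨m', hm', ⟨h0, h⟩ | ⟨l, -, -, h⟩⟩)
      · left
        rw [mem_dsk2] at h
        obtain ⟨m', hm', h | ⟨e, h⟩⟩ := h
        · simp only [Prod.mk.injEq, QCell.lon.injEq] at h
          obtain ⟨⟨h1, h2, h3⟩, h4⟩ := h
          subst h1
          rw [h0, h3, bx]
        · simp only [Prod.mk.injEq, reduceCtorEq, false_and] at h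
      · right
        rw [mem_ann2] at h
        rcases h with ⟨s', h⟩ | ⟨e, h⟩
        · simp only [Prod.mk.injEq, QCell.lon.injEq] at h
          obtain ⟨⟨h1, h2, -⟩, h4⟩ := h
          subst h1
          exact h0
        · simp only [Prod.mk.injEq, reduceCtorEq, false_and] at h
      · rw [mem_sec] at h
        exfalso
        rcases h.2 with h1 | h1
        · rcases rim_kind h1 with ⟨_, _, _, h2⟩ | ⟨_, _, _, h2⟩ | ⟨_, _, _, h2⟩ <;> simp at h2
        · rcases rim_kind h1 with ⟨_, _, _, h2⟩ | ⟨_, _, _, h2⟩ | ⟨_, _, _, h2⟩ <;> simp at h2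
    · rintro (h | h)
      · refine Or.inl ⟨_, h, ?_⟩
        rw [mem_dsk2]
        exact ⟨m, hm, Or.inl (by rw [bx])⟩
      · refine Or.inr ⟨m, hm, Or.inl ⟨h, ?_⟩⟩
        rw [mem_ann2]
        exact Or.inl ⟨s, rfl⟩
  · -- leg
    have hfact : m ∈ κ.1 ∧ o' = (o ^^ D.del m ^^ (e && (D.c m).bodd)) := by
      rcases (hdesc p0).1 ⟨hp0, hr0⟩ with ⟨w, -, h⟩ | ⟨m', hm', ⟨-, h⟩ | ⟨l, hl, -, h⟩⟩
      · rw [mem_dsk2] at h
        obtain ⟨m', hm', h | ⟨e', h⟩⟩ := h
        · simp only [Prod.mk.injEq, reduceCtorEq, false_and] at h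
        · simp only [Prod.mk.injEq, QCell.leg.injEq] at h
          obtain ⟨⟨h1, h2, -⟩, h4⟩ := h
          subst h1
          subst h2
          exact ⟨hm', h4⟩
      · rw [mem_ann2] at h
        rcases h with ⟨s', h⟩ | ⟨e, h⟩
        · simp only [Prod.mk.injEq, reduceCtorEq, false_and] at h
        · simp only [Prod.mk.injEq, reduceCtorEq, false_and] at h
      · rw [mem_sec, rim_leg, rim_leg] at h
        have h1 : D.tau m' = D.row m e := by
          rcases h.2 with h1 | h1
          · exact h1.2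
          · exact h1.2
        have hm : m ∈ κ.1 := row_mem hm' h1
        refine ⟨hm, ?_⟩
        obtain ⟨m0, l0, a1, a2, a3, a4, a5, a6⟩ := sect hm v o e
        have h2 : m' = m0 := D.tau.injective (h1.trans a2.symm)
        subst h2
        exact h.1.trans a3
    obtain ⟨hm, ho⟩ := hfact
    obtain ⟨m0, l0, a1, a2, a3, a4, a5, a6⟩ := sect hm v o e
    refine ⟨(.dsk κ (s ^^ D.eps m ^^ D.del m ^^ (e && (D.c m).bodd)), o), (.sec l0 (D.row m e), o'),
      by simp, fun p => ?_⟩
    refine (hdesc p).trans ?_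
    constructor
    · rintro (⟨w, h0, h⟩ | ⟨m', hm', ⟨h0, h⟩ | ⟨l, hl, h0, h⟩⟩)
      · left
        rw [mem_dsk2] at h
        obtain ⟨m', hm', h | ⟨e', h⟩⟩ := h
        · simp only [Prod.mk.injEq, reduceCtorEq, false_and] at h
        · simp only [Prod.mk.injEq, QCell.leg.injEq] at h
          obtain ⟨⟨h1, h2, h3⟩, h4⟩ := h
          subst h1
          subst h2
          rw [h0, h3, bx2]
      · rw [mem_ann2] at h
        rcases h with ⟨s', h⟩ | ⟨e, h⟩
        · simp only [Prod.mk.injEq, reduceCtorEq, false_and] at h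
        · simp only [Prod.mk.injEq, reduceCtorEq, false_and] at h
      · right
        rw [mem_sec, rim_leg, rim_leg] at h
        have h1 : D.tau m' = D.row m e := by
          rcases h.2 with h1 | h1
          · exact h1.2
          · exact h1.2
        have h2 : l = m ∨ rot l = m := by
          rcases h.2 with h1 | h1
          · exact Or.inl h1.1
          · exact Or.inr h1.1
        obtain ⟨h3, h4⟩ := a6 m' l h1 hl h2
        subst h4
        rw [h0, h1, ← h.1]
    · rintro (h | h)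
      · refine Or.inl ⟨_, h, ?_⟩
        rw [mem_dsk2]
        exact ⟨m, hm, Or.inr ⟨e, by rw [bx2, ho]⟩⟩
      · refine Or.inr ⟨m0, a1, Or.inr ⟨l0, a4, ?_, ?_⟩⟩
        · rw [h, a2, a3, ho]
        · rw [mem_sec, rim_leg, rim_leg]
          refine ⟨by rw [a3, ho], ?_⟩
          rcases a5 with ⟨b1, -⟩ | ⟨b1, -⟩
          · exact Or.inl ⟨b1, a2⟩
          · exact Or.inr ⟨b1, a2⟩
  · -- arc
    have hfact : m ∈ κ.1 ∧ x = (v ^^ D.eps m) ∧ o' = (o ^^ D.del m ^^ (e && (D.c m).bodd)) := by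
      rcases (hdesc p0).1 ⟨hp0, hr0⟩ with ⟨w, -, h⟩ | ⟨m', hm', ⟨-, h⟩ | ⟨l, hl, -, h⟩⟩
      · rw [mem_dsk2] at h
        obtain ⟨m', hm', h | ⟨e', h⟩⟩ := h
        · simp only [Prod.mk.injEq, reduceCtorEq, false_and] at h
        · simp only [Prod.mk.injEq, reduceCtorEq, false_and] at h
      · rw [mem_ann2] at h
        rcases h with ⟨s', h⟩ | ⟨e', h⟩
        · simp only [Prod.mk.injEq, reduceCtorEq, false_and] at h
        · simp only [Prod.mk.injEq, QCell.arc.injEq] at h
          obtain ⟨⟨h1, h2, h3⟩, h4⟩ := h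
          subst h1
          subst h2
          exact ⟨hm', h3, h4⟩
      · rw [mem_sec, rim_arc, rim_arc] at h
        have h1 : D.tau m' = D.row m e := by
          rcases h.2 with h1 | h1
          · exact h1.2.1
          · exact h1.2.1
        have hm : m ∈ κ.1 := row_mem hm' h1
        obtain ⟨m0, l0, a1, a2, a3, a4, a5, a6⟩ := sect hm v o e
        have h2 : l = m ∨ rot l = m := by
          rcases h.2 with h1 | h1
          · exact Or.inl h1.1
          · exact Or.inr h1.1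
        obtain ⟨h3, h4⟩ := a6 m' l h1 hl h2
        subst h3
        subst h4
        refine ⟨hm, ?_, h.1.trans a3⟩
        rcases h.2 with ⟨c1, -, c2⟩ | ⟨c1, -, c2⟩
        · rcases a5 with ⟨b1, b2⟩ | ⟨b1, b2⟩
          · rw [c2, b2]
          · rw [c1] at b1
            exact absurd b1 (rot_ne D m)
        · rcases a5 with ⟨b1, b2⟩ | ⟨b1, b2⟩
          · rw [b1] at c1
            exact absurd c1 (rot_ne D m)
          · rw [c2, b2]
    obtain ⟨hm, hx, ho⟩ := hfact
    obtain ⟨m0, l0, a1, a2, a3, a4, a5, a6⟩ := sect hm v o e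
    refine ⟨(.ann m (Fin.last _) x, o ^^ D.del m), (.sec l0 (D.row m e), o'),
      by simp, fun p => ?_⟩
    refine (hdesc p).trans ?_
    constructor
    · rintro (⟨w, h0, h⟩ | ⟨m', hm', ⟨h0, h⟩ | ⟨l, hl, h0, h⟩⟩)
      · rw [mem_dsk2] at h
        obtain ⟨m', hm', h | ⟨e', h⟩⟩ := h
        · simp only [Prod.mk.injEq, reduceCtorEq, false_and] at h
        · simp only [Prod.mk.injEq, reduceCtorEq, false_and] at h
      · left
        rw [mem_ann2] at h
        rcases h with ⟨s', h⟩ | ⟨e', h⟩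
        · simp only [Prod.mk.injEq, reduceCtorEq, false_and] at h
        · simp only [Prod.mk.injEq, QCell.arc.injEq] at h
          obtain ⟨⟨h1, h2, h3⟩, h4⟩ := h
          subst h1
          rw [h0, hx]
      · right
        rw [mem_sec, rim_arc, rim_arc] at h
        have h1 : D.tau m' = D.row m e := by
          rcases h.2 with h1 | h1
          · exact h1.2.1
          · exact h1.2.1
        have h2 : l = m ∨ rot l = m := by
          rcases h.2 with h1 | h1
          · exact Or.inl h1.1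
          · exact Or.inr h1.1
        obtain ⟨h3, h4⟩ := a6 m' l h1 hl h2
        subst h4
        rw [h0, h1, ← h.1]
    · rintro (h | h)
      · refine Or.inr ⟨m, hm, Or.inl ⟨by rw [h, hx], ?_⟩⟩
        rw [mem_ann2]
        exact Or.inr ⟨e, by rw [ho, hx]⟩
      · refine Or.inr ⟨m0, a1, Or.inr ⟨l0, a4, ?_, ?_⟩⟩
        · rw [h, a2, a3, ho]
        · rw [mem_sec, rim_arc, rim_arc]
          refine ⟨by rw [a3, ho], ?_⟩
          rcases a5 with ⟨b1, b2⟩ | ⟨b1, b2⟩
          · exact Or.inl ⟨b1, a2, hx.trans b2⟩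
          · exact Or.inr ⟨b1, a2, hx.trans b2⟩
  · -- seg
    obtain ⟨l', hl'⟩ := rot_surj m
    have hfact : ∃ m1 ∈ κ.1, D.tau m1 = k ∧ o' = (o ^^ D.del m1 ^^ (D.c m1).bodd) ∧
        (if (v ^^ D.eps m1) then cyc (D.next m1) m1 m else cyc m1 (D.next m1) m) = true ∧
        (if (v ^^ D.eps m1) then cyc (D.next m1) m1 l' else cyc m1 (D.next m1) l') = true := by
      rcases (hdesc p0).1 ⟨hp0, hr0⟩ with ⟨w, -, h⟩ | ⟨m', hm', ⟨-, h⟩ | ⟨l, hl, -, h⟩⟩
      · rw [mem_dsk2] at h
        obtain ⟨m', hm', h | ⟨e', h⟩⟩ := h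
        · simp only [Prod.mk.injEq, reduceCtorEq, false_and] at h
        · simp only [Prod.mk.injEq, reduceCtorEq, false_and] at h
      · rw [mem_ann2] at h
        rcases h with ⟨s', h⟩ | ⟨e, h⟩
        · simp only [Prod.mk.injEq, reduceCtorEq, false_and] at h
        · simp only [Prod.mk.injEq, reduceCtorEq, false_and] at h
      · rw [mem_sec, rim_seg, rim_seg] at h
        have h1 : D.tau m' = k := by
          rcases h.2 with h1 | h1
          · exact h1.2
          · exact h1.2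
        have n1 : m ≠ m' := by
          intro h2
          rw [← h2] at h1
          exact hk.2 h1.symm
        have n2 : m ≠ D.next m' := by
          intro h2
          apply hk.1
          rw [h2, sig_next, h1]
        have nn := next_ne (D := D) m'
        have c1 : cyc (D.next m') m' m = cyc (D.next m') m' l' := by
          have h2 := cyc_rot (k := l') nn (by rw [hl']; exact n2) (by rw [hl']; exact n1)
          rw [hl'] at h2
          exact h2
        have c2 : cyc m' (D.next m') m = cyc m' (D.next m') l' := by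
          have h2 := cyc_rot (k := l') nn.symm (by rw [hl']; exact n1) (by rw [hl']; exact n2)
          rw [hl'] at h2
          exact h2
        refine ⟨m', hm', h1, h.1, ?_⟩
        rcases h.2 with h2 | h2
        · have h3 : l = m := h2.1
          subst h3
          refine ⟨hl, ?_⟩
          rw [← c1, ← c2]
          exact hl
        · have h3 : l = l' := rot_inj (h2.1.trans hl'.symm)
          subst h3
          refine ⟨?_, hl⟩
          rw [c1, c2]
          exact hl
    obtain ⟨m1, hm1, hk1, ho, i1, i2⟩ := hfact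
    refine ⟨(.sec m k, o'), (.sec l' k, o'), ?_, fun p => ?_⟩
    · intro h
      simp only [Prod.mk.injEq, QCell.sec.injEq, and_true] at h
      rw [← h] at hl'
      exact rot_ne D m hl'
    refine (hdesc p).trans ?_
    constructor
    · rintro (⟨w, h0, h⟩ | ⟨m', hm', ⟨h0, h⟩ | ⟨l, hl, h0, h⟩⟩)
      · rw [mem_dsk2] at h
        obtain ⟨m', hm', h | ⟨e', h⟩⟩ := h
        · simp only [Prod.mk.injEq, reduceCtorEq, false_and] at h
        · simp only [Prod.mk.injEq, reduceCtorEq, false_and] at h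
      · rw [mem_ann2] at h
        rcases h with ⟨s', h⟩ | ⟨e, h⟩
        · simp only [Prod.mk.injEq, reduceCtorEq, false_and] at h
        · simp only [Prod.mk.injEq, reduceCtorEq, false_and] at h
      · rw [mem_sec, rim_seg, rim_seg] at h
        rcases h.2 with h2 | h2
        · left
          rw [h0, h2.1, h2.2, ← h.1]
        · right
          have h3 : l = l' := rot_inj (h2.1.trans hl'.symm)
          rw [h0, h3, h2.2, ← h.1]
    · rintro (h | h)
      · refine Or.inr ⟨m1, hm1, Or.inr ⟨m, i1, by rw [h, hk1, ho], ?_⟩⟩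
        rw [mem_sec, rim_seg, rim_seg]
        exact ⟨ho, Or.inl ⟨rfl, hk1⟩⟩
      · refine Or.inr ⟨m1, hm1, Or.inr ⟨l', i2, by rw [h, hk1, ho], ?_⟩⟩
        rw [mem_sec, rim_seg, rim_seg]
        exact ⟨ho, Or.inr ⟨hl', hk1⟩⟩

end Pool.MP_f18604_gt.LS
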