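import Mathlib
import Pool.Agent.Helper7.LS.Cyc

/-!
# LS-31: the boundary of a chamber is a closed surface

All cells are in the sheet `o`. Put `m' = rot m ≠ m`.  The edges and their two 2-cells:
* `ax k`: `page m (side m k)`, `page m' (side m' k)`;
* `seg l k`, `l = m` or `l = m'`: `page l (side l k)`, `sec m k`;
* `leg l e s`: `page l s`, `sec m (row l e)`;
* `lon m 0 s`: `page m s`, `ann m 0 false`; `lon m' 0 s`: `page m' s`, `ann m' 0 true`;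
* `arc m e false`: `ann m 0 false`, `sec m (row m e)`; `arc m' e true`: `ann m' 0 true`, `sec m (row m' e)`.
-/

set_option autoImplicit false

namespace Pool.MP_f18604_gt.LS

variable {N : ℕ} {D : Diagram N}

private theorem ch_page (l : Fin N) (s o : Bool) (q : QCell D) (o' : Bool) :
    (q, o') ∈ (QCell.page l s : QCell D).bd o ↔ o' = o ∧ ((∃ k, D.side l k = s ∧ q = .ax k) ∨
      (∃ k h, D.side l k = s ∧ q = .seg l k h) ∨ q = .leg l false s ∨ q = .leg l true s ∨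
      q = .lon l 0 s) := by
  simp only [QCell.bd, List.mem_append, List.mem_map, List.mem_filter, List.mem_flatMap,
    List.mem_finRange, true_and, List.mem_cons, List.not_mem_nil, or_false, Prod.mk.injEq,
    decide_eq_true_eq]
  constructor
  · rintro ((⟨k, hk, h1, h2⟩ | ⟨k, hk⟩) | ⟨h1, h2⟩ | ⟨h1, h2⟩ | ⟨h1, h2⟩)
    · exact ⟨h2.symm, Or.inl ⟨k, hk, h1.symm⟩⟩
    · split_ifs at hk with h3 h4
      · rw [List.mem_singleton, Prod.mk.injEq] at hk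
        exact ⟨hk.2, Or.inr (Or.inl ⟨k, h3, h4, hk.1⟩)⟩
      · simp at hk
      · simp at hk
    · exact ⟨h2, Or.inr (Or.inr (Or.inl h1))⟩
    · exact ⟨h2, Or.inr (Or.inr (Or.inr (Or.inl h1)))⟩
    · exact ⟨h2, Or.inr (Or.inr (Or.inr (Or.inr h1)))⟩
  · rintro ⟨rfl, ⟨k, hk, h1⟩ | ⟨k, h, hk, h1⟩ | h1 | h1 | h1⟩
    · exact Or.inl (Or.inl ⟨k, hk, h1.symm, rfl⟩)
    · refine Or.inl (Or.inr ⟨k, ?_⟩)
      rw [dif_pos h, if_pos hk, List.mem_singleton, h1]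
    · exact Or.inr (Or.inl ⟨h1, rfl⟩)
    · exact Or.inr (Or.inr (Or.inl ⟨h1, rfl⟩))
    · exact Or.inr (Or.inr (Or.inr ⟨h1, rfl⟩))

private theorem ch_ann (l : Fin N) (x o : Bool) (q : QCell D) (o' : Bool) :
    (q, o') ∈ (QCell.ann l 0 x : QCell D).bd o ↔ o' = o ∧ ((∃ s, q = .lon l 0 s) ∨
      ∃ e, q = .arc l e x) := by
  simp only [QCell.bd, List.mem_cons, List.not_mem_nil, or_false, Prod.mk.injEq]
  have h0 : (o ^^ ((0 : Fin (D.c l + 1)).val).bodd) = o := by simp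
  rw [h0]
  constructor
  · rintro (⟨h1, h2⟩ | ⟨h1, h2⟩ | ⟨h1, h2⟩ | ⟨h1, h2⟩)
    · exact ⟨h2, Or.inl ⟨_, h1⟩⟩
    · exact ⟨h2, Or.inl ⟨_, h1⟩⟩
    · exact ⟨h2, Or.inr ⟨_, h1⟩⟩
    · exact ⟨h2, Or.inr ⟨_, h1⟩⟩
  · rintro ⟨rfl, ⟨s, h1⟩ | ⟨e, h1⟩⟩
    · cases s
      · exact Or.inl ⟨h1, rfl⟩
      · exact Or.inr (Or.inl ⟨h1, rfl⟩)
    · cases e
      · exact Or.inr (Or.inr (Or.inl ⟨h1, rfl⟩))
      · exact Or.inr (Or.inr (Or.inr ⟨h1, rfl⟩))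

private theorem ch_rim (l k : Fin N) (x : Bool) (q : QCell D) :
    q ∈ (QCell.rim l k x : List (QCell D)) ↔ (∃ h, q = .seg l k h) ∨
      ∃ e, k = D.row l e ∧ (q = .arc l e x ∨ ∃ s, q = .leg l e s) := by
  unfold QCell.rim
  have hne := D.ne l
  split_ifs with h1 h2
  · simp only [List.mem_cons, List.not_mem_nil, or_false]
    constructor
    · rintro (h | h | h)
      · exact Or.inr ⟨false, h1, Or.inr ⟨_, h⟩⟩
      · exact Or.inr ⟨false, h1, Or.inr ⟨_, h⟩⟩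
      · exact Or.inr ⟨false, h1, Or.inl h⟩
    · rintro (⟨h, _⟩ | ⟨e, he, h⟩)
      · exact absurd h1 h.1
      · cases e
        · rcases h with h | ⟨s, h⟩
          · exact Or.inr (Or.inr h)
          · cases s
            · exact Or.inl h
            · exact Or.inr (Or.inl h)
        · exact absurd (h1.symm.trans he) hne
  · simp only [List.mem_cons, List.not_mem_nil, or_false]
    constructor
    · rintro (h | h | h)
      · exact Or.inr ⟨true, h2, Or.inr ⟨_, h⟩⟩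
      · exact Or.inr ⟨true, h2, Or.inr ⟨_, h⟩⟩
      · exact Or.inr ⟨true, h2, Or.inl h⟩
    · rintro (⟨h, _⟩ | ⟨e, he, h⟩)
      · exact absurd h2 h.2
      · cases e
        · exact absurd he h1
        · rcases h with h | ⟨s, h⟩
          · exact Or.inr (Or.inr h)
          · cases s
            · exact Or.inl h
            · exact Or.inr (Or.inl h)
  · simp only [List.mem_singleton]
    constructor
    · intro h
      exact Or.inl ⟨⟨h1, h2⟩, h⟩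
    · rintro (⟨h, h'⟩ | ⟨e, he, h⟩)
      · exact h'
      · cases e
        · exact absurd he h1
        · exact absurd he h2

private theorem ch_sec (m k : Fin N) (o : Bool) (q : QCell D) (o' : Bool) :
    (q, o') ∈ (QCell.sec m k : QCell D).bd o ↔ o' = o ∧
      (q ∈ (QCell.rim m k false : List (QCell D)) ∨
        q ∈ (QCell.rim (rot m) k true : List (QCell D))) := by
  simp only [QCell.bd, List.mem_map, List.mem_append, Prod.mk.injEq]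
  constructor
  · rintro ⟨a, h, rfl, rfl⟩
    exact ⟨rfl, h⟩
  · rintro ⟨rfl, h⟩
    exact ⟨q, h, rfl, rfl⟩

/-- the facets of a chamber and their edges -/
private theorem ch_iff (m : Fin N) (o : Bool) (q : QCell D) (o' : Bool) (p : QCell D × Bool) :
    (p ∈ (QCell.chamber m : QCell D).bd o ∧ (q, o') ∈ p.1.bd p.2) ↔ o' = o ∧
      ((∃ l s, (l = m ∨ l = rot m) ∧ p = (.page l s, o) ∧
          ((∃ k, D.side l k = s ∧ q = .ax k) ∨ (∃ k h, D.side l k = s ∧ q = .seg l k h) ∨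
            (∃ e, q = .leg l e s) ∨ q = .lon l 0 s)) ∨
        (p = (.ann m 0 false, o) ∧ ((∃ s, q = .lon m 0 s) ∨ ∃ e, q = .arc m e false)) ∨
        (p = (.ann (rot m) 0 true, o) ∧
          ((∃ s, q = .lon (rot m) 0 s) ∨ ∃ e, q = .arc (rot m) e true)) ∨
        ∃ k, p = (.sec m k, o) ∧
          (((∃ h, q = .seg m k h) ∨ ∃ e, k = D.row m e ∧ (q = .arc m e false ∨ ∃ s, q = .leg m e s)) ∨
          (∃ h, q = .seg (rot m) k h) ∨
            ∃ e, k = D.row (rot m) e ∧ (q = .arc (rot m) e true ∨ ∃ s, q = .leg (rot m) e s))) := by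
  have hP : p ∈ (QCell.chamber m : QCell D).bd o ↔
      (∃ l s, (l = m ∨ l = rot m) ∧ p = (.page l s, o)) ∨ p = (.ann m 0 false, o) ∨
        p = (.ann (rot m) 0 true, o) ∨ ∃ k, p = (.sec m k, o) := by
    simp only [QCell.bd, List.mem_append, List.mem_cons, List.not_mem_nil, or_false, List.mem_map,
      List.mem_finRange, true_and]
    constructor
    · rintro ((h | h | h | h | h | h) | ⟨k, h⟩)
      · exact Or.inl ⟨_, _, Or.inl rfl, h⟩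
      · exact Or.inl ⟨_, _, Or.inl rfl, h⟩
      · exact Or.inl ⟨_, _, Or.inr rfl, h⟩
      · exact Or.inl ⟨_, _, Or.inr rfl, h⟩
      · exact Or.inr (Or.inl h)
      · exact Or.inr (Or.inr (Or.inl h))
      · exact Or.inr (Or.inr (Or.inr ⟨k, h.symm⟩))
    · rintro (⟨l, s, rfl | rfl, h⟩ | h | h | ⟨k, h⟩)
      · cases s
        · exact Or.inl (Or.inl h)
        · exact Or.inl (Or.inr (Or.inl h))
      · cases s
        · exact Or.inl (Or.inr (Or.inr (Or.inl h)))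
        · exact Or.inl (Or.inr (Or.inr (Or.inr (Or.inl h))))
      · exact Or.inl (Or.inr (Or.inr (Or.inr (Or.inr (Or.inl h)))))
      · exact Or.inl (Or.inr (Or.inr (Or.inr (Or.inr (Or.inr h)))))
      · exact Or.inr ⟨k, h.symm⟩
  rw [hP]
  constructor
  · rintro ⟨⟨l, s, hl, rfl⟩ | rfl | rfl | ⟨k, rfl⟩, h⟩
    · obtain ⟨h1, h2⟩ := (ch_page l s o q o').1 h
      refine ⟨h1, Or.inl ⟨l, s, hl, rfl, ?_⟩⟩
      rcases h2 with h2 | h2 | h2 | h2 | h2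
      · exact Or.inl h2
      · exact Or.inr (Or.inl h2)
      · exact Or.inr (Or.inr (Or.inl ⟨_, h2⟩))
      · exact Or.inr (Or.inr (Or.inl ⟨_, h2⟩))
      · exact Or.inr (Or.inr (Or.inr h2))
    · obtain ⟨h1, h2⟩ := (ch_ann m false o q o').1 h
      exact ⟨h1, Or.inr (Or.inl ⟨rfl, h2⟩)⟩
    · obtain ⟨h1, h2⟩ := (ch_ann (rot m) true o q o').1 h
      exact ⟨h1, Or.inr (Or.inr (Or.inl ⟨rfl, h2⟩))⟩
    · obtain ⟨h1, h2⟩ := (ch_sec m k o q o').1 h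
      rw [ch_rim, ch_rim] at h2
      exact ⟨h1, Or.inr (Or.inr (Or.inr ⟨k, rfl, h2⟩))⟩
  · rintro ⟨h1, ⟨l, s, hl, rfl, h2⟩ | ⟨rfl, h2⟩ | ⟨rfl, h2⟩ | ⟨k, rfl, h2⟩⟩
    · refine ⟨Or.inl ⟨l, s, hl, rfl⟩, (ch_page l s o q o').2 ⟨h1, ?_⟩⟩
      rcases h2 with h2 | h2 | ⟨e, h2⟩ | h2
      · exact Or.inl h2
      · exact Or.inr (Or.inl h2)
      · cases e
        · exact Or.inr (Or.inr (Or.inl h2))
        · exact Or.inr (Or.inr (Or.inr (Or.inl h2)))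
      · exact Or.inr (Or.inr (Or.inr (Or.inr h2)))
    · exact ⟨Or.inr (Or.inl rfl), (ch_ann m false o q o').2 ⟨h1, h2⟩⟩
    · exact ⟨Or.inr (Or.inr (Or.inl rfl)), (ch_ann (rot m) true o q o').2 ⟨h1, h2⟩⟩
    · refine ⟨Or.inr (Or.inr (Or.inr ⟨k, rfl⟩)), (ch_sec m k o q o').2 ⟨h1, ?_⟩⟩
      rw [ch_rim, ch_rim]
      exact h2

theorem dia_chamber (m : Fin N) (o : Bool) (r : QCell D × Bool)
    (h : ∃ p ∈ (QCell.chamber m : QCell D).bd o, r ∈ p.1.bd p.2) :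
    Two fun p => p ∈ (QCell.chamber m : QCell D).bd o ∧ r ∈ p.1.bd p.2 := by
  obtain ⟨q, o'⟩ := r
  obtain ⟨p0, hp0⟩ := h
  rw [ch_iff] at hp0
  obtain ⟨rfl, hp0⟩ := hp0
  have hm : rot m ≠ m := rot_ne D m
  simp only [ch_iff, true_and]
  cases q with
  | up k => simp at hp0
  | dn k => simp at hp0
  | pt l e s => simp at hp0
  | page l s => simp at hp0
  | sec l k => simp at hp0
  | ann l j x => simp at hp0
  | disc l j => simp at hp0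
  | dsk κ w => simp at hp0
  | chamber l => simp at hp0
  | ball κ v => simp at hp0
  | ax k =>
    refine ⟨(.page m (D.side m k), o'), (.page (rot m) (D.side (rot m) k), o'), ?_, fun p => ?_⟩
    · intro h
      simp only [Prod.mk.injEq, QCell.page.injEq] at h
      exact hm h.1.1.symm
    · simp only [QCell.ax.injEq, reduceCtorEq, exists_false, or_false, and_false]
      constructor
      · rintro ⟨l, s, rfl | rfl, rfl, k', h1, rfl⟩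
        · rw [h1]; exact Or.inl rfl
        · rw [h1]; exact Or.inr rfl
      · rintro (rfl | rfl)
        · exact ⟨m, _, Or.inl rfl, rfl, k, rfl, rfl⟩
        · exact ⟨rot m, _, Or.inr rfl, rfl, k, rfl, rfl⟩
  | seg l k hk =>
    have hl : l = m ∨ l = rot m := by
      rcases hp0 with ⟨l', s, hl', _, ⟨_, _, h⟩ | ⟨_, _, _, h⟩ | ⟨_, h⟩ | h⟩ |
        ⟨_, ⟨_, h⟩ | ⟨_, h⟩⟩ | ⟨_, ⟨_, h⟩ | ⟨_, h⟩⟩ |
        ⟨k', _, (⟨_, h⟩ | ⟨_, _, h | ⟨_, h⟩⟩) | ⟨_, h⟩ | ⟨_, _, h | ⟨_, h⟩⟩⟩ <;> cases h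
      · exact hl'
      · exact Or.inl rfl
      · exact Or.inr rfl
    refine ⟨(.page l (D.side l k), o'), (.sec m k, o'), ?_, fun p => ?_⟩
    · intro h
      simp only [Prod.mk.injEq, reduceCtorEq, false_and] at h
    · constructor
      · rintro (⟨l', s, hl', rfl, ⟨_, _, h⟩ | ⟨_, _, h0, h⟩ | ⟨_, h⟩ | h⟩ |
          ⟨_, ⟨_, h⟩ | ⟨_, h⟩⟩ | ⟨_, ⟨_, h⟩ | ⟨_, h⟩⟩ |
          ⟨k', rfl, (⟨_, h⟩ | ⟨_, _, h | ⟨_, h⟩⟩) | ⟨_, h⟩ | ⟨_, _, h | ⟨_, h⟩⟩⟩) <;> cases h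
        · rw [h0]; exact Or.inl rfl
        · exact Or.inr rfl
        · exact Or.inr rfl
      · rintro (rfl | rfl)
        · exact Or.inl ⟨l, _, hl, rfl, Or.inr (Or.inl ⟨k, hk, rfl, rfl⟩)⟩
        · rcases hl with rfl | rfl
          · exact Or.inr (Or.inr (Or.inr ⟨k, rfl, Or.inl (Or.inl ⟨hk, rfl⟩)⟩))
          · exact Or.inr (Or.inr (Or.inr ⟨k, rfl, Or.inr (Or.inl ⟨hk, rfl⟩)⟩))
  | leg l e s =>
    have hl : l = m ∨ l = rot m := by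
      rcases hp0 with ⟨l', s, hl', _, ⟨_, _, h⟩ | ⟨_, _, _, h⟩ | ⟨_, h⟩ | h⟩ |
        ⟨_, ⟨_, h⟩ | ⟨_, h⟩⟩ | ⟨_, ⟨_, h⟩ | ⟨_, h⟩⟩ |
        ⟨k', _, (⟨_, h⟩ | ⟨_, _, h | ⟨_, h⟩⟩) | ⟨_, h⟩ | ⟨_, _, h | ⟨_, h⟩⟩⟩ <;> cases h
      · exact hl'
      · exact Or.inl rfl
      · exact Or.inr rfl
    refine ⟨(.page l s, o'), (.sec m (D.row l e), o'), ?_, fun p => ?_⟩
    · intro h
      simp only [Prod.mk.injEq, reduceCtorEq, false_and] at h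
    · constructor
      · rintro (⟨l', s, hl', rfl, ⟨_, _, h⟩ | ⟨_, _, h0, h⟩ | ⟨_, h⟩ | h⟩ |
          ⟨_, ⟨_, h⟩ | ⟨_, h⟩⟩ | ⟨_, ⟨_, h⟩ | ⟨_, h⟩⟩ |
          ⟨k', rfl, (⟨_, h⟩ | ⟨_, h0, h | ⟨_, h⟩⟩) | ⟨_, h⟩ | ⟨_, h0, h | ⟨_, h⟩⟩⟩) <;> cases h
        · exact Or.inl rfl
        · rw [h0]; exact Or.inr rfl
        · rw [h0]; exact Or.inr rfl
      · rintro (rfl | rfl)
        · exact Or.inl ⟨l, _, hl, rfl, Or.inr (Or.inr (Or.inl ⟨e, rfl⟩))⟩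
        · rcases hl with rfl | rfl
          · exact Or.inr (Or.inr (Or.inr ⟨_, rfl, Or.inl (Or.inr ⟨e, rfl, Or.inr ⟨s, rfl⟩⟩)⟩))
          · exact Or.inr (Or.inr (Or.inr ⟨_, rfl, Or.inr (Or.inr ⟨e, rfl, Or.inr ⟨s, rfl⟩⟩)⟩))
  | arc l e x =>
    have hl : (l = m ∧ x = false) ∨ (l = rot m ∧ x = true) := by
      rcases hp0 with ⟨l', s, hl', _, ⟨_, _, h⟩ | ⟨_, _, _, h⟩ | ⟨_, h⟩ | h⟩ |
        ⟨_, ⟨_, h⟩ | ⟨_, h⟩⟩ | ⟨_, ⟨_, h⟩ | ⟨_, h⟩⟩ |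
        ⟨k', _, (⟨_, h⟩ | ⟨_, _, h | ⟨_, h⟩⟩) | ⟨_, h⟩ | ⟨_, _, h | ⟨_, h⟩⟩⟩ <;> cases h
      · exact Or.inl ⟨rfl, rfl⟩
      · exact Or.inr ⟨rfl, rfl⟩
      · exact Or.inl ⟨rfl, rfl⟩
      · exact Or.inr ⟨rfl, rfl⟩
    rcases hl with ⟨rfl, rfl⟩ | ⟨rfl, rfl⟩
    · refine ⟨(.ann l 0 false, o'), (.sec l (D.row l e), o'), ?_, fun p => ?_⟩
      · intro h
        simp only [Prod.mk.injEq, reduceCtorEq, false_and] at h
      · constructor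
        · rintro (⟨l', s, hl', rfl, ⟨_, _, h⟩ | ⟨_, _, h0, h⟩ | ⟨_, h⟩ | h⟩ |
            ⟨rfl, ⟨_, h⟩ | ⟨_, h⟩⟩ | ⟨rfl, ⟨_, h⟩ | ⟨_, h⟩⟩ |
            ⟨k', rfl, (⟨_, h⟩ | ⟨_, h0, h | ⟨_, h⟩⟩) | ⟨_, h⟩ | ⟨_, h0, h | ⟨_, h⟩⟩⟩)
          all_goals try (simp only [reduceCtorEq] at h; done)
          · exact Or.inl rfl
          · simp only [QCell.arc.injEq, Bool.false_eq_true, and_false] at h
          · simp only [QCell.arc.injEq, and_true, true_and] at h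
            rw [h0, h]; exact Or.inr rfl
          · simp only [QCell.arc.injEq, Bool.false_eq_true, and_false] at h
        · rintro (rfl | rfl)
          · exact Or.inr (Or.inl ⟨rfl, Or.inr ⟨e, rfl⟩⟩)
          · exact Or.inr (Or.inr (Or.inr ⟨_, rfl, Or.inl (Or.inr ⟨e, rfl, Or.inl rfl⟩)⟩))
    · refine ⟨(.ann (rot m) 0 true, o'), (.sec m (D.row (rot m) e), o'), ?_, fun p => ?_⟩
      · intro h
        simp only [Prod.mk.injEq, reduceCtorEq, false_and] at h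
      · constructor
        · rintro (⟨l', s, hl', rfl, ⟨_, _, h⟩ | ⟨_, _, h0, h⟩ | ⟨_, h⟩ | h⟩ |
            ⟨rfl, ⟨_, h⟩ | ⟨_, h⟩⟩ | ⟨rfl, ⟨_, h⟩ | ⟨_, h⟩⟩ |
            ⟨k', rfl, (⟨_, h⟩ | ⟨_, h0, h | ⟨_, h⟩⟩) | ⟨_, h⟩ | ⟨_, h0, h | ⟨_, h⟩⟩⟩)
          all_goals try (simp only [reduceCtorEq] at h; done)
          · simp only [QCell.arc.injEq, Bool.true_eq_false, and_false] at h
          · exact Or.inl rfl
          · simp only [QCell.arc.injEq, Bool.true_eq_false, and_false] at h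
          · simp only [QCell.arc.injEq, and_true, true_and] at h
            rw [h0, h]; exact Or.inr rfl
        · rintro (rfl | rfl)
          · exact Or.inr (Or.inr (Or.inl ⟨rfl, Or.inr ⟨e, rfl⟩⟩))
          · exact Or.inr (Or.inr (Or.inr ⟨_, rfl, Or.inr (Or.inr ⟨e, rfl, Or.inl rfl⟩)⟩))
  | lon l j s =>
    have hl : (l = m ∨ l = rot m) ∧ j = 0 := by
      rcases hp0 with ⟨l', s, hl', _, ⟨_, _, h⟩ | ⟨_, _, _, h⟩ | ⟨_, h⟩ | h⟩ |
        ⟨_, ⟨_, h⟩ | ⟨_, h⟩⟩ | ⟨_, ⟨_, h⟩ | ⟨_, h⟩⟩ |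
        ⟨k', _, (⟨_, h⟩ | ⟨_, _, h | ⟨_, h⟩⟩) | ⟨_, h⟩ | ⟨_, _, h | ⟨_, h⟩⟩⟩ <;> cases h
      · exact ⟨hl', rfl⟩
      · exact ⟨Or.inl rfl, rfl⟩
      · exact ⟨Or.inr rfl, rfl⟩
    obtain ⟨hl, rfl⟩ := hl
    have hinj : ∀ (l' : Fin N) (s' : Bool), (QCell.lon l 0 s : QCell D) = .lon l' 0 s' →
        l = l' ∧ s = s' := by
      intro l' s' h
      cases h
      exact ⟨rfl, rfl⟩
    rcases hl with rfl | rfl
    · refine ⟨(.page l s, o'), (.ann l 0 false, o'), ?_, fun p => ?_⟩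
      · intro h
        simp only [Prod.mk.injEq, reduceCtorEq, false_and] at h
      · constructor
        · rintro (⟨l', s, hl', rfl, ⟨_, _, h⟩ | ⟨_, _, h0, h⟩ | ⟨_, h⟩ | h⟩ |
            ⟨rfl, ⟨_, h⟩ | ⟨_, h⟩⟩ | ⟨rfl, ⟨_, h⟩ | ⟨_, h⟩⟩ |
            ⟨k', rfl, (⟨_, h⟩ | ⟨_, h0, h | ⟨_, h⟩⟩) | ⟨_, h⟩ | ⟨_, h0, h | ⟨_, h⟩⟩⟩)
          all_goals try (simp only [reduceCtorEq] at h; done)
          · obtain ⟨h1, h2⟩ := hinj _ _ h
            rw [h1, h2]; exact Or.inl rfl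
          · exact Or.inr rfl
          · exact absurd (hinj _ _ h).1.symm hm
        · rintro (rfl | rfl)
          · exact Or.inl ⟨l, _, Or.inl rfl, rfl, Or.inr (Or.inr (Or.inr rfl))⟩
          · exact Or.inr (Or.inl ⟨rfl, Or.inl ⟨s, rfl⟩⟩)
    · refine ⟨(.page (rot m) s, o'), (.ann (rot m) 0 true, o'), ?_, fun p => ?_⟩
      · intro h
        simp only [Prod.mk.injEq, reduceCtorEq, false_and] at h
      · constructor
        · rintro (⟨l', s, hl', rfl, ⟨_, _, h⟩ | ⟨_, _, h0, h⟩ | ⟨_, h⟩ | h⟩ |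
            ⟨rfl, ⟨_, h⟩ | ⟨_, h⟩⟩ | ⟨rfl, ⟨_, h⟩ | ⟨_, h⟩⟩ |
            ⟨k', rfl, (⟨_, h⟩ | ⟨_, h0, h | ⟨_, h⟩⟩) | ⟨_, h⟩ | ⟨_, h0, h | ⟨_, h⟩⟩⟩)
          all_goals try (simp only [reduceCtorEq] at h; done)
          · obtain ⟨h1, h2⟩ := hinj _ _ h
            rw [← h1, h2]; exact Or.inl rfl
          · exact absurd (hinj _ _ h).1 hm
          · exact Or.inr rfl
        · rintro (rfl | rfl)
          · exact Or.inl ⟨rot m, _, Or.inr rfl, rfl, Or.inr (Or.inr (Or.inr rfl))⟩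
          · exact Or.inr (Or.inr (Or.inl ⟨rfl, Or.inl ⟨s, rfl⟩⟩))

end Pool.MP_f18604_gt.LS
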