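import Mathlib
import Pool.Agent.Helper7.LS.Orb

/-!
# LS-30: the boundary of `dsk` is a cycle

For `m ∈ κ` put `s m = w ^^ eps m ^^ del m`, `o m = o ^^ del m`, `p m = (c m).bodd`. By `eps_next`, `del_next`: `o (next m) = o m ^^ p m` and `s (next m) = !(s m ^^ p m)`.
The vertices and their two edges:
* `(pt m false (s m), o m)`: `lon m last (s m)`, `leg m false (s m)`;
* `(pt m true (s m ^^ p m), o m ^^ p m)`: `lon m last (s m)`, `leg m true (s m ^^ p m)`;
* the end on the axis of `leg m true (s m ^^ p m)` is `up (tau m)` if `s m ^^ p m = true` and `dn (tau m)` otherwise; the end on the axis of `leg m' false (s m')`, `m' = next m`,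
  `sig m' = tau m`, is `up (tau m)` if `s m' = false` and `dn (tau m)` otherwise: the same vertex in the same sheet; these are its two edges (`leg m' false` and `leg m true` determine
  each other: `tau` and `sig` are injective; `next_mem`).
-/

set_option autoImplicit false

namespace Pool.MP_f18604_gt.LS

variable {N : ℕ} {D : Diagram N}

private def dS (D : Diagram N) (w : Bool) (m : Fin N) : Bool := w ^^ D.eps m ^^ D.del m

private def dO (D : Diagram N) (o : Bool) (m : Fin N) : Bool := o ^^ D.del m

private def dP (D : Diagram N) (m : Fin N) : Bool := (D.c m).bodd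

private def dL (D : Diagram N) (w o : Bool) (m : Fin N) : QCell D × Bool :=
  (.lon m (Fin.last _) (dS D w m), dO D o m)

private def dA (D : Diagram N) (w o : Bool) (m : Fin N) : QCell D × Bool :=
  (.leg m false (dS D w m), dO D o m)

private def dB (D : Diagram N) (w o : Bool) (m : Fin N) : QCell D × Bool :=
  (.leg m true (dS D w m ^^ dP D m), dO D o m ^^ dP D m)

/-- the end of `dB m` on the axis, and of `dA (next m)` -/
private def dV (D : Diagram N) (w o : Bool) (m : Fin N) : QCell D × Bool :=
  (if (dS D w m ^^ dP D m) = true then .up (D.tau m) else .dn (D.tau m), dO D o m ^^ dP D m)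

private theorem mem_dsk (κ : D.Comp) (w o : Bool) (p : QCell D × Bool) :
    p ∈ (QCell.dsk κ w : QCell D).bd o ↔
      ∃ m ∈ κ.1, p = dL D w o m ∨ p = dA D w o m ∨ p = dB D w o m := by
  simp only [QCell.bd, List.mem_flatMap, List.mem_filter, List.mem_finRange, true_and,
    decide_eq_true_eq, List.mem_cons, List.not_mem_nil, or_false, dL, dA, dB, dS, dO, dP]

private theorem dS_next (w : Bool) (m : Fin N) :
    dS D w (D.next m) = !(dS D w m ^^ dP D m) := by
  unfold dS dP
  have h1 : D.eps (D.next m) = !D.eps m := D.eps_next m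
  have h2 : D.del (D.next m) = (D.del m ^^ (D.c m).bodd) := D.del_next m
  rw [h1, h2]
  cases w <;> cases D.eps m <;> cases D.del m <;> cases (D.c m).bodd <;> rfl

private theorem dO_next (o : Bool) (m : Fin N) :
    dO D o (D.next m) = (dO D o m ^^ dP D m) := by
  unfold dO dP
  have h2 : D.del (D.next m) = (D.del m ^^ (D.c m).bodd) := D.del_next m
  rw [h2]
  cases o <;> cases D.del m <;> cases (D.c m).bodd <;> rfl

private theorem mem_dL (w o : Bool) (m : Fin N) (r : QCell D × Bool) :
    r ∈ (dL D w o m).1.bd (dL D w o m).2 ↔ r = (.pt m false (dS D w m), dO D o m) ∨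
      r = (.pt m true (dS D w m ^^ dP D m), dO D o m ^^ dP D m) := by
  unfold dL dP
  simp only [QCell.bd, List.mem_cons, List.not_mem_nil, or_false, Fin.val_last]

private theorem mem_dA (w o : Bool) (m : Fin N) (r : QCell D × Bool) :
    r ∈ (dA D w o (D.next m)).1.bd (dA D w o (D.next m)).2 ↔
      r = (.pt (D.next m) false (dS D w (D.next m)), dO D o (D.next m)) ∨ r = dV D w o m := by
  unfold dA
  simp only [QCell.bd, List.mem_cons, List.not_mem_nil, or_false]
  have h1 : ((if dS D w (D.next m) = false then QCell.up (D.row (D.next m) false)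
      else .dn (D.row (D.next m) false), dO D o (D.next m)) : QCell D × Bool) = dV D w o m := by
    have h2 : D.row (D.next m) false = D.tau m := by
      unfold Diagram.row
      simp only [Bool.false_eq_true, if_false]
      exact sig_next m
    unfold dV
    rw [h2, dS_next, dO_next]
    cases (dS D w m ^^ dP D m) <;> simp
  rw [h1]

private theorem mem_dB (w o : Bool) (m : Fin N) (r : QCell D × Bool) :
    r ∈ (dB D w o m).1.bd (dB D w o m).2 ↔
      r = (.pt m true (dS D w m ^^ dP D m), dO D o m ^^ dP D m) ∨ r = dV D w o m := by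
  unfold dB
  simp only [QCell.bd, List.mem_cons, List.not_mem_nil, or_false]
  have h2 : D.row m true = D.tau m := by
    unfold Diagram.row
    simp only [if_true]
  rw [h2]
  rfl

private theorem dV_inj {w o : Bool} {m m' : Fin N} (h : dV D w o m = dV D w o m') : m = m' := by
  unfold dV at h
  have h1 := congrArg Prod.fst h
  simp only at h1
  split_ifs at h1 <;> simp only [QCell.up.injEq, QCell.dn.injEq] at h1 <;>
    exact D.tau.injective h1

private theorem dV_ne_pt {w o : Bool} {m m' : Fin N} {e s o' : Bool} :
    dV D w o m ≠ (.pt m' e s, o') := by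
  intro h
  unfold dV at h
  have h1 := congrArg Prod.fst h
  simp only at h1
  split_ifs at h1

theorem dia_dsk (κ : D.Comp) (w o : Bool) (r : QCell D × Bool)
    (h : ∃ p ∈ (QCell.dsk κ w : QCell D).bd o, r ∈ p.1.bd p.2) :
    Two fun p => p ∈ (QCell.dsk κ w : QCell D).bd o ∧ r ∈ p.1.bd p.2 := by
  have hprev : ∀ m : Fin N, ∃ n, D.next n = m := fun m => ⟨D.next.symm m, D.next.apply_symm_apply m⟩
  -- the three kinds of vertices
  have key : ∃ m ∈ κ.1, r = (.pt m false (dS D w m), dO D o m) ∨
      r = (.pt m true (dS D w m ^^ dP D m), dO D o m ^^ dP D m) ∨ r = dV D w o m := by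
    obtain ⟨p, hp, hr⟩ := h
    rw [mem_dsk] at hp
    obtain ⟨m, hm, rfl | rfl | rfl⟩ := hp
    · rw [mem_dL] at hr
      exact ⟨m, hm, hr.elim Or.inl fun h => Or.inr (Or.inl h)⟩
    · obtain ⟨n, rfl⟩ := hprev m
      rw [mem_dA] at hr
      rcases hr with hr | hr
      · exact ⟨_, hm, Or.inl hr⟩
      · exact ⟨n, (next_mem κ n).1 hm, Or.inr (Or.inr hr)⟩
    · rw [mem_dB] at hr
      exact ⟨m, hm, Or.inr hr⟩
  obtain ⟨m, hm, hr⟩ := key
  rcases hr with rfl | rfl | rfl
  · refine ⟨dL D w o m, dA D w o m, ?_, fun p => ?_⟩
    · intro h1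
      have h2 := congrArg Prod.fst h1
      simp only [dL, dA, reduceCtorEq] at h2
    · constructor
      · rintro ⟨hp, hr⟩
        rw [mem_dsk] at hp
        obtain ⟨m', hm', rfl | rfl | rfl⟩ := hp
        · rw [mem_dL] at hr
          rcases hr with hr | hr
          · have h2 := congrArg Prod.fst hr
            simp only [QCell.pt.injEq] at h2
            rw [h2.1]
            exact Or.inl rfl
          · have h2 := congrArg Prod.fst hr
            simp only [QCell.pt.injEq] at h2
            exact absurd h2.2.1 (by decide)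
        · obtain ⟨n, rfl⟩ := hprev m'
          rw [mem_dA] at hr
          rcases hr with hr | hr
          · have h2 := congrArg Prod.fst hr
            simp only [QCell.pt.injEq] at h2
            rw [h2.1]
            exact Or.inr rfl
          · exact absurd hr.symm dV_ne_pt
        · rw [mem_dB] at hr
          rcases hr with hr | hr
          · have h2 := congrArg Prod.fst hr
            simp only [QCell.pt.injEq] at h2
            exact absurd h2.2.1 (by decide)
          · exact absurd hr.symm dV_ne_pt
      · rintro (rfl | rfl)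
        · exact ⟨(mem_dsk κ w o _).2 ⟨m, hm, Or.inl rfl⟩, (mem_dL w o m _).2 (Or.inl rfl)⟩
        · refine ⟨(mem_dsk κ w o _).2 ⟨m, hm, Or.inr (Or.inl rfl)⟩, ?_⟩
          obtain ⟨n, rfl⟩ := hprev m
          exact (mem_dA w o n _).2 (Or.inl rfl)
  · refine ⟨dL D w o m, dB D w o m, ?_, fun p => ?_⟩
    · intro h1
      have h2 := congrArg Prod.fst h1
      simp only [dL, dB, reduceCtorEq] at h2
    · constructor
      · rintro ⟨hp, hr⟩
        rw [mem_dsk] at hp
        obtain ⟨m', hm', rfl | rfl | rfl⟩ := hp
        · rw [mem_dL] at hr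
          rcases hr with hr | hr
          · have h2 := congrArg Prod.fst hr
            simp only [QCell.pt.injEq] at h2
            exact absurd h2.2.1 (by decide)
          · have h2 := congrArg Prod.fst hr
            simp only [QCell.pt.injEq] at h2
            rw [h2.1]
            exact Or.inl rfl
        · obtain ⟨n, rfl⟩ := hprev m'
          rw [mem_dA] at hr
          rcases hr with hr | hr
          · have h2 := congrArg Prod.fst hr
            simp only [QCell.pt.injEq] at h2
            exact absurd h2.2.1 (by decide)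
          · exact absurd hr.symm dV_ne_pt
        · rw [mem_dB] at hr
          rcases hr with hr | hr
          · have h2 := congrArg Prod.fst hr
            simp only [QCell.pt.injEq] at h2
            rw [h2.1]
            exact Or.inr rfl
          · exact absurd hr.symm dV_ne_pt
      · rintro (rfl | rfl)
        · exact ⟨(mem_dsk κ w o _).2 ⟨m, hm, Or.inl rfl⟩, (mem_dL w o m _).2 (Or.inr rfl)⟩
        · exact ⟨(mem_dsk κ w o _).2 ⟨m, hm, Or.inr (Or.inr rfl)⟩, (mem_dB w o m _).2 (Or.inl rfl)⟩
  · refine ⟨dA D w o (D.next m), dB D w o m, ?_, fun p => ?_⟩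
    · intro h1
      have h2 := congrArg Prod.fst h1
      simp only [dA, dB, QCell.leg.injEq] at h2
      exact absurd h2.2.1 (by decide)
    · constructor
      · rintro ⟨hp, hr⟩
        rw [mem_dsk] at hp
        obtain ⟨m', hm', rfl | rfl | rfl⟩ := hp
        · rw [mem_dL] at hr
          rcases hr with hr | hr
          · exact absurd hr dV_ne_pt
          · exact absurd hr dV_ne_pt
        · obtain ⟨n, rfl⟩ := hprev m'
          rw [mem_dA] at hr
          rcases hr with hr | hr
          · exact absurd hr dV_ne_pt
          · rw [dV_inj hr]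
            exact Or.inl rfl
        · rw [mem_dB] at hr
          rcases hr with hr | hr
          · exact absurd hr dV_ne_pt
          · rw [dV_inj hr]
            exact Or.inr rfl
      · rintro (rfl | rfl)
        · exact ⟨(mem_dsk κ w o _).2 ⟨D.next m, (next_mem κ m).2 hm, Or.inr (Or.inl rfl)⟩,
            (mem_dA w o m _).2 (Or.inr rfl)⟩
        · exact ⟨(mem_dsk κ w o _).2 ⟨m, hm, Or.inr (Or.inr rfl)⟩, (mem_dB w o m _).2 (Or.inr rfl)⟩

end Pool.MP_f18604_gt.LS
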