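import Mathlib
import Pool.Agent.Helper7.LS.Cyc

/-!
# LS-27: the boundary of a page piece is a cycle

PROOF.  All cells are in the sheet `o`.  The vertices on the boundary and the two edges at each of them:
* `up k` (`side m k = s`): `ax k`, and `seg m k` if `k` is not a mark of column `m`, `leg m e s` if `k = row m e` (then `s = side m k = e`, `side_row`);
* `dn k`, `k = rot j` (`rot_surj`, `rot_inj`), `side m j = s`: `ax j`, and `seg m k` if `k` is not a mark (then `side m k = side m j`, `side_rot`), `leg m e s` if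
  `k = row m e` (then `s = side m j = !e`, `side_pred`);
* `pt m e s`: `leg m e s`, `lon m 0 s` (level 0: no twist).
-/

set_option autoImplicit false

namespace Pool.MP_f18604_gt.LS

variable {N : ℕ} {D : Diagram N}

/-- The edges of a page piece. -/
private theorem mem_page_bd (m : Fin N) (s o : Bool) (p : QCell D × Bool) :
    p ∈ (QCell.page m s : QCell D).bd o ↔ p.2 = o ∧ ((∃ k, D.side m k = s ∧ p.1 = .ax k) ∨
      (∃ k h, D.side m k = s ∧ p.1 = .seg m k h) ∨ (∃ e, p.1 = .leg m e s) ∨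
      p.1 = .lon m 0 s) := by
  obtain ⟨q, b⟩ := p
  simp only [QCell.bd, List.mem_append, List.mem_map, List.mem_filter, List.mem_finRange,
    true_and, decide_eq_true_eq, List.mem_flatMap, List.mem_cons, List.not_mem_nil, or_false,
    Prod.mk.injEq]
  constructor
  · rintro ((⟨k, hk, rfl, rfl⟩ | ⟨k, hk⟩) | (⟨rfl, rfl⟩ | ⟨rfl, rfl⟩ | ⟨rfl, rfl⟩))
    · exact ⟨rfl, Or.inl ⟨k, hk, rfl⟩⟩
    · by_cases h : k ≠ D.sig m ∧ k ≠ D.tau m
      · rw [dif_pos h] at hk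
        by_cases h2 : D.side m k = s
        · rw [if_pos h2] at hk
          simp only [List.mem_cons, List.not_mem_nil, or_false, Prod.mk.injEq] at hk
          obtain ⟨rfl, rfl⟩ := hk
          exact ⟨rfl, Or.inr (Or.inl ⟨k, h, h2, rfl⟩)⟩
        · rw [if_neg h2] at hk
          exact absurd hk (by simp)
      · rw [dif_neg h] at hk
        exact absurd hk (by simp)
    · exact ⟨rfl, Or.inr (Or.inr (Or.inl ⟨false, rfl⟩))⟩
    · exact ⟨rfl, Or.inr (Or.inr (Or.inl ⟨true, rfl⟩))⟩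
    · exact ⟨rfl, Or.inr (Or.inr (Or.inr rfl))⟩
  · rintro ⟨rfl, (⟨k, hk, rfl⟩ | ⟨k, h, hk, rfl⟩ | ⟨e, rfl⟩ | rfl)⟩
    · exact Or.inl (Or.inl ⟨k, hk, rfl, rfl⟩)
    · refine Or.inl (Or.inr ⟨k, ?_⟩)
      rw [dif_pos h, if_pos hk]
      simp
    · cases e
      · exact Or.inr (Or.inl ⟨rfl, rfl⟩)
      · exact Or.inr (Or.inr (Or.inl ⟨rfl, rfl⟩))
    · exact Or.inr (Or.inr (Or.inr ⟨rfl, rfl⟩))

private theorem mark_or (m k : Fin N) : (k ≠ D.sig m ∧ k ≠ D.tau m) ∨ ∃ e, D.row m e = k := by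
  by_cases h1 : k = D.sig m
  · exact Or.inr ⟨false, by simp [Diagram.row, h1]⟩
  · by_cases h2 : k = D.tau m
    · exact Or.inr ⟨true, by simp [Diagram.row, h2]⟩
    · exact Or.inl ⟨h1, h2⟩

private theorem row_inj {m : Fin N} {e e' : Bool} (h : D.row m e = D.row m e') : e = e' := by
  have h1 := side_row D m e
  rw [h, side_row] at h1
  exact h1.symm

private theorem not_mark_row {m k : Fin N} (h : k ≠ D.sig m ∧ k ≠ D.tau m) (e : Bool) :
    D.row m e ≠ k := by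
  cases e
  · exact fun h2 => h.1 (by rw [← h2]; simp [Diagram.row])
  · exact fun h2 => h.2 (by rw [← h2]; simp [Diagram.row])

/-- The edges of a page piece at a vertex `up k`. -/
private theorem page_up (m k : Fin N) (s o : Bool) (p : QCell D × Bool) :
    (p ∈ (QCell.page m s : QCell D).bd o ∧ ((.up k, o) : QCell D × Bool) ∈ p.1.bd p.2) ↔
      p.2 = o ∧ ((D.side m k = s ∧ p.1 = .ax k) ∨ (∃ h, D.side m k = s ∧ p.1 = .seg m k h) ∨
        (∃ e, p.1 = .leg m e s ∧ s = e ∧ D.row m e = k)) := by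
  obtain ⟨q, b⟩ := p
  rw [mem_page_bd]
  simp only
  constructor
  · rintro ⟨⟨rfl, (⟨j, hj, rfl⟩ | ⟨j, h, hj, rfl⟩ | ⟨e, rfl⟩ | rfl)⟩, h2⟩
    · simp [QCell.bd] at h2
      subst h2
      exact ⟨rfl, Or.inl ⟨hj, rfl⟩⟩
    · simp [QCell.bd] at h2
      subst h2
      exact ⟨rfl, Or.inr (Or.inl ⟨h, hj, rfl⟩)⟩
    · by_cases hs : s = e
      · subst hs
        simp [QCell.bd] at h2
        exact ⟨rfl, Or.inr (Or.inr ⟨s, rfl, rfl, h2.symm⟩)⟩
      · simp [QCell.bd, hs] at h2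
    · simp [QCell.bd] at h2
  · rintro ⟨rfl, (⟨hj, rfl⟩ | ⟨h, hj, rfl⟩ | ⟨e, rfl, rfl, hk⟩)⟩
    · exact ⟨⟨rfl, Or.inl ⟨k, hj, rfl⟩⟩, by simp [QCell.bd]⟩
    · exact ⟨⟨rfl, Or.inr (Or.inl ⟨k, h, hj, rfl⟩)⟩, by simp [QCell.bd]⟩
    · exact ⟨⟨rfl, Or.inr (Or.inr (Or.inl ⟨s, rfl⟩))⟩, by simp [QCell.bd, hk]⟩

/-- The edges of a page piece at a vertex `dn (rot j)`. -/
private theorem page_dn (m j : Fin N) (s o : Bool) (p : QCell D × Bool) :
    (p ∈ (QCell.page m s : QCell D).bd o ∧ ((.dn (rot j), o) : QCell D × Bool) ∈ p.1.bd p.2) ↔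
      p.2 = o ∧ ((D.side m j = s ∧ p.1 = .ax j) ∨
        (∃ h, D.side m (rot j) = s ∧ p.1 = .seg m (rot j) h) ∨
        (∃ e, p.1 = .leg m e s ∧ s ≠ e ∧ D.row m e = rot j)) := by
  obtain ⟨q, b⟩ := p
  rw [mem_page_bd]
  simp only
  constructor
  · rintro ⟨⟨rfl, (⟨i, hj, rfl⟩ | ⟨i, h, hj, rfl⟩ | ⟨e, rfl⟩ | rfl)⟩, h2⟩
    · simp [QCell.bd] at h2
      have h3 := rot_inj h2
      subst h3
      exact ⟨rfl, Or.inl ⟨hj, rfl⟩⟩
    · simp [QCell.bd] at h2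
      subst h2
      exact ⟨rfl, Or.inr (Or.inl ⟨h, hj, rfl⟩)⟩
    · by_cases hs : s = e
      · simp [QCell.bd, hs] at h2
      · simp [QCell.bd, hs] at h2
        exact ⟨rfl, Or.inr (Or.inr ⟨e, rfl, hs, h2.symm⟩)⟩
    · simp [QCell.bd] at h2
  · rintro ⟨rfl, (⟨hj, rfl⟩ | ⟨h, hj, rfl⟩ | ⟨e, rfl, hs, hk⟩)⟩
    · exact ⟨⟨rfl, Or.inl ⟨j, hj, rfl⟩⟩, by simp [QCell.bd]⟩
    · exact ⟨⟨rfl, Or.inr (Or.inl ⟨_, h, hj, rfl⟩)⟩, by simp [QCell.bd]⟩
    · exact ⟨⟨rfl, Or.inr (Or.inr (Or.inl ⟨e, rfl⟩))⟩, by simp [QCell.bd, hk, hs]⟩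

/-- The edges of a page piece at a vertex `pt m e s`. -/
private theorem page_pt (m : Fin N) (e s o : Bool) (p : QCell D × Bool) :
    (p ∈ (QCell.page m s : QCell D).bd o ∧ ((.pt m e s, o) : QCell D × Bool) ∈ p.1.bd p.2) ↔
      p = (.leg m e s, o) ∨ p = (.lon m 0 s, o) := by
  obtain ⟨q, b⟩ := p
  rw [mem_page_bd]
  simp only [Prod.mk.injEq]
  constructor
  · rintro ⟨⟨rfl, (⟨i, hj, rfl⟩ | ⟨i, h, hj, rfl⟩ | ⟨e', rfl⟩ | rfl)⟩, h2⟩
    · simp [QCell.bd] at h2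
    · simp [QCell.bd] at h2
    · by_cases hs : s = e'
      · simp [QCell.bd, hs] at h2
        subst h2
        exact Or.inl ⟨rfl, rfl⟩
      · simp [QCell.bd, hs] at h2
        subst h2
        exact Or.inl ⟨rfl, rfl⟩
    · exact Or.inr ⟨rfl, rfl⟩
  · rintro (⟨rfl, rfl⟩ | ⟨rfl, rfl⟩)
    · exact ⟨⟨rfl, Or.inr (Or.inr (Or.inl ⟨e, rfl⟩))⟩, by simp [QCell.bd]⟩
    · refine ⟨⟨rfl, Or.inr (Or.inr (Or.inr rfl))⟩, ?_⟩
      cases e <;> simp [QCell.bd]

/-- The three kinds of vertices of a page piece. -/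
private theorem page_kinds (m : Fin N) (s o : Bool) (r : QCell D × Bool)
    (h : ∃ p ∈ (QCell.page m s : QCell D).bd o, r ∈ p.1.bd p.2) :
    (∃ k, D.side m k = s ∧ r = (.up k, o)) ∨ (∃ j, D.side m j = s ∧ r = (.dn (rot j), o)) ∨
      ∃ e, r = (.pt m e s, o) := by
  obtain ⟨⟨q, b⟩, hp, hr⟩ := h
  rw [mem_page_bd] at hp
  simp only at hp hr
  obtain ⟨rfl, (⟨k, hk, rfl⟩ | ⟨k, h, hk, rfl⟩ | ⟨e, rfl⟩ | rfl)⟩ := hp
  · simp only [QCell.bd, List.mem_cons, List.not_mem_nil, or_false] at hr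
    rcases hr with hr | hr
    · exact Or.inl ⟨k, hk, hr⟩
    · exact Or.inr (Or.inl ⟨k, hk, hr⟩)
  · simp only [QCell.bd, List.mem_cons, List.not_mem_nil, or_false] at hr
    rcases hr with hr | hr
    · exact Or.inl ⟨k, hk, hr⟩
    · obtain ⟨j, rfl⟩ := rot_surj k
      refine Or.inr (Or.inl ⟨j, ?_, hr⟩)
      rw [← side_rot D h.1 h.2]
      exact hk
  · simp only [QCell.bd, List.mem_cons, List.not_mem_nil, or_false] at hr
    rcases hr with hr | hr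
    · exact Or.inr (Or.inr ⟨e, hr⟩)
    · by_cases hs : s = e
      · rw [if_pos hs] at hr
        exact Or.inl ⟨_, by rw [side_row, hs], hr⟩
      · rw [if_neg hs] at hr
        obtain ⟨j, hj⟩ := rot_surj (D.row m e)
        refine Or.inr (Or.inl ⟨j, ?_, by rw [hj]; exact hr⟩)
        rw [side_pred D hj]
        cases s <;> cases e <;> simp_all
  · simp only [QCell.bd, List.mem_cons, List.not_mem_nil, or_false] at hr
    rcases hr with hr | hr
    · exact Or.inr (Or.inr ⟨false, hr⟩)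
    · refine Or.inr (Or.inr ⟨true, ?_⟩)
      rw [hr]
      simp

theorem dia_page (m : Fin N) (s o : Bool) (r : QCell D × Bool)
    (h : ∃ p ∈ (QCell.page m s : QCell D).bd o, r ∈ p.1.bd p.2) :
    Two fun p => p ∈ (QCell.page m s : QCell D).bd o ∧ r ∈ p.1.bd p.2 := by
  rcases page_kinds m s o r h with ⟨k, hk, rfl⟩ | ⟨j, hj, rfl⟩ | ⟨e, rfl⟩
  · rcases mark_or (D := D) m k with hm | ⟨e, he⟩
    · refine ⟨(.ax k, o), (.seg m k hm, o), by simp, fun p => ?_⟩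
      refine (page_up m k s o p).trans ?_
      obtain ⟨q, b⟩ := p
      simp only [Prod.mk.injEq]
      constructor
      · rintro ⟨rfl, (⟨_, rfl⟩ | ⟨_, _, rfl⟩ | ⟨e, _, _, he⟩)⟩
        · exact Or.inl ⟨rfl, rfl⟩
        · exact Or.inr ⟨rfl, rfl⟩
        · exact absurd he (not_mark_row hm e)
      · rintro (⟨rfl, rfl⟩ | ⟨rfl, rfl⟩)
        · exact ⟨rfl, Or.inl ⟨hk, rfl⟩⟩
        · exact ⟨rfl, Or.inr (Or.inl ⟨hm, hk, rfl⟩)⟩
    · have hse : s = e := by rw [← hk, ← he, side_row]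
      refine ⟨(.ax k, o), (.leg m e s, o), by simp, fun p => ?_⟩
      refine (page_up m k s o p).trans ?_
      obtain ⟨q, b⟩ := p
      simp only [Prod.mk.injEq]
      constructor
      · rintro ⟨rfl, (⟨_, rfl⟩ | ⟨hm, _, rfl⟩ | ⟨e', rfl, _, he'⟩)⟩
        · exact Or.inl ⟨rfl, rfl⟩
        · exact absurd he (not_mark_row hm e)
        · have := row_inj (he'.trans he.symm)
          subst this
          exact Or.inr ⟨rfl, rfl⟩
      · rintro (⟨rfl, rfl⟩ | ⟨rfl, rfl⟩)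
        · exact ⟨rfl, Or.inl ⟨hk, rfl⟩⟩
        · exact ⟨rfl, Or.inr (Or.inr ⟨e, rfl, hse, he⟩)⟩
  · rcases mark_or (D := D) m (rot j) with hm | ⟨e, he⟩
    · have hk : D.side m (rot j) = s := by rw [side_rot D hm.1 hm.2]; exact hj
      refine ⟨(.ax j, o), (.seg m (rot j) hm, o), by simp, fun p => ?_⟩
      refine (page_dn m j s o p).trans ?_
      obtain ⟨q, b⟩ := p
      simp only [Prod.mk.injEq]
      constructor
      · rintro ⟨rfl, (⟨_, rfl⟩ | ⟨_, _, rfl⟩ | ⟨e, _, _, he⟩)⟩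
        · exact Or.inl ⟨rfl, rfl⟩
        · exact Or.inr ⟨rfl, rfl⟩
        · exact absurd he (not_mark_row hm e)
      · rintro (⟨rfl, rfl⟩ | ⟨rfl, rfl⟩)
        · exact ⟨rfl, Or.inl ⟨hj, rfl⟩⟩
        · exact ⟨rfl, Or.inr (Or.inl ⟨hm, hk, rfl⟩)⟩
    · have hse : s ≠ e := by
        rw [← hj, side_pred D he.symm]
        cases e <;> simp
      refine ⟨(.ax j, o), (.leg m e s, o), by simp, fun p => ?_⟩
      refine (page_dn m j s o p).trans ?_
      obtain ⟨q, b⟩ := p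
      simp only [Prod.mk.injEq]
      constructor
      · rintro ⟨rfl, (⟨_, rfl⟩ | ⟨hm, _, rfl⟩ | ⟨e', rfl, _, he'⟩)⟩
        · exact Or.inl ⟨rfl, rfl⟩
        · exact absurd he (not_mark_row hm e)
        · have := row_inj (he'.trans he.symm)
          subst this
          exact Or.inr ⟨rfl, rfl⟩
      · rintro (⟨rfl, rfl⟩ | ⟨rfl, rfl⟩)
        · exact ⟨rfl, Or.inl ⟨hj, rfl⟩⟩
        · exact ⟨rfl, Or.inr (Or.inr ⟨e, rfl, hse, he⟩)⟩
  · refine ⟨(.leg m e s, o), (.lon m 0 s, o), by simp, fun p => ?_⟩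
    exact page_pt m e s o p

end Pool.MP_f18604_gt.LS
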