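import Mathlib
import Pool.Agent.Helper7.LS.Cyc

/-!
# LS-28: the boundary of a sector piece is a cycle

PROOF.  All cells are in the sheet `o`; `rot m ≠ m`.  The two lists `rim m k false` and `rim (rot m) k true` are paths from `up k` to `dn k`.  The vertices and their two edges:
* `up k`: one in each path: `seg _ k`, or `leg _ e e` if `k = row _ e`;
* `dn k`: one in each path: `seg _ k`, or `leg _ e (!e)`;
* `pt l e s` (`l = m` or `l = rot m`, `k = row l e`): `leg l e s` and `arc l e x`.
-/

set_option autoImplicit false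

namespace Pool.MP_f18604_gt.LS

variable {N : ℕ} {D : Diagram N}

/-- The column of an edge or of a vertex on the tube. -/
private def sec_col : QCell D → Option (Fin N)
  | .pt m _ _ => some m
  | .seg m _ _ => some m
  | .leg m _ _ => some m
  | .arc m _ _ => some m
  | _ => none

private theorem sec_rim_row (m : Fin N) (e x : Bool) :
    (QCell.rim m (D.row m e) x : List (QCell D)) =
      [.leg m e false, .leg m e true, .arc m e x] := by
  unfold QCell.rim
  cases e
  · have h : D.row m false = D.sig m := rfl
    rw [dif_pos h]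
  · have h : D.row m true = D.tau m := rfl
    rw [dif_neg (by rw [h]; exact (D.ne m).symm), dif_pos h]

private theorem sec_rim_plain {m k : Fin N} (h : k ≠ D.sig m ∧ k ≠ D.tau m) (x : Bool) :
    (QCell.rim m k x : List (QCell D)) = [.seg m k h] := by
  unfold QCell.rim
  rw [dif_neg h.1, dif_neg h.2]

private theorem sec_cases (m k : Fin N) :
    (∃ e, k = D.row m e) ∨ (k ≠ D.sig m ∧ k ≠ D.tau m) := by
  by_cases h1 : k = D.sig m
  · exact Or.inl ⟨false, h1⟩
  · by_cases h2 : k = D.tau m
    · exact Or.inl ⟨true, h2⟩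
    · exact Or.inr ⟨h1, h2⟩

private theorem sec_rim_col {l k : Fin N} {x : Bool} {q : QCell D}
    (h : q ∈ (QCell.rim l k x : List (QCell D))) : sec_col q = some l := by
  rcases sec_cases (D := D) l k with ⟨e, rfl⟩ | hk
  · rw [sec_rim_row] at h
    simp only [List.mem_cons, List.not_mem_nil, or_false] at h
    rcases h with rfl | rfl | rfl <;> rfl
  · rw [sec_rim_plain hk] at h
    rw [List.mem_singleton.1 h]
    rfl

private theorem sec_end {l k : Fin N} {x o : Bool} {q : QCell D} {r : QCell D × Bool}
    (h : q ∈ (QCell.rim l k x : List (QCell D))) (hr : r ∈ q.bd o) :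
    (r = (.up k, o) ∨ r = (.dn k, o)) ∨ sec_col r.1 = some l := by
  rcases sec_cases (D := D) l k with ⟨e, rfl⟩ | hk
  · rw [sec_rim_row] at h
    simp only [List.mem_cons, List.not_mem_nil, or_false] at h
    rcases h with rfl | rfl | rfl
    · simp only [QCell.bd, List.mem_cons, List.not_mem_nil, or_false] at hr
      rcases hr with rfl | rfl
      · exact Or.inr rfl
      · by_cases he : false = e
        · rw [if_pos he]
          exact Or.inl (Or.inl rfl)
        · rw [if_neg he]
          exact Or.inl (Or.inr rfl)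
    · simp only [QCell.bd, List.mem_cons, List.not_mem_nil, or_false] at hr
      rcases hr with rfl | rfl
      · exact Or.inr rfl
      · by_cases he : true = e
        · rw [if_pos he]
          exact Or.inl (Or.inl rfl)
        · rw [if_neg he]
          exact Or.inl (Or.inr rfl)
    · simp only [QCell.bd, List.mem_cons, List.not_mem_nil, or_false] at hr
      rcases hr with rfl | rfl
      · exact Or.inr rfl
      · exact Or.inr rfl
  · rw [sec_rim_plain hk] at h
    rw [List.mem_singleton.1 h] at hr
    simp only [QCell.bd, List.mem_cons, List.not_mem_nil, or_false] at hr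
    exact Or.inl hr

private theorem sec_one {l k : Fin N} {x o : Bool} {r : QCell D × Bool}
    (hr : r = (.up k, o) ∨ r = (.dn k, o)) :
    ∃ a, ∀ q, (q ∈ (QCell.rim l k x : List (QCell D)) ∧ r ∈ q.bd o) ↔ q = a := by
  rcases sec_cases (D := D) l k with ⟨e, rfl⟩ | hk
  · rcases hr with rfl | rfl
    · refine ⟨.leg l e e, fun q => ?_⟩
      rw [sec_rim_row]
      constructor
      · rintro ⟨h, hr⟩
        simp only [List.mem_cons, List.not_mem_nil, or_false] at h
        rcases h with rfl | rfl | rfl <;> cases e <;> simp [QCell.bd] at hr ⊢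
      · rintro rfl
        cases e <;> simp [QCell.bd]
    · refine ⟨.leg l e (!e), fun q => ?_⟩
      rw [sec_rim_row]
      constructor
      · rintro ⟨h, hr⟩
        simp only [List.mem_cons, List.not_mem_nil, or_false] at h
        rcases h with rfl | rfl | rfl <;> cases e <;> simp [QCell.bd] at hr ⊢
      · rintro rfl
        cases e <;> simp [QCell.bd]
  · refine ⟨.seg l k hk, fun q => ?_⟩
    rw [sec_rim_plain hk]
    constructor
    · rintro ⟨h, _⟩
      exact List.mem_singleton.1 h
    · rintro rfl
      refine ⟨List.mem_singleton.2 rfl, ?_⟩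
      rcases hr with rfl | rfl <;> simp [QCell.bd]

private theorem sec_two {l k : Fin N} {x o : Bool} {q : QCell D} {r : QCell D × Bool}
    (h : q ∈ (QCell.rim l k x : List (QCell D))) (hr : r ∈ q.bd o)
    (hr1 : ¬ (r = (.up k, o) ∨ r = (.dn k, o))) :
    ∃ a b, a ≠ b ∧ ∀ q, (q ∈ (QCell.rim l k x : List (QCell D)) ∧ r ∈ q.bd o) ↔
      q = a ∨ q = b := by
  rcases sec_cases (D := D) l k with ⟨e, rfl⟩ | hk
  · have hpt : ∃ s, r = (.pt l e s, o) := by
      rw [sec_rim_row] at h
      simp only [List.mem_cons, List.not_mem_nil, or_false] at h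
      rcases h with rfl | rfl | rfl
      · simp only [QCell.bd, List.mem_cons, List.not_mem_nil, or_false] at hr
        rcases hr with rfl | rfl
        · exact ⟨_, rfl⟩
        · exfalso
          apply hr1
          by_cases he : false = e
          · rw [if_pos he]
            exact Or.inl rfl
          · rw [if_neg he]
            exact Or.inr rfl
      · simp only [QCell.bd, List.mem_cons, List.not_mem_nil, or_false] at hr
        rcases hr with rfl | rfl
        · exact ⟨_, rfl⟩
        · exfalso
          apply hr1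
          by_cases he : true = e
          · rw [if_pos he]
            exact Or.inl rfl
          · rw [if_neg he]
            exact Or.inr rfl
      · simp only [QCell.bd, List.mem_cons, List.not_mem_nil, or_false] at hr
        rcases hr with rfl | rfl
        · exact ⟨_, rfl⟩
        · exact ⟨_, rfl⟩
    obtain ⟨s, rfl⟩ := hpt
    refine ⟨.leg l e s, .arc l e x, by simp, fun q' => ?_⟩
    rw [sec_rim_row]
    constructor
    · rintro ⟨h', hr'⟩
      simp only [List.mem_cons, List.not_mem_nil, or_false] at h'
      rcases h' with rfl | rfl | rfl <;> cases s <;> cases e <;> simp [QCell.bd] at hr' ⊢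
    · rintro (rfl | rfl) <;> cases s <;> simp [QCell.bd]
  · exfalso
    rw [sec_rim_plain hk] at h
    rw [List.mem_singleton.1 h] at hr
    simp only [QCell.bd, List.mem_cons, List.not_mem_nil, or_false] at hr
    exact hr1 hr

theorem dia_sec (m k : Fin N) (o : Bool) (r : QCell D × Bool)
    (h : ∃ p ∈ (QCell.sec m k : QCell D).bd o, r ∈ p.1.bd p.2) :
    Two fun p => p ∈ (QCell.sec m k : QCell D).bd o ∧ r ∈ p.1.bd p.2 := by
  have hm : rot m ≠ m := rot_ne D m
  have hmem : ∀ p : QCell D × Bool, p ∈ (QCell.sec m k : QCell D).bd o ↔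
      p.2 = o ∧ (p.1 ∈ (QCell.rim m k false : List (QCell D)) ∨
        p.1 ∈ (QCell.rim (rot m) k true : List (QCell D))) := by
    rintro ⟨q, o'⟩
    simp only [QCell.bd, List.mem_map, List.mem_append, Prod.mk.injEq]
    constructor
    · rintro ⟨q', h, rfl, rfl⟩
      exact ⟨rfl, h⟩
    · rintro ⟨rfl, h'⟩
      exact ⟨q, h', rfl, rfl⟩
  have key : ∀ a b : QCell D, a ≠ b →
      (∀ q, ((q ∈ (QCell.rim m k false : List (QCell D)) ∨
        q ∈ (QCell.rim (rot m) k true : List (QCell D))) ∧ r ∈ q.bd o) ↔ q = a ∨ q = b) →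
      Two fun p => p ∈ (QCell.sec m k : QCell D).bd o ∧ r ∈ p.1.bd p.2 := by
    intro a b hab hq
    refine ⟨(a, o), (b, o), fun h => hab (Prod.mk.inj h).1, ?_⟩
    rintro ⟨q, o'⟩
    show ((q, o') ∈ (QCell.sec m k : QCell D).bd o ∧ r ∈ q.bd o') ↔ _
    rw [hmem]
    constructor
    · rintro ⟨⟨h1, h2⟩, h3⟩
      simp only at h1 h2 h3
      subst h1
      rcases (hq q).1 ⟨h2, h3⟩ with rfl | rfl
      · exact Or.inl rfl
      · exact Or.inr rfl
    · rintro (h1 | h1)
      · obtain ⟨rfl, rfl⟩ := Prod.mk.inj h1
        have := (hq q).2 (Or.inl rfl)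
        exact ⟨⟨rfl, this.1⟩, this.2⟩
      · obtain ⟨rfl, rfl⟩ := Prod.mk.inj h1
        have := (hq q).2 (Or.inr rfl)
        exact ⟨⟨rfl, this.1⟩, this.2⟩
  obtain ⟨⟨q, o'⟩, hp, hr⟩ := h
  rw [hmem] at hp
  obtain ⟨h1, h2⟩ := hp
  simp only at h1 h2 hr
  subst h1
  by_cases hr1 : r = (.up k, o') ∨ r = (.dn k, o')
  · obtain ⟨a, ha⟩ := sec_one (D := D) (l := m) (x := false) hr1
    obtain ⟨b, hb⟩ := sec_one (D := D) (l := rot m) (x := true) hr1
    refine key a b ?_ fun q' => ?_
    · rintro rfl
      have e1 := sec_rim_col ((ha a).2 rfl).1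
      have e2 := sec_rim_col ((hb a).2 rfl).1
      rw [e1] at e2
      exact hm (Option.some.inj e2).symm
    · rw [or_and_right, ha, hb]
  · rcases h2 with h2 | h2
    · have hc := (sec_end h2 hr).resolve_left hr1
      obtain ⟨a, b, hab, hq⟩ := sec_two h2 hr hr1
      refine key a b hab fun q' => ?_
      rw [or_and_right, hq]
      constructor
      · rintro (h3 | ⟨h3, h4⟩)
        · exact h3
        · have hc' := (sec_end h3 h4).resolve_left hr1
          rw [hc] at hc'
          exact absurd (Option.some.inj hc').symm hm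
      · exact Or.inl
    · have hc := (sec_end h2 hr).resolve_left hr1
      obtain ⟨a, b, hab, hq⟩ := sec_two h2 hr hr1
      refine key a b hab fun q' => ?_
      rw [or_and_right, hq]
      constructor
      · rintro (⟨h3, h4⟩ | h3)
        · have hc' := (sec_end h3 h4).resolve_left hr1
          rw [hc] at hc'
          exact absurd (Option.some.inj hc') hm
        · exact h3
      · exact Or.inr

end Pool.MP_f18604_gt.LS
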