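import Mathlib
import Pool.Agent.Helper7.LS.DefsC

/-!
# LS-29: the boundaries of `ann` and `disc` are cycles of length four

PROOF.  `ann m j x`, sheet `o`, `b = j.val.bodd`: `(pt m false s, o)`: `lon m j s`, `arc m false x`; `(pt m true s, o ^^ b)`: `lon m j (s ^^ b)`, `arc m true x` (in the sheet `o ^^ b`).
`disc m j`, sheet `o`: the edges are `(lon m j.castSucc s, s ^^ o)`, `(lon m j.succ s, s ^^ o)`, `s = false, true`; the vertices `(pt m false s, s ^^ o)`: `lon m j.castSucc s`,
`lon m j.succ s`; `(pt m true s, s ^^ o)`: `lon m j.castSucc (s ^^ b)`, `lon m j.succ (s ^^ !b)` where `b = j.val.bodd` (`(j + 1).bodd = !b`).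
-/

set_option autoImplicit false

namespace Pool.MP_f18604_gt.LS

variable {N : ℕ} {D : Diagram N}

theorem dia_ann_pt (m : Fin N) (j : Fin (D.c m + 1)) (x o e s : Bool) (r : QCell D × Bool)
    (hr : r = (.pt m e s, o ^^ (e && j.val.bodd))) :
    Two fun p => p ∈ (QCell.ann m j x : QCell D).bd o ∧ r ∈ p.1.bd p.2 := by
  subst hr
  refine ⟨(.lon m j (s ^^ (e && j.val.bodd)), o), (.arc m e x, o ^^ (e && j.val.bodd)), by simp,
    fun t => ⟨?_, ?_⟩⟩
  · rintro ⟨h1, h2⟩
    simp only [QCell.bd, List.mem_cons, List.not_mem_nil, or_false] at h1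
    rcases h1 with rfl | rfl | rfl | rfl <;> cases hb : j.val.bodd <;> cases e <;> cases s <;>
      cases o <;> simp_all [QCell.bd]
  · rintro (rfl | rfl) <;> cases hb : j.val.bodd <;> cases e <;> cases s <;>
      cases o <;> simp_all [QCell.bd]

theorem dia_ann (m : Fin N) (j : Fin (D.c m + 1)) (x o : Bool) (r : QCell D × Bool)
    (h : ∃ p ∈ (QCell.ann m j x : QCell D).bd o, r ∈ p.1.bd p.2) :
    Two fun p => p ∈ (QCell.ann m j x : QCell D).bd o ∧ r ∈ p.1.bd p.2 := by
  obtain ⟨p, hp, hr⟩ := h
  simp only [QCell.bd, List.mem_cons, List.not_mem_nil, or_false] at hp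
  rcases hp with rfl | rfl | rfl | rfl <;>
    simp only [QCell.bd, List.mem_cons, List.not_mem_nil, or_false] at hr <;>
    rcases hr with rfl | rfl
  · exact dia_ann_pt m j x o false false _ (by simp)
  · exact dia_ann_pt m j x o true (false ^^ j.val.bodd) _ (by simp)
  · exact dia_ann_pt m j x o false true _ (by simp)
  · exact dia_ann_pt m j x o true (true ^^ j.val.bodd) _ (by simp)
  · exact dia_ann_pt m j x o false false _ (by simp)
  · exact dia_ann_pt m j x o false true _ (by simp)
  · exact dia_ann_pt m j x o true false _ (by simp)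
  · exact dia_ann_pt m j x o true true _ (by simp)

theorem dia_disc_pt (m : Fin N) (j : Fin (D.c m)) (o e s : Bool) (r : QCell D × Bool)
    (hr : r = (.pt m e s, s ^^ o)) :
    Two fun p => p ∈ (QCell.disc m j : QCell D).bd o ∧ r ∈ p.1.bd p.2 := by
  subst hr
  have hne : j.castSucc ≠ j.succ := by
    intro h
    have := congrArg Fin.val h
    simp at this
  have hs : (j.succ : Fin (D.c m + 1)).val.bodd = !j.val.bodd := by simp
  have hc : (j.castSucc : Fin (D.c m + 1)).val.bodd = j.val.bodd := by simp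
  refine ⟨(.lon m j.castSucc (s ^^ (e && j.val.bodd)), (s ^^ (e && j.val.bodd)) ^^ o),
    (.lon m j.succ (s ^^ (e && !j.val.bodd)), (s ^^ (e && !j.val.bodd)) ^^ o), ?_,
    fun t => ⟨?_, ?_⟩⟩
  · intro h
    simp only [Prod.mk.injEq, QCell.lon.injEq] at h
    simp_all
  · rintro ⟨h1, h2⟩
    simp only [QCell.bd, List.mem_cons, List.not_mem_nil, or_false] at h1
    rcases h1 with rfl | rfl | rfl | rfl <;>
      simp only [QCell.bd, List.mem_cons, List.not_mem_nil, or_false, hs, hc] at h2 <;>
      cases hb : j.val.bodd <;> cases e <;> cases s <;>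
      cases o <;> simp_all
  · rintro (rfl | rfl) <;>
      simp only [QCell.bd, List.mem_cons, List.not_mem_nil, or_false, hs, hc] <;>
      cases hb : j.val.bodd <;> cases e <;> cases s <;>
      cases o <;> simp_all

theorem dia_disc (m : Fin N) (j : Fin (D.c m)) (o : Bool) (r : QCell D × Bool)
    (h : ∃ p ∈ (QCell.disc m j : QCell D).bd o, r ∈ p.1.bd p.2) :
    Two fun p => p ∈ (QCell.disc m j : QCell D).bd o ∧ r ∈ p.1.bd p.2 := by
  obtain ⟨p, hp, hr⟩ := h
  have hs : (j.succ : Fin (D.c m + 1)).val.bodd = !j.val.bodd := by simp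
  have hc : (j.castSucc : Fin (D.c m + 1)).val.bodd = j.val.bodd := by simp
  simp only [QCell.bd, List.mem_cons, List.not_mem_nil, or_false] at hp
  rcases hp with rfl | rfl | rfl | rfl <;>
    simp only [QCell.bd, List.mem_cons, List.not_mem_nil, or_false, hs, hc] at hr <;>
    rcases hr with rfl | rfl
  · exact dia_disc_pt m j o false false _ (by simp)
  · exact dia_disc_pt m j o true (false ^^ j.val.bodd) _ (by cases j.val.bodd <;> cases o <;> simp)
  · exact dia_disc_pt m j o false true _ (by simp)
  · exact dia_disc_pt m j o true (true ^^ j.val.bodd) _ (by cases j.val.bodd <;> cases o <;> simp)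
  · exact dia_disc_pt m j o false false _ (by simp)
  · exact dia_disc_pt m j o true (false ^^ !j.val.bodd) _ (by cases j.val.bodd <;> cases o <;> simp)
  · exact dia_disc_pt m j o false true _ (by simp)
  · exact dia_disc_pt m j o true (true ^^ !j.val.bodd) _ (by cases j.val.bodd <;> cases o <;> simp)

end Pool.MP_f18604_gt.LS
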