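import Mathlib
import Pool.Agent.Helper7.LS.DiaPage
import Pool.Agent.Helper7.LS.DiaSec
import Pool.Agent.Helper7.LS.DiaSmall
import Pool.Agent.Helper7.LS.DiaDsk
import Pool.Agent.Helper7.LS.DiaChamber
import Pool.Agent.Helper7.LS.DiaBall

/-!
# LS-33: diamonds in `Y`

PROOF.  Cases on `q`; vertices and edges have no facets of facets.
-/

set_option autoImplicit false

namespace Pool.MP_f18604_gt.LS

variable {N : ℕ} {D : Diagram N}

theorem dia_q (q : QCell D) (o : Bool) (r : QCell D × Bool) (h : ∃ p ∈ q.bd o, r ∈ p.1.bd p.2) :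
    Two fun p => p ∈ q.bd o ∧ r ∈ p.1.bd p.2 := by
  cases q with
  | up k => obtain ⟨p, hp, -⟩ := h; simp [QCell.bd] at hp
  | dn k => obtain ⟨p, hp, -⟩ := h; simp [QCell.bd] at hp
  | pt m e s => obtain ⟨p, hp, -⟩ := h; simp [QCell.bd] at hp
  | ax k =>
    obtain ⟨p, hp, hr⟩ := h
    simp only [QCell.bd, List.mem_cons, List.not_mem_nil, or_false] at hp
    rcases hp with rfl | rfl <;> simp [QCell.bd] at hr
  | seg m k hk =>
    obtain ⟨p, hp, hr⟩ := h
    simp only [QCell.bd, List.mem_cons, List.not_mem_nil, or_false] at hp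
    rcases hp with rfl | rfl <;> simp [QCell.bd] at hr
  | leg m e s =>
    obtain ⟨p, hp, hr⟩ := h
    simp only [QCell.bd, List.mem_cons, List.not_mem_nil, or_false] at hp
    rcases hp with rfl | rfl
    · simp [QCell.bd] at hr
    · split_ifs at hr <;> simp [QCell.bd] at hr
  | arc m e x =>
    obtain ⟨p, hp, hr⟩ := h
    simp only [QCell.bd, List.mem_cons, List.not_mem_nil, or_false] at hp
    rcases hp with rfl | rfl <;> simp [QCell.bd] at hr
  | lon m j s =>
    obtain ⟨p, hp, hr⟩ := h
    simp only [QCell.bd, List.mem_cons, List.not_mem_nil, or_false] at hp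
    rcases hp with rfl | rfl <;> simp [QCell.bd] at hr
  | page m s => exact dia_page m s o r h
  | sec m k => exact dia_sec m k o r h
  | ann m j x => exact dia_ann m j x o r h
  | disc m j => exact dia_disc m j o r h
  | dsk κ w => exact dia_dsk κ w o r h
  | chamber m => exact dia_chamber m o r h
  | ball κ v => exact dia_ball κ v o r h

end Pool.MP_f18604_gt.LS
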