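import Mathlib
import Pool.Agent.Helper7.LS.DefsC

/-!
# LS-23: the deck transformation

PROOF.  Cases on `q`: every facet of `(q, o)` has the form `(r, o ^^ t)` with `r`, `t` independent of `o` (`!o = o ^^ true`), so flipping `o` flips the sheets of all facets.  Unfold the lists
(`List.mem_append`, `mem_map`, `mem_flatMap`, `mem_filter`, `mem_cons`), `Prod.ext_iff`, and decide the booleans (`cases o`).
-/

set_option autoImplicit false

namespace Pool.MP_f18604_gt.LS

variable {N : ℕ} {D : Diagram N}

theorem bd_not (q : QCell D) (o : Bool) :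
    q.bd (!o) = (q.bd o).map fun p => (p.1, !p.2) := by
  cases q with
  | up => simp [QCell.bd]
  | dn => simp [QCell.bd]
  | pt => simp [QCell.bd]
  | ax => simp [QCell.bd]
  | seg => simp [QCell.bd]
  | leg m e s => simp [QCell.bd]
  | arc => simp [QCell.bd]
  | lon m j s => simp [QCell.bd]
  | page m s =>
    simp only [QCell.bd, List.map_append, List.map_map, List.map_flatMap, List.map_cons, List.map_nil]
    congr 1
    congr 1
    refine List.flatMap_congr fun k _ => ?_
    split
    · split <;> simp
    · simp
  | sec => simp [QCell.bd, List.map_map, Function.comp_def]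
  | ann m j x => simp [QCell.bd]
  | disc m j => simp [QCell.bd]
  | dsk κ w =>
    simp only [QCell.bd, List.map_flatMap, List.map_cons, List.map_nil, Bool.not_xor]
  | chamber m => simp [QCell.bd, List.map_map, Function.comp_def]
  | ball κ v =>
    simp only [QCell.bd, List.map_append, List.map_flatMap, List.map_cons, List.map_nil, List.map_map,
      Function.comp_def, Bool.not_xor]

theorem mem_flip (q : QCell D) (o : Bool) (p : QCell D × Bool) :
    p ∈ q.bd (!o) ↔ (p.1, !p.2) ∈ q.bd o := by
  rw [bd_not, List.mem_map]
  constructor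
  · rintro ⟨a, ha, rfl⟩
    simpa using ha
  · intro h
    exact ⟨_, h, by simp⟩

theorem ty_iff (q r : QCell D) (o : Bool) :
    (∃ o', (r, o') ∈ q.bd o) ↔ ∃ o', (r, o') ∈ q.bd false := by
  cases o with
  | false => exact Iff.rfl
  | true =>
    constructor
    · rintro ⟨o', h⟩
      exact ⟨!o', (mem_flip q false (r, o')).1 h⟩
    · rintro ⟨o', h⟩
      exact ⟨!o', (mem_flip q false (r, !o')).2 (by simpa using h)⟩

/-- Every lift of `r` lies on a lift of `q`. -/
theorem exists_lift {q r : QCell D} {o1 : Bool} (h : (r, o1) ∈ q.bd false) (o : Bool) :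
    ∃ o', (r, o) ∈ q.bd o' := by
  rcases Bool.eq_or_eq_not o o1 with rfl | rfl
  · exact ⟨false, h⟩
  · exact ⟨true, (mem_flip q false (r, !o1)).2 (by simpa using h)⟩

end Pool.MP_f18604_gt.LS
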