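import Mathlib
import Pool.Agent.Helper7.LS.Cyc
import Pool.Agent.Helper7.LS.Orb

/-!
# LS-24: only one lift of a facet

PROOF.  Cases on `q`. For `ax`, `seg`, `leg`, `arc`, `page`, `sec`, `chamber` all facets are in the sheet `o`. `lon`: the facets are different cells `pt m false _`, `pt m true _`.
`ann`, `disc`: four different cells.  `dsk`: `lon m _ _`, `leg m false _`, `leg m true _` determine `m`, and the sheet is a function of `m`. `ball`: `dsk` in the sheet `o`; `ann m _ _`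
determines `m`; `sec l k` determines `m` by `k = tau m`.
-/

set_option autoImplicit false

namespace Pool.MP_f18604_gt.LS

variable {N : ℕ} {D : Diagram N}

theorem one_sheet {q r : QCell D} {o o1 o2 : Bool} (h1 : (r, o1) ∈ q.bd o)
    (h2 : (r, o2) ∈ q.bd o) : o1 = o2 := by
  cases q with
  | up k => simp [QCell.bd] at h1
  | dn k => simp [QCell.bd] at h1
  | pt m e s => simp [QCell.bd] at h1
  | ax k =>
    simp only [QCell.bd, List.mem_cons, List.not_mem_nil, or_false, Prod.mk.injEq] at h1 h2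
    rcases h1 with ⟨_, rfl⟩ | ⟨_, rfl⟩ <;> rcases h2 with ⟨_, rfl⟩ | ⟨_, rfl⟩ <;> rfl
  | seg m k h =>
    simp only [QCell.bd, List.mem_cons, List.not_mem_nil, or_false, Prod.mk.injEq] at h1 h2
    rcases h1 with ⟨_, rfl⟩ | ⟨_, rfl⟩ <;> rcases h2 with ⟨_, rfl⟩ | ⟨_, rfl⟩ <;> rfl
  | leg m e s =>
    simp only [QCell.bd, List.mem_cons, List.not_mem_nil, or_false, Prod.mk.injEq] at h1 h2
    rcases h1 with ⟨_, rfl⟩ | ⟨_, rfl⟩ <;> rcases h2 with ⟨_, rfl⟩ | ⟨_, rfl⟩ <;> rfl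
  | arc m e x =>
    simp only [QCell.bd, List.mem_cons, List.not_mem_nil, or_false, Prod.mk.injEq] at h1 h2
    rcases h1 with ⟨_, rfl⟩ | ⟨_, rfl⟩ <;> rcases h2 with ⟨_, rfl⟩ | ⟨_, rfl⟩ <;> rfl
  | lon m j s =>
    simp only [QCell.bd, List.mem_cons, List.not_mem_nil, or_false, Prod.mk.injEq] at h1 h2
    rcases h1 with ⟨rfl, rfl⟩ | ⟨rfl, rfl⟩ <;> rcases h2 with ⟨h, rfl⟩ | ⟨h, rfl⟩ <;>
      first | rfl | (simp at h)
  | page m s =>
    have key : ∀ {r : QCell D} {o' : Bool}, (r, o') ∈ (QCell.page m s).bd o → o' = o := by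
      intro r o' h
      simp only [QCell.bd, List.mem_append, List.mem_map, List.mem_flatMap, List.mem_cons,
        List.not_mem_nil, or_false, Prod.mk.injEq] at h
      rcases h with (⟨k, _, _, h⟩ | ⟨k, _, h⟩) | ⟨_, h⟩ | ⟨_, h⟩ | ⟨_, h⟩
      · exact h.symm
      · split_ifs at h
        · simp only [List.mem_cons, List.not_mem_nil, or_false, Prod.mk.injEq] at h
          exact h.2
        · simp at h
        · simp at h
      · exact h
      · exact h
      · exact h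
    rw [key h1, key h2]
  | sec m k =>
    have key : ∀ {r : QCell D} {o' : Bool}, (r, o') ∈ (QCell.sec m k).bd o → o' = o := by
      intro r o' h
      simp only [QCell.bd, List.mem_map, Prod.mk.injEq] at h
      obtain ⟨_, _, _, h⟩ := h
      exact h.symm
    rw [key h1, key h2]
  | ann m j x =>
    simp only [QCell.bd, List.mem_cons, List.not_mem_nil, or_false, Prod.mk.injEq] at h1 h2
    rcases h1 with ⟨rfl, rfl⟩ | ⟨rfl, rfl⟩ | ⟨rfl, rfl⟩ | ⟨rfl, rfl⟩ <;>
      rcases h2 with ⟨h, rfl⟩ | ⟨h, rfl⟩ | ⟨h, rfl⟩ | ⟨h, rfl⟩ <;>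
      first | rfl | (simp at h)
  | disc m j =>
    have hj : j.castSucc ≠ j.succ := by
      intro h
      have := congrArg Fin.val h
      simp at this
    simp only [QCell.bd, List.mem_cons, List.not_mem_nil, or_false, Prod.mk.injEq] at h1 h2
    rcases h1 with ⟨rfl, rfl⟩ | ⟨rfl, rfl⟩ | ⟨rfl, rfl⟩ | ⟨rfl, rfl⟩ <;>
      rcases h2 with ⟨h, rfl⟩ | ⟨h, rfl⟩ | ⟨h, rfl⟩ | ⟨h, rfl⟩ <;>
      first | rfl | (simp [hj, hj.symm] at h)
  | dsk κ w =>
    simp only [QCell.bd, List.mem_flatMap, List.mem_cons, List.not_mem_nil, or_false,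
      Prod.mk.injEq] at h1 h2
    obtain ⟨m, _, h1⟩ := h1
    obtain ⟨m', _, h2⟩ := h2
    rcases h1 with ⟨rfl, rfl⟩ | ⟨rfl, rfl⟩ | ⟨rfl, rfl⟩ <;>
      rcases h2 with ⟨h, rfl⟩ | ⟨h, rfl⟩ | ⟨h, rfl⟩ <;>
      first
        | (injection h with hm; subst hm; rfl)
        | (simp at h)
  | chamber m =>
    have key : ∀ {r : QCell D} {o' : Bool}, (r, o') ∈ (QCell.chamber m).bd o → o' = o := by
      intro r o' h
      simp only [QCell.bd, List.mem_append, List.mem_map, List.mem_cons,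
        List.not_mem_nil, or_false, Prod.mk.injEq] at h
      rcases h with (⟨_, h⟩ | ⟨_, h⟩ | ⟨_, h⟩ | ⟨_, h⟩ | ⟨_, h⟩ | ⟨_, h⟩) | ⟨_, _, _, h⟩
      all_goals first | exact h | exact h.symm
    rw [key h1, key h2]
  | ball κ v =>
    simp only [QCell.bd, List.mem_append, List.mem_flatMap, List.mem_map, List.mem_cons,
      List.not_mem_nil, or_false, Prod.mk.injEq] at h1 h2
    rcases h1 with (⟨rfl, rfl⟩ | ⟨rfl, rfl⟩) | ⟨m, _, ⟨rfl, rfl⟩ | ⟨l, _, rfl, rfl⟩⟩ <;>
      rcases h2 with (⟨h, rfl⟩ | ⟨h, rfl⟩) | ⟨m', _, ⟨h, rfl⟩ | ⟨l', _, h, rfl⟩⟩ <;>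
      first
        | rfl
        | (injection h with hm; subst hm; rfl)
        | (injection h with hm hk; have hk' := D.tau.injective hk; subst hk'; rfl)
        | (simp at h)

end Pool.MP_f18604_gt.LS
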