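import Mathlib
import Pool.Agent.Helper7.LS.Cyc
import Pool.Agent.Helper7.LS.Orb

/-!
# LS-25: only one lift of a cell of codimension two

PROOF.  Let `q` have dimension at least 2 (otherwise the facets of facets are empty).
* `page`, `sec`, `chamber`: all cells in sheet `o` (`lon m 0 s` and `ann m 0 x` have level 0: `(0 : Fin _).val.bodd = false`).
* `ann m j x`: `pt m false _` in sheet `o` and `pt m true _` in sheet `o ^^ j.bodd`.
* `disc m j`, sheet `o`: `lon m j' s` is in the sheet `s ^^ o`, its ends are `pt m false s` in sheet `s ^^ o` and `pt m true s'`, `s' = s ^^ j'.bodd`, in sheet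
  `s ^^ o ^^ j'.bodd = s' ^^ o`. So the sheet of `pt m e s'` is always `s' ^^ o`.
* `dsk κ w`, sheet `o`: put `h k = o ^^ D.del (D.sig.symm k)` for a row `k`. The cells `leg m false _`, `lon m _ _`, `pt m false _` are in the sheet `o ^^ D.del m = h (sig m)`, the cells
  `leg m true _`, `pt m true _` in the sheet `o ^^ D.del m ^^ (D.c m).bodd = o ^^ D.del (next m) = h (tau m)` (`D.del_next`), `up k`, `dn k` in the sheet `h k`.
* `ball κ v`, sheet `o`: the edges `lon m _ _`, `leg m false _`, `arc m false _` are in the sheet `h (sig m)`, `leg m true _`, `arc m true _` in the sheet `h (tau m)`, `seg l k` in the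
  sheet `h k`.  (For a sector `sec l (tau m)` in the sheet `h (tau m)`: an edge `leg l' e _` or `arc l' e _` of it has `row l' e = tau m`.)
-/

set_option autoImplicit false

namespace Pool.MP_f18604_gt.LS

variable {N : ℕ} {D : Diagram N}

/-- The sheet over the row `k`. -/
private def hsh (D : Diagram N) (o : Bool) (k : Fin N) : Bool := o ^^ D.del (D.sig.symm k)

private theorem hsh_sig (o : Bool) (m : Fin N) : hsh D o (D.sig m) = (o ^^ D.del m) := by
  unfold hsh
  rw [Equiv.symm_apply_apply]

private theorem hsh_tau (o : Bool) (m : Fin N) :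
    hsh D o (D.tau m) = ((o ^^ D.del m) ^^ (D.c m).bodd) := by
  unfold hsh
  rw [D.del_next, Bool.xor_assoc]

/-- The sheet of the cell `r` of codimension two of `q`. -/
private def shf (q : QCell D) (o : Bool) (r : QCell D) : Bool :=
  match q with
  | .ann _ j _ => match r with
    | .pt _ e _ => if e then (o ^^ j.val.bodd) else o
    | _ => o
  | .disc _ _ => match r with
    | .pt _ _ s => (s ^^ o)
    | _ => o
  | .dsk _ _ => match r with
    | .pt m e _ => hsh D o (D.row m e)
    | .up k => hsh D o k
    | .dn k => hsh D o k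
    | _ => o
  | .ball _ _ => match r with
    | .lon m _ _ => hsh D o (D.sig m)
    | .leg m e _ => hsh D o (D.row m e)
    | .arc m e _ => hsh D o (D.row m e)
    | .seg _ k _ => hsh D o k
    | _ => o
  | _ => o

private theorem rim_sheet {m k : Fin N} {x : Bool} {p : QCell D} (hp : p ∈ QCell.rim m k x)
    {r : QCell D} {o o1 : Bool} (h : (r, o1) ∈ p.bd o) : o1 = o := by
  unfold QCell.rim at hp
  split_ifs at hp with h1 h2
  all_goals
    simp only [List.mem_cons, List.not_mem_nil, or_false] at hp
    first
      | (rcases hp with rfl | rfl | rfl <;>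
          (simp only [QCell.bd, List.mem_cons, List.not_mem_nil, or_false, Prod.mk.injEq] at h
           rcases h with ⟨_, h⟩ | ⟨_, h⟩ <;> exact h))
      | (subst hp
         simp only [QCell.bd, List.mem_cons, List.not_mem_nil, or_false, Prod.mk.injEq] at h
         rcases h with ⟨_, h⟩ | ⟨_, h⟩ <;> exact h)

private theorem rim_ball {m k : Fin N} {x v : Bool} {κ : D.Comp} {p : QCell D}
    (hp : p ∈ QCell.rim m k x) (o : Bool) : shf (.ball κ v) o p = hsh D o k := by
  unfold QCell.rim at hp
  split_ifs at hp with h1 h2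
  all_goals
    simp only [List.mem_cons, List.not_mem_nil, or_false] at hp
    first
      | (rcases hp with rfl | rfl | rfl <;>
          (simp only [shf, Diagram.row]
           first
             | (rw [if_neg (by decide), ← h1])
             | (rw [if_pos (by decide), ← h2])))
      | (subst hp
         simp only [shf])

private theorem page_sheet {m : Fin N} {s o : Bool} {p : QCell D × Bool}
    (hp : p ∈ (QCell.page m s).bd o) : p.2 = o := by
  simp only [QCell.bd, List.mem_append, List.mem_map, List.mem_filter, List.mem_finRange,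
    true_and, List.mem_flatMap, List.mem_cons, List.not_mem_nil, or_false] at hp
  rcases hp with (⟨k, _, rfl⟩ | ⟨k, hk⟩) | rfl | rfl | rfl
  · rfl
  · split_ifs at hk
    · rw [List.mem_singleton] at hk
      rw [hk]
    · simp at hk
    · simp at hk
  all_goals rfl

private theorem page_sheet2 {m : Fin N} {s o : Bool} {p : QCell D × Bool}
    (hp : p ∈ (QCell.page m s).bd o) {r : QCell D} {o1 : Bool} (h : (r, o1) ∈ p.1.bd p.2) :
    o1 = o := by
  simp only [QCell.bd, List.mem_append, List.mem_map, List.mem_filter, List.mem_finRange,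
    true_and, List.mem_flatMap, List.mem_cons, List.not_mem_nil, or_false] at hp
  rcases hp with (⟨k, _, rfl⟩ | ⟨k, hk⟩) | rfl | rfl | rfl
  · simp only [QCell.bd, List.mem_cons, List.not_mem_nil, or_false, Prod.mk.injEq] at h
    rcases h with ⟨_, h⟩ | ⟨_, h⟩ <;> exact h
  · split_ifs at hk
    · rw [List.mem_singleton] at hk
      subst hk
      simp only [QCell.bd, List.mem_cons, List.not_mem_nil, or_false, Prod.mk.injEq] at h
      rcases h with ⟨_, h⟩ | ⟨_, h⟩ <;> exact h
    · simp at hk
    · simp at hk
  all_goals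
    simp only [QCell.bd, List.mem_cons, List.not_mem_nil, or_false, Prod.mk.injEq] at h
    rcases h with ⟨_, h⟩ | ⟨_, h⟩ <;> simpa using h

private theorem key {q r : QCell D} {o o1 : Bool} {p : QCell D × Bool}
    (hp : p ∈ q.bd o) (h : (r, o1) ∈ p.1.bd p.2) : o1 = shf q o r := by
  cases q with
  | up k => simp [QCell.bd] at hp
  | dn k => simp [QCell.bd] at hp
  | pt m e s => simp [QCell.bd] at hp
  | ax k =>
    simp only [QCell.bd, List.mem_cons, List.not_mem_nil, or_false] at hp
    rcases hp with rfl | rfl <;> simp [QCell.bd] at h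
  | seg m k hk =>
    simp only [QCell.bd, List.mem_cons, List.not_mem_nil, or_false] at hp
    rcases hp with rfl | rfl <;> simp [QCell.bd] at h
  | leg m e s =>
    simp only [QCell.bd, List.mem_cons, List.not_mem_nil, or_false] at hp
    rcases hp with rfl | rfl
    · simp [QCell.bd] at h
    · split_ifs at h <;> simp [QCell.bd] at h
  | arc m e x =>
    simp only [QCell.bd, List.mem_cons, List.not_mem_nil, or_false] at hp
    rcases hp with rfl | rfl <;> simp [QCell.bd] at h
  | lon m j s =>
    simp only [QCell.bd, List.mem_cons, List.not_mem_nil, or_false] at hp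
    rcases hp with rfl | rfl <;> simp [QCell.bd] at h
  | page m s => exact page_sheet2 hp h
  | sec m k =>
    simp only [QCell.bd, List.mem_map, List.mem_append] at hp
    obtain ⟨p0, hp0, rfl⟩ := hp
    rcases hp0 with h0 | h0
    · exact rim_sheet h0 h
    · exact rim_sheet h0 h
  | ann m j x =>
    simp only [QCell.bd, List.mem_cons, List.not_mem_nil, or_false] at hp
    rcases hp with rfl | rfl | rfl | rfl <;>
      simp only [QCell.bd, List.mem_cons, List.not_mem_nil, or_false, Prod.mk.injEq] at h <;>
      rcases h with ⟨rfl, rfl⟩ | ⟨rfl, rfl⟩ <;> simp [shf]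
  | disc m j =>
    simp only [QCell.bd, List.mem_cons, List.not_mem_nil, or_false] at hp
    rcases hp with rfl | rfl | rfl | rfl <;>
      simp only [QCell.bd, List.mem_cons, List.not_mem_nil, or_false, Prod.mk.injEq] at h <;>
      rcases h with ⟨rfl, h⟩ | ⟨rfl, h⟩ <;> rw [h] <;> simp only [shf] <;>
      cases o <;> simp
  | dsk κ w =>
    simp only [QCell.bd, List.mem_cons, List.not_mem_nil, or_false, List.mem_flatMap,
      List.mem_filter, List.mem_finRange, true_and] at hp
    obtain ⟨m, _, hp⟩ := hp
    rcases hp with rfl | rfl | rfl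
    · simp only [QCell.bd, List.mem_cons, List.not_mem_nil, or_false, Prod.mk.injEq] at h
      rcases h with ⟨rfl, rfl⟩ | ⟨rfl, rfl⟩
      · simp only [shf, Diagram.row]
        rw [if_neg (by decide), hsh_sig]
      · simp only [shf, Diagram.row, Fin.val_last]
        rw [if_pos (by trivial), hsh_tau]
    · simp only [QCell.bd, List.mem_cons, List.not_mem_nil, or_false, Prod.mk.injEq] at h
      rcases h with ⟨rfl, rfl⟩ | ⟨rfl, rfl⟩
      · simp only [shf, Diagram.row]
        rw [if_neg (by decide), hsh_sig]
      · split_ifs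
        · simp only [shf, Diagram.row]
          rw [if_neg (by decide), hsh_sig]
        · simp only [shf, Diagram.row]
          rw [if_neg (by decide), hsh_sig]
    · simp only [QCell.bd, List.mem_cons, List.not_mem_nil, or_false, Prod.mk.injEq] at h
      rcases h with ⟨rfl, rfl⟩ | ⟨rfl, rfl⟩
      · simp only [shf, Diagram.row]
        rw [if_pos (by trivial), hsh_tau]
      · split_ifs
        · simp only [shf, Diagram.row]
          rw [if_pos (by trivial), hsh_tau]
        · simp only [shf, Diagram.row]
          rw [if_pos (by trivial), hsh_tau]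
  | chamber m =>
    simp only [QCell.bd.eq_14, List.mem_append, List.mem_map, List.mem_cons, List.not_mem_nil,
      or_false, List.mem_finRange, true_and] at hp
    rcases hp with (rfl | rfl | rfl | rfl | rfl | rfl) | ⟨k, rfl⟩
    · exact page_sheet h
    · exact page_sheet h
    · exact page_sheet h
    · exact page_sheet h
    · simp only [QCell.bd, List.mem_cons, List.not_mem_nil, or_false, Prod.mk.injEq] at h
      rcases h with ⟨rfl, rfl⟩ | ⟨rfl, rfl⟩ | ⟨rfl, rfl⟩ | ⟨rfl, rfl⟩ <;> simp [shf]
    · simp only [QCell.bd, List.mem_cons, List.not_mem_nil, or_false, Prod.mk.injEq] at h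
      rcases h with ⟨rfl, rfl⟩ | ⟨rfl, rfl⟩ | ⟨rfl, rfl⟩ | ⟨rfl, rfl⟩ <;> simp [shf]
    · simp only [QCell.bd, List.mem_map, Prod.mk.injEq] at h
      obtain ⟨_, _, _, h⟩ := h
      exact h.symm
  | ball κ v =>
    simp only [QCell.bd.eq_15, List.mem_append, List.mem_map, List.mem_cons, List.not_mem_nil,
      or_false, List.mem_finRange, true_and, List.mem_flatMap, List.mem_filter] at hp
    rcases hp with (rfl | rfl) | ⟨m, _, rfl | ⟨l, _, rfl⟩⟩
    · simp only [QCell.bd, List.mem_cons, List.not_mem_nil, or_false, List.mem_flatMap,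
        List.mem_filter, List.mem_finRange, true_and, Prod.mk.injEq] at h
      obtain ⟨m, _, h⟩ := h
      rcases h with ⟨rfl, rfl⟩ | ⟨rfl, rfl⟩ | ⟨rfl, rfl⟩
      · simp only [shf]
        rw [hsh_sig]
      · simp only [shf, Diagram.row]
        rw [if_neg (by decide), hsh_sig]
      · simp only [shf, Diagram.row]
        rw [if_pos (by trivial), hsh_tau]
    · simp only [QCell.bd, List.mem_cons, List.not_mem_nil, or_false, List.mem_flatMap,
        List.mem_filter, List.mem_finRange, true_and, Prod.mk.injEq] at h
      obtain ⟨m, _, h⟩ := h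
      rcases h with ⟨rfl, rfl⟩ | ⟨rfl, rfl⟩ | ⟨rfl, rfl⟩
      · simp only [shf]
        rw [hsh_sig]
      · simp only [shf, Diagram.row]
        rw [if_neg (by decide), hsh_sig]
      · simp only [shf, Diagram.row]
        rw [if_pos (by trivial), hsh_tau]
    · simp only [QCell.bd, List.mem_cons, List.not_mem_nil, or_false, Prod.mk.injEq] at h
      rcases h with ⟨rfl, rfl⟩ | ⟨rfl, rfl⟩ | ⟨rfl, rfl⟩ | ⟨rfl, rfl⟩
      · simp only [shf]
        rw [hsh_sig]
      · simp only [shf]
        rw [hsh_sig]
      · simp only [shf, Diagram.row]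
        rw [if_neg (by decide), hsh_sig]
      · simp only [shf, Diagram.row, Fin.val_last]
        rw [if_pos (by trivial), hsh_tau]
    · simp only [QCell.bd, List.mem_map, Prod.mk.injEq, List.mem_append] at h
      obtain ⟨a, ha, rfl, rfl⟩ := h
      rcases ha with ha | ha
      · rw [rim_ball ha, hsh_tau]
      · rw [rim_ball ha, hsh_tau]

theorem one_sheet_two {q r : QCell D} {o o1 o2 : Bool} {p p' : QCell D × Bool}
    (hp : p ∈ q.bd o) (hp' : p' ∈ q.bd o) (h1 : (r, o1) ∈ p.1.bd p.2)
    (h2 : (r, o2) ∈ p'.1.bd p'.2) : o1 = o2 := by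
  rw [key hp h1, key hp' h2]

end Pool.MP_f18604_gt.LS
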