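import Mathlib
import Pool.Agent.Helper7.LS.DiaQ
import Pool.Agent.Helper7.LS.Flip
import Pool.Agent.Helper7.LS.OneSheet
import Pool.Agent.Helper7.LS.Sheet3

/-!
# LS-34: diamonds below thick cells

`bd (thick Z q) = ord q false, ord q true, thick Z p.1 (p ∈ q.bd false)`.
Case `c = ord r o`: then `c` is a facet of `ord q o'` (`(r, o) ∈ q.bd o'`) or of `thick Z r` with `(r, _) ∈ q.bd false`; in both cases there is exactly one `o'` with `(r, o) ∈ q.bd o'`
(`exists_lift`, and uniqueness by `mem_flip` and `one_sheet`).  The two cells are `ord q o'` and `thick Z r`.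
Case `c = thick Z r`: there are `(p, o1) ∈ q.bd false` and `(r, o2) ∈ p.bd o1` (from `p.bd false` by `ty_iff`).  `dia_q q false (r, o2)` gives exactly two `p ∈ q.bd false` with
`(r, o2) ∈ p.1.bd p.2`, and their first components differ (`one_sheet`).  If `(p', o') ∈ q.bd false` and `(r, o'') ∈ p'.bd false` for some `o''`, then `(r, o3) ∈ p'.bd o'` for some `o3` (`ty_iff`) and
`o3 = o2` by `one_sheet_two`. So the two cells are `thick Z p.1`, `thick Z p'.1`.
-/

set_option autoImplicit false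

namespace Pool.MP_f18604_gt.LS

variable {N : ℕ} {D : Diagram N}

theorem dia_thick (Z : Bool) (q : QCell D) (c : XCell D)
    (h : ∃ b ∈ (XCell.thick Z q).bd, c ∈ b.bd) :
    Two fun b => b ∈ (XCell.thick Z q).bd ∧ c ∈ b.bd := by
  classical
  have hbd : ∀ (Z' : Bool) (p : QCell D) (t : XCell D), t ∈ (XCell.thick Z' p).bd ↔
      (t = .ord p false ∨ t = .ord p true ∨ ∃ p' ∈ p.bd false, XCell.thick Z' p'.1 = t) := by
    intro Z' p t
    simp only [XCell.bd, List.mem_cons, List.mem_map]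
  have hord : ∀ (p : QCell D) (o : Bool) (t : XCell D), t ∈ (XCell.ord p o).bd ↔
      ∃ p' ∈ p.bd o, XCell.ord p'.1 p'.2 = t := by
    intro p o t
    simp only [XCell.bd, List.mem_map]
  have key : (∃ r o, c = .ord r o ∧ ∃ o1, (r, o1) ∈ q.bd false) ∨
      (∃ r, c = .thick Z r ∧ ∃ p ∈ q.bd false, ∃ o', (r, o') ∈ p.1.bd false) := by
    obtain ⟨b, hb, hc⟩ := h
    rw [hbd] at hb
    have hlow : ∀ o, c ∈ (XCell.ord q o).bd →
        ∃ r o, c = .ord r o ∧ ∃ o1, (r, o1) ∈ q.bd false := by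
      intro o ho
      rw [hord] at ho
      obtain ⟨p, hp, rfl⟩ := ho
      exact ⟨p.1, p.2, rfl, (ty_iff q p.1 o).1 ⟨p.2, hp⟩⟩
    rcases hb with rfl | rfl | ⟨p, hp, rfl⟩
    · exact Or.inl (hlow _ hc)
    · exact Or.inl (hlow _ hc)
    · rw [hbd] at hc
      rcases hc with rfl | rfl | ⟨p', hp', rfl⟩
      · exact Or.inl ⟨p.1, false, rfl, p.2, hp⟩
      · exact Or.inl ⟨p.1, true, rfl, p.2, hp⟩
      · exact Or.inr ⟨p'.1, rfl, p, hp, p'.2, hp'⟩
  rcases key with ⟨r, o, rfl, o1, ho1⟩ | ⟨r, rfl, p, hp, o', ho'⟩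
  · obtain ⟨o', ho'⟩ := exists_lift ho1 o
    refine ⟨.ord q o', .thick Z r, by simp, fun t => ⟨?_, ?_⟩⟩
    · rintro ⟨ht, hc⟩
      have huniq : ∀ o'', XCell.ord r o ∈ (XCell.ord q o'').bd → o'' = o' := by
        intro o'' h''
        rw [hord] at h''
        obtain ⟨p, hp, hpe⟩ := h''
        have e1 : p = (r, o) := by
          have := XCell.ord.inj hpe
          exact Prod.ext this.1 this.2
        rw [e1] at hp
        by_contra hne
        have e2 : o'' = !o' := by
          revert hne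
          cases o'' <;> cases o' <;> simp
        rw [e2, mem_flip] at hp
        have e3 := one_sheet hp ho'
        revert e3
        cases o <;> simp
      rw [hbd] at ht
      rcases ht with rfl | rfl | ⟨p, hp, rfl⟩
      · left
        rw [huniq _ hc]
      · left
        rw [huniq _ hc]
      · right
        rw [hbd] at hc
        rcases hc with h1 | h1 | ⟨p', _, h1⟩
        · rw [(XCell.ord.inj h1).1]
        · rw [(XCell.ord.inj h1).1]
        · exact absurd h1 (by simp)
    · rintro (rfl | rfl)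
      · refine ⟨?_, ?_⟩
        · rw [hbd]
          cases o' <;> simp
        · rw [hord]
          exact ⟨(r, o), ho', rfl⟩
      · refine ⟨?_, ?_⟩
        · rw [hbd]
          exact Or.inr (Or.inr ⟨(r, o1), ho1, rfl⟩)
        · rw [hbd]
          cases o <;> simp
  · obtain ⟨o2, ho2⟩ := (ty_iff p.1 r p.2).2 ⟨o', ho'⟩
    obtain ⟨p1, p2, hne, H⟩ := dia_q q false (r, o2) ⟨p, hp, ho2⟩
    have H1 := (H p1).2 (Or.inl rfl)
    have H2 := (H p2).2 (Or.inr rfl)
    have hmem : ∀ p', p' ∈ q.bd false → (r, o2) ∈ p'.1.bd p'.2 →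
        XCell.thick Z p'.1 ∈ (XCell.thick Z q).bd ∧
          XCell.thick Z r ∈ (XCell.thick Z p'.1).bd := by
      intro p' h1 h2
      refine ⟨?_, ?_⟩
      · rw [hbd]
        exact Or.inr (Or.inr ⟨p', h1, rfl⟩)
      · obtain ⟨o3, ho3⟩ := (ty_iff p'.1 r p'.2).1 ⟨o2, h2⟩
        rw [hbd]
        exact Or.inr (Or.inr ⟨(r, o3), ho3, rfl⟩)
    refine ⟨.thick Z p1.1, .thick Z p2.1, ?_, fun t => ⟨?_, ?_⟩⟩
    · intro he
      have e1 : p1.1 = p2.1 := (XCell.thick.inj he).2
      have hm1 : (p1.1, p1.2) ∈ q.bd false := H1.1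
      have hm2 : (p1.1, p2.2) ∈ q.bd false := by
        rw [e1]
        exact H2.1
      exact hne (Prod.ext e1 (one_sheet hm1 hm2))
    · rintro ⟨ht, hc⟩
      rw [hbd] at ht
      rcases ht with rfl | rfl | ⟨p', hp', rfl⟩
      · rw [hord] at hc
        obtain ⟨p', _, h1⟩ := hc
        exact absurd h1 (by simp)
      · rw [hord] at hc
        obtain ⟨p', _, h1⟩ := hc
        exact absurd h1 (by simp)
      · rw [hbd] at hc
        rcases hc with h1 | h1 | ⟨p'', hp'', h1⟩
        · exact absurd h1 (by simp)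
        · exact absurd h1 (by simp)
        · have e1 : p''.1 = r := (XCell.thick.inj h1).2
          have hr : (r, p''.2) ∈ p'.1.bd false := by
            rw [← e1]
            exact hp''
          obtain ⟨o3, ho3⟩ := (ty_iff p'.1 r p'.2).2 ⟨_, hr⟩
          have e2 : o3 = o2 := one_sheet_two hp' hp ho3 ho2
          rw [e2] at ho3
          rcases (H p').1 ⟨hp', ho3⟩ with rfl | rfl
          · exact Or.inl rfl
          · exact Or.inr rfl
    · rintro (rfl | rfl)
      · exact hmem _ H1.1 H1.2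
      · exact hmem _ H2.1 H2.2

end Pool.MP_f18604_gt.LS
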