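import Mathlib
import Pool.Agent.Helper7.LS.Cyc

/-!
# LS-26: edges have two ends

PROOF.  Cases on `q` (dimension 1): the list `q.bd o` has two different elements: `ax`: `up k`, `dn (rot k)`; `seg`: `up k`, `dn k`; `leg`: `pt`, and `up` or `dn`;
`arc`: `pt m e false`, `pt m e true`; `lon`: `pt m false s`, `pt m true _`.
-/

set_option autoImplicit false

namespace Pool.MP_f18604_gt.LS

variable {N : ℕ} {D : Diagram N}

theorem two_edge (q : QCell D) (h : q.dim = 1) (o : Bool) : Two fun p => p ∈ q.bd o := by
  cases q with
  | up k => exact absurd h (by simp [QCell.dim])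
  | dn k => exact absurd h (by simp [QCell.dim])
  | pt m e s => exact absurd h (by simp [QCell.dim])
  | ax k =>
    exact ⟨(.up k, o), (.dn (rot k), o), by simp, fun t => by simp [QCell.bd]⟩
  | seg m k hk =>
    exact ⟨(.up k, o), (.dn k, o), by simp, fun t => by simp [QCell.bd]⟩
  | leg m e s =>
    refine ⟨(.pt m e s, o), (if s = e then .up (D.row m e) else .dn (D.row m e), o), ?_,
      fun t => by simp [QCell.bd]⟩
    split_ifs <;> simp
  | arc m e x =>
    exact ⟨(.pt m e false, o), (.pt m e true, o), by simp, fun t => by simp [QCell.bd]⟩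
  | lon m j s =>
    exact ⟨(.pt m false s, o), (.pt m true (s ^^ j.val.bodd), o ^^ j.val.bodd), by simp,
      fun t => by simp [QCell.bd]⟩
  | page m s => exact absurd h (by simp [QCell.dim])
  | sec m k => exact absurd h (by simp [QCell.dim])
  | ann m j x => exact absurd h (by simp [QCell.dim])
  | disc m j => exact absurd h (by simp [QCell.dim])
  | dsk κ w => exact absurd h (by simp [QCell.dim])
  | chamber m => exact absurd h (by simp [QCell.dim])
  | ball κ v => exact absurd h (by simp [QCell.dim])

end Pool.MP_f18604_gt.LS
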