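import Mathlib
import Pool.Agent.Helper7.LS.Cyc
import Pool.Agent.Helper7.LS.Orb
import Pool.Agent.Helper7.LS.Cof2

/-!
# LS-38: every cell of dimension at most 3 is a facet

PROOF.  `ord q o` is a facet of `thick false q`; `kum` and `wall` are facets of a room, `cap` of a wall. `thick Z q` with `q.dim ≤ 2`: `q` is a facet of some `t` (up to the sheet) or `thick Z q` of a room:
`up k`: `ax k`; `dn k`: `ax j`, `rot j = k`; `pt m e s`: `leg m e s`; `ax k`: needs a column: `page m (side m k)` with `m = k` as an element of `Fin N`; `seg m k`: `page m (side m k)`; `leg m e s`: `page m s`; `arc m e x`: `ann m 0 x`;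
`lon m j s`: `ann m j false`; `page m s`, `sec m k`: `chamber m`; `ann`: `cof_ann`; `disc`: room; `dsk κ w`: `ball κ false`.
-/

set_option autoImplicit false

namespace Pool.MP_f18604_gt.LS

variable {N : ℕ} {D : Diagram N}

private theorem thick_mem (Z : Bool) {q t : QCell D} (h : ∃ o, (q, o) ∈ t.bd false) :
    XCell.thick Z q ∈ (XCell.thick Z t : XCell D).bd := by
  obtain ⟨o, ho⟩ := h
  simp only [XCell.bd, List.mem_cons, List.mem_map]
  exact Or.inr (Or.inr ⟨(q, o), ho, rfl⟩)

theorem pure_x (b : XCell D) (h : b.dim < 4) : ∃ a : XCell D, b ∈ a.bd := by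
  cases b with
  | ord q o => exact ⟨.thick false q, by cases o <;> simp [XCell.bd]⟩
  | kum m j x => exact ⟨.room false m j x false, by simp [XCell.bd]⟩
  | cap Z m j x s => exact ⟨.wall Z m j x false, by cases s <;> simp [XCell.bd]⟩
  | wall Z m j x o => exact ⟨.room Z m j x false, by cases o <;> simp [XCell.bd]⟩
  | room Z m j x i => simp [XCell.dim] at h
  | thick Z q =>
    cases q with
    | up k => exact ⟨.thick Z (.ax k), thick_mem Z ⟨false, by simp [QCell.bd]⟩⟩
    | dn k =>
      obtain ⟨j, rfl⟩ := rot_surj k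
      exact ⟨.thick Z (.ax j), thick_mem Z ⟨false, by simp [QCell.bd]⟩⟩
    | pt m e s => exact ⟨.thick Z (.leg m e s), thick_mem Z ⟨false, by simp [QCell.bd]⟩⟩
    | ax k =>
      refine ⟨.thick Z (.page k (D.side k k)), thick_mem Z ⟨false, ?_⟩⟩
      simp only [QCell.bd, List.mem_append, List.mem_map, List.mem_filter]
      exact Or.inl (Or.inl ⟨k, ⟨List.mem_finRange k, by simp⟩, rfl⟩)
    | seg m k hk =>
      refine ⟨.thick Z (.page m (D.side m k)), thick_mem Z ⟨false, ?_⟩⟩
      simp only [QCell.bd, List.mem_append, List.mem_flatMap]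
      refine Or.inl (Or.inr ⟨k, List.mem_finRange k, ?_⟩)
      rw [dif_pos hk, if_pos rfl]
      simp
    | leg m e s =>
      refine ⟨.thick Z (.page m s), thick_mem Z ⟨false, ?_⟩⟩
      simp only [QCell.bd, List.mem_append]
      right
      cases e <;> simp
    | arc m e x =>
      refine ⟨.thick Z (.ann m 0 x), thick_mem Z ?_⟩
      cases e
      · exact ⟨false, by simp [QCell.bd]⟩
      · exact ⟨_, by
          simp only [QCell.bd, List.mem_cons]
          exact Or.inr (Or.inr (Or.inr (Or.inl rfl)))⟩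
    | lon m j s =>
      refine ⟨.thick Z (.ann m j false), thick_mem Z ⟨false, ?_⟩⟩
      cases s <;> simp [QCell.bd]
    | page m s =>
      refine ⟨.thick Z (.chamber m), thick_mem Z ⟨false, ?_⟩⟩
      cases s <;> simp [QCell.bd]
    | sec m k =>
      refine ⟨.thick Z (.chamber m), thick_mem Z ⟨false, ?_⟩⟩
      simp only [QCell.bd, List.mem_append, List.mem_map]
      exact Or.inr ⟨k, List.mem_finRange k, rfl⟩
    | ann m j x =>
      obtain ⟨a, b, -, h1⟩ := cof_ann (D := D) Z m j x
      exact ⟨a, (h1 a).2 (Or.inl rfl)⟩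
    | disc m j =>
      obtain ⟨a, b, -, h1⟩ := cof_disc (D := D) Z m j
      exact ⟨a, (h1 a).2 (Or.inl rfl)⟩
    | dsk κ w =>
      refine ⟨.thick Z (.ball κ false), thick_mem Z ⟨false, ?_⟩⟩
      cases w <;> simp [QCell.bd]
    | chamber m => simp [XCell.dim, QCell.dim] at h
    | ball κ v => simp [XCell.dim, QCell.dim] at h

end Pool.MP_f18604_gt.LS
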