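import Mathlib
import Pool.Agent.Helper7.LS.Tree
import Pool.Agent.Helper7.LS.EdgeQ
import Pool.Agent.Helper7.LS.DiaThick
import Pool.Agent.Helper7.LS.DiaRes
import Pool.Agent.Helper7.LS.Cof1
import Pool.Agent.Helper7.LS.Cof2
import Pool.Agent.Helper7.LS.Pure

/-!
# LS-40: the certificate

PROOF.  `grade`: `bd_dim`.  `dim_le`: cases.  `edge`: `ord q o` with `q.dim = 1`: `two_edge` (the map `p ↦ ord p.1 p.2` is injective); `thick Z q` with `q.dim = 0`: `ord q false`, `ord q true`.
`diamond`: cases on `a`: `ord q o`: `dia_q` (the map `p ↦ ord p.1 p.2` is injective), `dia_kum`, `dia_thick`, `dia_cap`, `dia_wall`, `dia_room`.  `pure`: `pure_x`.  `closed`: cases on `b`.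
-/

set_option autoImplicit false

namespace Pool.MP_f18604_gt.LS

variable {N : ℕ} {D : Diagram N}

private theorem ct_map {P : QCell D × Bool → Prop} (h : Two P) :
    Two fun b : XCell D => ∃ p, P p ∧ XCell.ord p.1 p.2 = b := by
  obtain ⟨a, b, hab, hP⟩ := h
  refine ⟨XCell.ord a.1 a.2, XCell.ord b.1 b.2, ?_, fun t => ⟨?_, ?_⟩⟩
  · intro h'
    injection h' with h1 h2
    exact hab (Prod.ext h1 h2)
  · rintro ⟨p, hp, rfl⟩
    rcases (hP p).1 hp with rfl | rfl
    · exact Or.inl rfl
    · exact Or.inr rfl
  · rintro (rfl | rfl)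
    · exact ⟨a, (hP a).2 (Or.inl rfl), rfl⟩
    · exact ⟨b, (hP b).2 (Or.inr rfl), rfl⟩

private theorem ct_congr {α : Type} {P Q : α → Prop} (h : Two P) (hPQ : ∀ t, P t ↔ Q t) : Two Q := by
  obtain ⟨a, b, hab, hP⟩ := h
  exact ⟨a, b, hab, fun t => (hPQ t).symm.trans (hP t)⟩

private theorem ct_pair (Z : Bool) (q : QCell D) (h : q.bd false = []) :
    Two fun b : XCell D => b ∈ (XCell.thick Z q).bd := by
  refine ⟨XCell.ord q false, XCell.ord q true, ?_, fun t => ?_⟩
  · intro h'
    injection h' with h1 h2
    exact absurd h2 (by decide)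
  · simp only [XCell.bd, h, List.map_nil, List.mem_cons, List.not_mem_nil, or_false]

private theorem ct_edge (a : XCell D) (ha : a.dim = 1) : Two fun b : XCell D => b ∈ a.bd := by
  cases a with
  | ord q o =>
    have hq : q.dim = 1 := ha
    refine ct_congr (ct_map (two_edge q hq o)) fun t => ?_
    simp only [XCell.bd, List.mem_map]
  | kum m j x => exact absurd ha (by simp [XCell.dim])
  | thick Z q =>
    have hq : q.dim = 0 := by
      have h' : q.dim + 1 = 1 := ha
      omega
    apply ct_pair
    cases q <;> first | rfl | exact absurd hq (by simp [QCell.dim])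
  | cap Z m j x s => exact absurd ha (by simp [XCell.dim])
  | wall Z m j x o => exact absurd ha (by simp [XCell.dim])
  | room Z m j x i => exact absurd ha (by simp [XCell.dim])

private theorem ct_dia (a c : XCell D) (h : ∃ b ∈ a.bd, c ∈ b.bd) :
    Two fun b : XCell D => b ∈ a.bd ∧ c ∈ b.bd := by
  cases a with
  | ord q o =>
    obtain ⟨b, hb, hc⟩ := h
    simp only [XCell.bd, List.mem_map] at hb
    obtain ⟨p, hp, rfl⟩ := hb
    simp only [XCell.bd, List.mem_map] at hc
    obtain ⟨r, hr, rfl⟩ := hc
    refine ct_congr (ct_map (dia_q q o r ⟨p, hp, hr⟩)) fun t => ⟨?_, ?_⟩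
    · rintro ⟨p', ⟨h1, h2⟩, rfl⟩
      refine ⟨?_, ?_⟩
      · simp only [XCell.bd, List.mem_map]
        exact ⟨p', h1, rfl⟩
      · simp only [XCell.bd, List.mem_map]
        exact ⟨r, h2, rfl⟩
    · rintro ⟨h1, h2⟩
      simp only [XCell.bd, List.mem_map] at h1
      obtain ⟨p', hp', rfl⟩ := h1
      simp only [XCell.bd, List.mem_map] at h2
      obtain ⟨r', hr', h3⟩ := h2
      injection h3 with h4 h5
      have hrr : r' = r := Prod.ext h4 h5
      subst hrr
      exact ⟨p', ⟨hp', hr'⟩, rfl⟩
  | kum m j x => exact dia_kum m j x c h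
  | thick Z q => exact dia_thick Z q c h
  | cap Z m j x s => exact dia_cap Z m j x s c h
  | wall Z m j x o => exact dia_wall Z m j x o c h
  | room Z m j x i => exact dia_room Z m j x i c h

private theorem ct_closed (b : XCell D) (hb : b.dim = 3) : Two fun a : XCell D => b ∈ a.bd := by
  cases b with
  | ord q o =>
    have hq : q.dim = 3 := hb
    cases q with
    | chamber m => exact cof_chamber m o
    | ball κ v => exact cof_ball κ v o
    | _ => exact absurd hq (by simp [QCell.dim])
  | kum m j x => exact cof_kum m j x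
  | thick Z q =>
    have hq : q.dim = 2 := by
      have h' : q.dim + 1 = 3 := hb
      omega
    cases q with
    | page m s => exact cof_page Z m s
    | sec m k => exact cof_sec Z m k
    | ann m j x => exact cof_ann Z m j x
    | disc m j => exact cof_disc Z m j
    | dsk κ w => exact cof_dsk Z κ w
    | _ => exact absurd hq (by simp [QCell.dim])
  | cap Z m j x s => exact absurd hb (by simp [XCell.dim])
  | wall Z m j x o => exact cof_wall Z m j x o
  | room Z m j x i => exact absurd hb (by simp [XCell.dim])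

theorem closedThin : ClosedThin (XCell.bd (D := D)) XCell.dim where
  grade a b h := bd_dim a b h
  dim_le a := by
    cases a with
    | ord q o => cases q <;> simp [XCell.dim, QCell.dim]
    | thick Z q => cases q <;> simp [XCell.dim, QCell.dim]
    | _ => simp [XCell.dim]
  edge a h := ct_edge a h
  diamond a c h := ct_dia a c h
  pure b h := pure_x b h
  closed b h := ct_closed b h

end Pool.MP_f18604_gt.LS
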