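import Mathlib
import Pool.Agent.Helper7.LS.DefsC

/-!
# LS-39: the Euler characteristic

PROOF.  Write `XCell D` as the disjoint union of the six constructors (an `Equiv` to a sum of sigma types, or split the sum `∑ x` by a filter on the constructor).  The
sums over `ord q o` and over `thick Z q` are `2 ∑_q (-1)^(q.dim)` and `2 ∑_q (-1)^(q.dim + 1)`: they cancel.  `kum`: `2 ∑_m c m` cells of dimension 3; `cap`, `wall`, `room`:
`8 ∑_m c m` cells each, of dimensions 2, 3, 4.  Total: `-2 C + 8 C - 8 C + 8 C = 6 C`, `C = ∑_m c m`.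
-/

set_option autoImplicit false

namespace Pool.MP_f18604_gt.LS

variable {N : ℕ} {D : Diagram N}

/-- The cells of the blown up Kummer points. -/
private abbrev KumT (D : Diagram N) : Type := (m : Fin N) × (Fin (D.c m) × Bool × Bool × Bool)

private def cellEquiv (D : Diagram N) :
    XCell D ≃ (QCell D × Bool) ⊕ (Bool × QCell D) ⊕ ((m : Fin N) × (Fin (D.c m) × Bool)) ⊕
      (KumT D ⊕ KumT D ⊕ KumT D) where
  toFun
    | .ord q o => .inl (q, o)
    | .thick Z q => .inr (.inl (Z, q))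
    | .kum m j x => .inr (.inr (.inl ⟨m, j, x⟩))
    | .cap Z m j x s => .inr (.inr (.inr (.inl ⟨m, j, Z, x, s⟩)))
    | .wall Z m j x o => .inr (.inr (.inr (.inr (.inl ⟨m, j, Z, x, o⟩))))
    | .room Z m j x i => .inr (.inr (.inr (.inr (.inr ⟨m, j, Z, x, i⟩))))
  invFun
    | .inl (q, o) => .ord q o
    | .inr (.inl (Z, q)) => .thick Z q
    | .inr (.inr (.inl ⟨m, j, x⟩)) => .kum m j x
    | .inr (.inr (.inr (.inl ⟨m, j, Z, x, s⟩))) => .cap Z m j x s
    | .inr (.inr (.inr (.inr (.inl ⟨m, j, Z, x, o⟩)))) => .wall Z m j x o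
    | .inr (.inr (.inr (.inr (.inr ⟨m, j, Z, x, i⟩)))) => .room Z m j x i
  left_inv x := by cases x <;> rfl
  right_inv y := by
    rcases y with ⟨q, o⟩ | ⟨Z, q⟩ | ⟨m, j, x⟩ | ⟨m, j, Z, x, s⟩ | ⟨m, j, Z, x, s⟩ | ⟨m, j, Z, x, s⟩ <;>
      rfl

theorem euler_x : ∑ x : XCell D, (-1 : ℤ) ^ x.dim = 6 * ∑ m, D.c m := by
  rw [← (cellEquiv D).symm.sum_comp]
  simp only [Fintype.sum_sum_type]
  have h1 : ∑ y : QCell D × Bool, (-1 : ℤ) ^ ((cellEquiv D).symm (.inl y)).dim =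
      2 * ∑ q : QCell D, (-1 : ℤ) ^ q.dim := by
    rw [Fintype.sum_prod_type]
    have : ∀ q : QCell D, ∑ o : Bool, (-1 : ℤ) ^ ((cellEquiv D).symm (.inl (q, o))).dim =
        2 * (-1 : ℤ) ^ q.dim := by
      intro q
      rw [Fintype.sum_bool]
      change (-1 : ℤ) ^ q.dim + (-1 : ℤ) ^ q.dim = _
      ring
    rw [Finset.sum_congr rfl fun q _ => this q, ← Finset.mul_sum]
  have h2 : ∑ y : Bool × QCell D, (-1 : ℤ) ^ ((cellEquiv D).symm (.inr (.inl y))).dim =
      -(2 * ∑ q : QCell D, (-1 : ℤ) ^ q.dim) := by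
    rw [Fintype.sum_prod_type, Fintype.sum_bool]
    change (∑ q : QCell D, (-1 : ℤ) ^ (q.dim + 1)) + (∑ q : QCell D, (-1 : ℤ) ^ (q.dim + 1)) = _
    simp only [pow_succ, ← Finset.sum_mul]
    ring
  have h3 : ∑ y : (m : Fin N) × (Fin (D.c m) × Bool),
      (-1 : ℤ) ^ ((cellEquiv D).symm (.inr (.inr (.inl y)))).dim = -(2 * ∑ m, (D.c m : ℤ)) := by
    have : ∀ y : (m : Fin N) × (Fin (D.c m) × Bool),
        (-1 : ℤ) ^ ((cellEquiv D).symm (.inr (.inr (.inl y)))).dim = -1 := by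
      rintro ⟨m, j, x⟩
      change (-1 : ℤ) ^ 3 = -1
      norm_num
    rw [Finset.sum_congr rfl fun y _ => this y, Finset.sum_const, Finset.card_univ,
      Fintype.card_sigma]
    simp only [Fintype.card_prod, Fintype.card_fin, Fintype.card_bool]
    rw [nsmul_eq_mul, Nat.cast_sum, Finset.mul_sum, Finset.sum_mul, ← Finset.sum_neg_distrib]
    refine Finset.sum_congr rfl fun m _ => ?_
    push_cast
    ring
  have hk : ∀ c : ℤ, ∑ _y : KumT D, c = c * (8 * ∑ m, (D.c m : ℤ)) := by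
    intro c
    rw [Finset.sum_const, Finset.card_univ, Fintype.card_sigma]
    simp only [Fintype.card_prod, Fintype.card_fin, Fintype.card_bool]
    rw [nsmul_eq_mul, Nat.cast_sum, Finset.mul_sum, Finset.mul_sum, Finset.sum_mul]
    refine Finset.sum_congr rfl fun m _ => ?_
    push_cast
    ring
  have h4 : ∑ y : KumT D, (-1 : ℤ) ^ ((cellEquiv D).symm (.inr (.inr (.inr (.inl y))))).dim =
      8 * ∑ m, (D.c m : ℤ) := by
    have : ∀ y : KumT D, (-1 : ℤ) ^ ((cellEquiv D).symm (.inr (.inr (.inr (.inl y))))).dim = 1 := by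
      rintro ⟨m, j, Z, x, s⟩
      change (-1 : ℤ) ^ 2 = 1
      norm_num
    rw [Finset.sum_congr rfl fun y _ => this y, hk, one_mul]
  have h5 : ∑ y : KumT D,
      (-1 : ℤ) ^ ((cellEquiv D).symm (.inr (.inr (.inr (.inr (.inl y)))))).dim =
      -(8 * ∑ m, (D.c m : ℤ)) := by
    have : ∀ y : KumT D,
        (-1 : ℤ) ^ ((cellEquiv D).symm (.inr (.inr (.inr (.inr (.inl y)))))).dim = -1 := by
      rintro ⟨m, j, Z, x, s⟩
      change (-1 : ℤ) ^ 3 = -1
      norm_num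
    rw [Finset.sum_congr rfl fun y _ => this y, hk]
    ring
  have h6 : ∑ y : KumT D,
      (-1 : ℤ) ^ ((cellEquiv D).symm (.inr (.inr (.inr (.inr (.inr y)))))).dim =
      8 * ∑ m, (D.c m : ℤ) := by
    have : ∀ y : KumT D,
        (-1 : ℤ) ^ ((cellEquiv D).symm (.inr (.inr (.inr (.inr (.inr y)))))).dim = 1 := by
      rintro ⟨m, j, Z, x, s⟩
      change (-1 : ℤ) ^ 4 = 1
      norm_num
    rw [Finset.sum_congr rfl fun y _ => this y, hk, one_mul]
  rw [h1, h2, h3, h4, h5, h6]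
  push_cast
  ring

end Pool.MP_f18604_gt.LS
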