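import Mathlib
import Pool.Agent.Helper7.LS.Euler
import Pool.Agent.Helper7.LS.Cert

/-!
# The Euler characteristic, by numbers of cells
-/

set_option autoImplicit false

namespace Pool.MP_f18604_gt.LS

variable {N : ℕ} {D : Diagram N}

theorem euler_card :
    ∑ i ∈ Finset.range 5, (-1 : ℤ) ^ i * Nat.card {x : XCell D // x.dim = i} = 6 * ∑ m, D.c m := by
  classical
  rw [← euler_x]
  have hdim : ∀ x ∈ (Finset.univ : Finset (XCell D)), x.dim ∈ Finset.range 5 := fun x _ =>
    Finset.mem_range.2 (Nat.lt_succ_of_le (closedThin.dim_le x))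
  rw [← Finset.sum_fiberwise_of_maps_to hdim]
  refine Finset.sum_congr rfl fun i _ => ?_
  have h : ∀ x ∈ (Finset.univ : Finset (XCell D)).filter (fun x => x.dim = i),
      (-1 : ℤ) ^ x.dim = (-1) ^ i := fun x hx => by rw [(Finset.mem_filter.1 hx).2]
  rw [Finset.sum_congr rfl h, Finset.sum_const, nsmul_eq_mul, mul_comm, Nat.card_eq_fintype_card,
    Fintype.card_subtype]

end Pool.MP_f18604_gt.LS
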