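import Mathlib
import Pool.Agent.Helper7.LS.All

/-!
# LS-11: the theorem

`N = n + 1` because there is a column; then `gradient_of_known`, `all_known` and `row_of_coloured`.
-/

set_option autoImplicit false

namespace Pool.MP_f18604_gt.LS

theorem main {N : ℕ} (D : Diagram N) (S : Finset (Fin N)) (hc : ∃ m, 0 < D.c m)
    (h : ∀ k, D.Coloured S k) :
    ∃ G : Gradient (XCell.bd (D := D)), (∃! a, G.Critical a ∧ a.dim = 0) ∧
      {a | G.Critical a ∧ a.dim = 1}.ncard ≤ S.card := by
  obtain ⟨m, hm⟩ := hc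
  obtain ⟨n, rfl⟩ : ∃ n, N = n + 1 := ⟨N - 1, by have := m.pos; omega⟩
  exact gradient_of_known D S fun e he =>
    all_known S ⟨m, hm⟩ (fun k => row_of_coloured S (h k)) e he

end Pool.MP_f18604_gt.LS
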