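import Mathlib
import Pool.Agent.Helper7.LS.Defs

/-!
# LS-13: the torus knots T(2, 2r+1), one pair of folds

The grid diagram of size `N = 2r + 4`: column `m` has its marks in the rows `m` and `m + 2` for `m ≤ N - 4`; the last three columns have them in the rows
`N - 3, 0`, `N - 2, N - 1` and `N - 1, 1`: the standard grid diagram of the torus knot `T(2, 2r+1)` (size `2r + 3`), stabilised once.  Two folds, in the columns `0` and `1`: so `X` is the elliptic
surface `E(1)_(2,2r+1)` (Dolgachev surface).  The knot runs through the columns `0, 2, 4, ..., N-2, N-1, 1, 3, ..., N-3, 0`.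

PROOFS.  The proof obligations of the structure: `Fin.ext`, case distinction, `omega` (write `m = 2 i` or `m = 2 i + 1`).
`torusTwo_coloured`: rows `0, 2` (column 0, fold, `s = false`): nothing crosses column `0` (`Crosses` needs a column `l < 0`).  Rows `1, 3` (column 1, fold, `s = false`): a row with marks on both
sides of column 1, on the piece `false` (`side 1 k = false` means `k` in `[1, 3)`): `k = 2` (row `1` has its marks in the columns `1` and `N - 1`), coloured.  Column `m`, `2 ≤ m ≤ N - 4`, rows `m`, `m + 2`: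
`side m k = false` means `k = m` or `k = m + 1`; row `m` has its marks in the columns `m - 2` and `m`, so it does not cross; row `m + 1` is coloured before: by
induction on `m` rows `0, ..., m + 1` are coloured, and `pass m false false` gives row `m + 2`.  So the rows `0, ..., N - 2` are coloured; column `N - 2` has its marks in the rows `N - 2`, `N - 1`,
`side (N-2) k = false` means `k = N - 2`, which does not cross (its marks are in the columns `N - 4` and `N - 2`); `pass` gives row `N - 1`.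
-/

set_option autoImplicit false

namespace Pool.MP_f18604_gt.LS

/-- The permutation of the second marks. -/
def torusTau (r : ℕ) : Equiv.Perm (Fin (2 * r + 4)) where
  toFun m := ⟨if m.val ≤ 2 * r then m.val + 2 else if m.val = 2 * r + 1 then 0
    else if m.val = 2 * r + 2 then 2 * r + 3 else 1, by split_ifs <;> omega⟩
  invFun k := ⟨if k.val = 0 then 2 * r + 1 else if k.val = 1 then 2 * r + 3
    else if k.val = 2 * r + 3 then 2 * r + 2 else k.val - 2, by have := k.2; split_ifs <;> omega⟩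
  left_inv m := by
    have h := m.2
    apply Fin.ext
    rcases Nat.lt_or_ge (2 * r) m.val with h1 | h1
    · rcases Nat.lt_or_ge (2 * r + 1) m.val with h2 | h2
      · rcases Nat.lt_or_ge (2 * r + 2) m.val with h3 | h3
        · simp [show ¬ m.val ≤ 2 * r by omega, show ¬ m.val = 2 * r + 1 by omega,
            show ¬ m.val = 2 * r + 2 by omega]
          omega
        · simp [show m.val = 2 * r + 2 by omega]
      · simp [show m.val = 2 * r + 1 by omega]
    · simp [h1]
      omega
  right_inv k := by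
    have h := k.2
    apply Fin.ext
    by_cases h1 : k.val = 0
    · simp [h1]
    · by_cases h2 : k.val = 1
      · simp [h2]
      · by_cases h3 : k.val = 2 * r + 3
        · simp [h3]
        · simp [h1, h2, h3, show k.val - 2 ≤ 2 * r by omega]
          omega

private theorem torus_tau_val (r : ℕ) (m : Fin (2 * r + 4)) : (torusTau r m).val =
    if m.val ≤ 2 * r then m.val + 2 else if m.val = 2 * r + 1 then 0
    else if m.val = 2 * r + 2 then 2 * r + 3 else 1 := rfl

private theorem torus_tau_cases (r : ℕ) (m : Fin (2 * r + 4)) :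
    (m.val ≤ 2 * r ∧ (torusTau r m).val = m.val + 2) ∨
    (m.val = 2 * r + 1 ∧ (torusTau r m).val = 0) ∨
    (m.val = 2 * r + 2 ∧ (torusTau r m).val = 2 * r + 3) ∨
    (m.val = 2 * r + 3 ∧ (torusTau r m).val = 1) := by
  have h := m.2
  rw [torus_tau_val]
  split_ifs <;> omega

private theorem torus_eps (r m t : ℕ) (hm : m < 2 * r + 4)
    (ht : (m ≤ 2 * r ∧ t = m + 2) ∨ (m = 2 * r + 1 ∧ t = 0) ∨ (m = 2 * r + 2 ∧ t = 2 * r + 3) ∨
      (m = 2 * r + 3 ∧ t = 1)) :
    (if t = 2 * r + 3 then (r + 2).bodd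
      else if t % 2 = 0 then (t / 2).bodd else (r + 1 + t / 2).bodd) =
    !(if m = 2 * r + 3 then (r + 2).bodd
      else if m % 2 = 0 then (m / 2).bodd else (r + 1 + m / 2).bodd) := by
  rcases ht with ⟨h, ht⟩ | ⟨h, ht⟩ | ⟨h, ht⟩ | ⟨h, ht⟩
  · have h1 : ¬ m = 2 * r + 3 := by omega
    have h2 : ¬ t = 2 * r + 3 := by omega
    have h3 : t / 2 = m / 2 + 1 := by omega
    rw [if_neg h1, if_neg h2, h3]
    by_cases h4 : m % 2 = 0
    · have h5 : t % 2 = 0 := by omega
      rw [if_pos h4, if_pos h5, Nat.bodd_succ]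
    · have h5 : ¬ t % 2 = 0 := by omega
      rw [if_neg h4, if_neg h5, ← add_assoc, Nat.bodd_succ]
  · have h1 : ¬ m = 2 * r + 3 := by omega
    have h2 : ¬ t = 2 * r + 3 := by omega
    have h3 : t / 2 = 0 := by omega
    have h4 : ¬ m % 2 = 0 := by omega
    have h5 : t % 2 = 0 := by omega
    have h6 : r + 1 + m / 2 = 2 * r + 1 := by omega
    rw [if_neg h1, if_neg h2, if_pos h5, if_neg h4, h3, h6, Nat.bodd_succ, Nat.bodd_mul]
    rfl
  · have h1 : ¬ m = 2 * r + 3 := by omega
    have h4 : m % 2 = 0 := by omega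
    have h6 : m / 2 = r + 1 := by omega
    rw [if_neg h1, if_pos ht, if_pos h4, h6, Nat.bodd_succ]
  · have h2 : ¬ t = 2 * r + 3 := by omega
    have h3 : t / 2 = 0 := by omega
    have h5 : ¬ t % 2 = 0 := by omega
    rw [if_pos h, if_neg h2, if_neg h5, h3, Nat.bodd_succ (r + 1), Bool.not_not]

private theorem torus_del (r m t : ℕ) (hm : m < 2 * r + 4)
    (ht : (m ≤ 2 * r ∧ t = m + 2) ∨ (m = 2 * r + 1 ∧ t = 0) ∨ (m = 2 * r + 2 ∧ t = 2 * r + 3) ∨
      (m = 2 * r + 3 ∧ t = 1)) :
    decide (t = 1 ∨ t = 2 * r + 3 ∨ (t % 2 = 0 ∧ t ≠ 0)) =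
    (decide (m = 1 ∨ m = 2 * r + 3 ∨ (m % 2 = 0 ∧ m ≠ 0)) ^^
      (if m ≤ 1 then 1 else 0 : ℕ).bodd) := by
  by_cases h : m ≤ 1
  · rw [if_pos h]
    rcases (by omega : m = 0 ∨ m = 1) with h1 | h1
    · have h2 : (t = 1 ∨ t = 2 * r + 3 ∨ (t % 2 = 0 ∧ t ≠ 0)) := by omega
      have h3 : ¬ (m = 1 ∨ m = 2 * r + 3 ∨ (m % 2 = 0 ∧ m ≠ 0)) := by omega
      rw [decide_eq_true h2, decide_eq_false h3]
      rfl
    · have h2 : ¬ (t = 1 ∨ t = 2 * r + 3 ∨ (t % 2 = 0 ∧ t ≠ 0)) := by omega
      have h3 : (m = 1 ∨ m = 2 * r + 3 ∨ (m % 2 = 0 ∧ m ≠ 0)) := Or.inl h1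
      rw [decide_eq_false h2, decide_eq_true h3]
      rfl
  · rw [if_neg h, Nat.bodd_zero, Bool.xor_false, decide_eq_decide]
    omega

/-- The diagram of the Dolgachev surface `E(1)_(2,2r+1)`. -/
def torusTwo (r : ℕ) : Diagram (2 * r + 4) where
  sig := Equiv.refl _
  tau := torusTau r
  ne m := by
    intro h
    have h1 := congrArg Fin.val h
    have h2 := m.2
    have h3 : (Equiv.refl (Fin (2 * r + 4)) m).val = m.val := rfl
    rw [h3, torus_tau_val] at h1
    split_ifs at h1 <;> omega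
  c m := if m.val ≤ 1 then 1 else 0
  eps m := if m.val = 2 * r + 3 then (r + 2).bodd
    else if m.val % 2 = 0 then (m.val / 2).bodd else (r + 1 + m.val / 2).bodd
  del m := decide (m.val = 1 ∨ m.val = 2 * r + 3 ∨ (m.val % 2 = 0 ∧ m.val ≠ 0))
  eps_next m := by
    have h3 : (Equiv.refl (Fin (2 * r + 4))).symm (torusTau r m) = torusTau r m := rfl
    rw [h3]
    exact torus_eps r m.val (torusTau r m).val m.2 (torus_tau_cases r m)
  del_next m := by
    have h3 : (Equiv.refl (Fin (2 * r + 4))).symm (torusTau r m) = torusTau r m := rfl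
    rw [h3]
    exact torus_del r m.val (torusTau r m).val m.2 (torus_tau_cases r m)

private theorem torus_mark {r : ℕ} {l k : Fin (2 * r + 4)} {e : Bool}
    (h : (torusTwo r).row l e = k) : k.val = l.val ∨ (l.val ≤ 2 * r ∧ k.val = l.val + 2) ∨
      (l.val = 2 * r + 1 ∧ k.val = 0) ∨ (l.val = 2 * r + 2 ∧ k.val = 2 * r + 3) ∨
      (l.val = 2 * r + 3 ∧ k.val = 1) := by
  have hl := l.2
  cases e
  · left
    have h1 : l = k := h
    rw [h1]
  · right
    have h1 : (torusTau r l).val = k.val := congrArg Fin.val h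
    rw [torus_tau_val] at h1
    split_ifs at h1 <;> omega

private theorem torus_side {r : ℕ} {m k : Fin (2 * r + 4)}
    (h : (torusTwo r).side m k = false) :
    (m.val < (torusTau r m).val → m.val ≤ k.val ∧ k.val < (torusTau r m).val) ∧
    (¬ m.val < (torusTau r m).val → m.val ≤ k.val ∨ k.val < (torusTau r m).val) := by
  have h1 : cyc m (torusTau r m) k = true := by
    have h2 : (!cyc m (torusTau r m) k) = false := h
    simpa using h2
  unfold cyc at h1
  constructor
  · intro h3
    rw [if_pos (Fin.lt_def.2 h3)] at h1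
    have h4 := of_decide_eq_true h1
    exact ⟨Fin.le_def.1 h4.1, Fin.lt_def.1 h4.2⟩
  · intro h3
    rw [if_neg (fun h => h3 (Fin.lt_def.1 h))] at h1
    have h4 := of_decide_eq_true h1
    exact h4.imp Fin.le_def.1 Fin.lt_def.1

private theorem torus_cross {r : ℕ} {m k : Fin (2 * r + 4)}
    (hm : m.val ≤ 2 * r ∨ m.val = 1 ∨ m.val = 2 * r + 2) (h : (torusTwo r).Crosses m false k) :
    1 ≤ m.val ∧ m.val ≠ 2 * r + 2 ∧ k.val = m.val + 1 := by
  obtain ⟨h1, ⟨l, e, hl, hle⟩, ⟨l', e', hl', hle'⟩⟩ := h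
  have hlv : l.val < m.val := hl
  have hlv' : m.val < l'.val := hl'
  have hm2 := m.2
  have hk2 := k.2
  have hl2 := l'.2
  have h2 := torus_side h1
  rw [torus_tau_val] at h2
  have h3 := torus_mark hle
  have h4 := torus_mark hle'
  obtain ⟨h5, h6⟩ := h2
  split_ifs at h5 h6 <;> omega

private theorem torus_fin {r : ℕ} (S : Finset (Fin (2 * r + 4))) : ∀ k : ℕ, ∀ hk : k < 2 * r + 4,
    (∀ j : ℕ, ∀ hj : j < 2 * r + 4, j < k → (torusTwo r).Coloured S ⟨j, hj⟩) →
    (torusTwo r).Coloured S ⟨k, hk⟩ := by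
  have hr : 0 < 2 * r + 4 := by omega
  have hr1 : 1 < 2 * r + 4 := by omega
  have hr2 : 2 < 2 * r + 4 := by omega
  have key0 : ∀ e, (torusTwo r).Coloured S ((torusTwo r).row ⟨0, hr⟩ e) := by
    intro e
    refine Diagram.Coloured.fold ⟨0, hr⟩ false e ?_ ?_
    · show 0 < (if (0 : ℕ) ≤ 1 then 1 else 0)
      norm_num
    · intro k hk
      have := torus_cross (Or.inl (Nat.zero_le _)) hk
      exact absurd this.1 (by norm_num)
  have c0 : (torusTwo r).Coloured S ⟨0, hr⟩ := key0 false
  have c2 : (torusTwo r).Coloured S ⟨2, hr2⟩ := by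
    have h := key0 true
    have h1 : (torusTwo r).row ⟨0, hr⟩ true = ⟨2, hr2⟩ := by
      apply Fin.ext
      show (torusTau r ⟨0, hr⟩).val = 2
      rw [torus_tau_val, if_pos (Nat.zero_le _)]
    rwa [h1] at h
  have key1 : ∀ e, (torusTwo r).Coloured S ((torusTwo r).row ⟨1, hr1⟩ e) := by
    intro e
    refine Diagram.Coloured.fold ⟨1, hr1⟩ false e ?_ ?_
    · show 0 < (if (1 : ℕ) ≤ 1 then 1 else 0)
      norm_num
    · intro k hk
      have := torus_cross (Or.inr (Or.inl rfl)) hk
      have h1 : k = ⟨2, hr2⟩ := Fin.ext this.2.2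
      rw [h1]
      exact c2
  have c1 : (torusTwo r).Coloured S ⟨1, hr1⟩ := key1 false
  intro k hk IH
  rcases (by omega : k = 0 ∨ k = 1 ∨ k = 2 ∨ (k = 3 ∧ 1 ≤ r) ∨ (4 ≤ k ∧ k ≤ 2 * r + 2) ∨
    (3 ≤ k ∧ k = 2 * r + 3)) with h | h | h | h | h | h
  · subst h; exact c0
  · subst h; exact c1
  · subst h; exact c2
  · obtain ⟨h, h1⟩ := h
    subst h
    have h2 := key1 true
    have h3 : (torusTwo r).row ⟨1, hr1⟩ true = ⟨3, hk⟩ := by
      apply Fin.ext
      show (torusTau r ⟨1, hr1⟩).val = 3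
      rw [torus_tau_val]
      exact if_pos (by show 1 ≤ 2 * r; omega)
    rwa [h3] at h2
  · have hm : k - 2 < 2 * r + 4 := by omega
    have h2 : (torusTwo r).Coloured S ((torusTwo r).row ⟨k - 2, hm⟩ (!false)) := by
      refine Diagram.Coloured.pass ⟨k - 2, hm⟩ false false ?_ ?_
      · intro j hj
        have h3 := torus_cross (Or.inl (by show k - 2 ≤ 2 * r; omega)) hj
        have h4 : j.val = (k - 2) + 1 := h3.2.2
        exact IH j.val j.2 (by omega)
      · exact IH (k - 2) hm (by omega)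
    have h3 : (torusTwo r).row ⟨k - 2, hm⟩ (!false) = ⟨k, hk⟩ := by
      apply Fin.ext
      show (torusTau r ⟨k - 2, hm⟩).val = k
      rw [torus_tau_val, if_pos (by show k - 2 ≤ 2 * r; omega)]
      show k - 2 + 2 = k
      omega
    rwa [h3] at h2
  · have hm : 2 * r + 2 < 2 * r + 4 := by omega
    have h2 : (torusTwo r).Coloured S ((torusTwo r).row ⟨2 * r + 2, hm⟩ (!false)) := by
      refine Diagram.Coloured.pass ⟨2 * r + 2, hm⟩ false false ?_ ?_
      · intro j hj
        have h3 := torus_cross (Or.inr (Or.inr rfl)) hj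
        exact absurd rfl h3.2.1
      · exact IH (2 * r + 2) hm (by omega)
    have h3 : (torusTwo r).row ⟨2 * r + 2, hm⟩ (!false) = ⟨k, hk⟩ := by
      apply Fin.ext
      show (torusTau r ⟨2 * r + 2, hm⟩).val = k
      rw [torus_tau_val, if_neg (by show ¬ (2 * r + 2 ≤ 2 * r); omega),
        if_neg (by show ¬ (2 * r + 2 = 2 * r + 1); omega), if_pos rfl]
      exact h.2.symm
    rwa [h3] at h2

theorem torusTwo_coloured (r : ℕ) (k : Fin (2 * r + 4)) : (torusTwo r).Coloured ∅ k := by
  obtain ⟨k, hk⟩ := k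
  induction k using Nat.strong_induction_on with
  | _ k IH => exact torus_fin ∅ k hk (fun j hj hjk => IH j hjk hj)

end Pool.MP_f18604_gt.LS
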