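import Mathlib
import Pool.Agent.Helper7.LS.Cells

/-!
# The torus links T(2n, (2r+1)n), two folds on every component

The grid diagram of size `N = n (2 r + 4)`: with `M = n (2 r + 3)`, column `m` has its marks in the rows `m` and `m + 2 n` for `m < M - 2 n`, in the rows
`m` and `m - (M - 2 n)` for `M - 2 n ≤ m < M - n` (up to here, with `2 M - 1 - m` replaced by `m - (M - 2 n)`, this is the standard diagram of the torus link), in the rows
`m` and `2 M - 1 - m` for `M - n ≤ m < M` and in the rows `m` and `M + 2 n - 1 - m` for `M ≤ m`: the standard diagram of size `M`, every component stabilised once (`n` parallel strands turn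
around a corner).  Two folds on every component, in the columns `m < 2 n`: so `X` is the elliptic surface `E(n)_(2,2r+1)`.
-/

set_option autoImplicit false

namespace Pool.MP_f18604_gt.LS

/-- The row of the second mark of column `m`. -/
def linkTo (n r m : ℕ) : ℕ :=
  if m < n * (2 * r + 1) then m + 2 * n else if m < n * (2 * r + 2) then m - n * (2 * r + 1)
  else if m < n * (2 * r + 3) then n * (4 * r + 6) - 1 - m else n * (2 * r + 5) - 1 - m

/-- The column whose second mark is in row `k`. -/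
def linkFrom (n r k : ℕ) : ℕ :=
  if k < n then k + n * (2 * r + 1) else if k < 2 * n then n * (2 * r + 5) - 1 - k
  else if k < n * (2 * r + 3) then k - 2 * n else n * (4 * r + 6) - 1 - k

private theorem link_mul (n r : ℕ) : n * (2 * r + 1) = 2 * (n * r) + n ∧
    n * (2 * r + 2) = 2 * (n * r) + 2 * n ∧ n * (2 * r + 3) = 2 * (n * r) + 3 * n ∧
    n * (2 * r + 4) = 2 * (n * r) + 4 * n ∧ n * (2 * r + 5) = 2 * (n * r) + 5 * n ∧
    n * (4 * r + 6) = 4 * (n * r) + 6 * n := by
  refine ⟨?_, ?_, ?_, ?_, ?_, ?_⟩ <;> ring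

private theorem link_to_lt {n r m : ℕ} (h : m < n * (2 * r + 4)) :
    linkTo n r m < n * (2 * r + 4) := by
  obtain ⟨h1, h2, h3, h4, h5, h6⟩ := link_mul n r
  unfold linkTo
  rw [h4] at h
  rw [h1, h2, h3, h4, h5, h6]
  generalize n * r = x at *
  split_ifs <;> omega

private theorem link_from_lt {n r k : ℕ} (h : k < n * (2 * r + 4)) :
    linkFrom n r k < n * (2 * r + 4) := by
  obtain ⟨h1, h2, h3, h4, h5, h6⟩ := link_mul n r
  unfold linkFrom
  rw [h4] at h
  rw [h1, h3, h4, h5, h6]
  generalize n * r = x at *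
  split_ifs <;> omega

private theorem link_from_to {n r m : ℕ} (h : m < n * (2 * r + 4)) :
    linkFrom n r (linkTo n r m) = m := by
  obtain ⟨h1, h2, h3, h4, h5, h6⟩ := link_mul n r
  unfold linkFrom linkTo
  rw [h4] at h
  rw [h1, h2, h3, h5, h6]
  generalize n * r = x at *
  split_ifs <;> omega

private theorem link_to_from {n r k : ℕ} (h : k < n * (2 * r + 4)) :
    linkTo n r (linkFrom n r k) = k := by
  obtain ⟨h1, h2, h3, h4, h5, h6⟩ := link_mul n r
  unfold linkFrom linkTo
  rw [h4] at h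
  rw [h1, h2, h3, h5, h6]
  generalize n * r = x at *
  split_ifs <;> omega

/-- The permutation of the second marks. -/
def linkTau (n r : ℕ) : Equiv.Perm (Fin (n * (2 * r + 4))) where
  toFun m := ⟨linkTo n r m.val, link_to_lt m.2⟩
  invFun k := ⟨linkFrom n r k.val, link_from_lt k.2⟩
  left_inv m := Fin.ext (link_from_to m.2)
  right_inv k := Fin.ext (link_to_from k.2)

private theorem link_ne {n r m : ℕ} (hn : 0 < n) (h : m < n * (2 * r + 4)) :
    m ≠ linkTo n r m := by
  obtain ⟨h1, h2, h3, h4, h5, h6⟩ := link_mul n r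
  unfold linkTo
  rw [h4] at h
  rw [h1, h2, h3, h5, h6]
  generalize n * r = x at *
  split_ifs <;> omega

/-- The blocks of columns: `linkTo` moves block `a` to the block `a + 2`, `0`, `2 r + 3` or `1`. -/
private theorem link_block {n r m : ℕ} (hn : 0 < n) (h : m < n * (2 * r + 4)) :
    (m / n ≤ 2 * r ∧ linkTo n r m / n = m / n + 2) ∨
    (m / n = 2 * r + 1 ∧ linkTo n r m / n = 0) ∨
    (m / n = 2 * r + 2 ∧ linkTo n r m / n = 2 * r + 3) ∨
    (m / n = 2 * r + 3 ∧ linkTo n r m / n = 1) := by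
  have hd : n * (m / n) + m % n = m := Nat.div_add_mod m n
  have hi : m % n < n := Nat.mod_lt m hn
  have key : ∀ a t : ℕ, n * a ≤ t → t < n * a + n → t / n = a := by
    intro a t h1 h2
    refine Nat.div_eq_of_lt_le ?_ ?_
    · rw [mul_comm]; exact h1
    · rw [Nat.succ_mul, mul_comm]; exact h2
  have ha : m / n < 2 * r + 4 := Nat.div_lt_of_lt_mul h
  obtain ⟨h1, h2, h3, h4, h5, h6⟩ := link_mul n r
  rcases (by omega : m / n ≤ 2 * r ∨ m / n = 2 * r + 1 ∨ m / n = 2 * r + 2 ∨ m / n = 2 * r + 3)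
    with h7 | h7 | h7 | h7
  · refine Or.inl ⟨h7, key _ _ ?_ ?_⟩
    all_goals
      have h8 : m < n * (2 * r + 1) := by
        calc m < n * (m / n) + n := by omega
          _ = n * (m / n + 1) := by ring
          _ ≤ n * (2 * r + 1) := Nat.mul_le_mul_left n (by omega)
      have h9 : n * (m / n + 2) = n * (m / n) + 2 * n := by ring
      unfold linkTo
      rw [if_pos h8]
      omega
  · refine Or.inr (Or.inl ⟨h7, key _ _ ?_ ?_⟩)
    all_goals
      rw [h7] at hd
      unfold linkTo
      rw [if_neg (by omega : ¬ m < n * (2 * r + 1)), if_pos (by omega : m < n * (2 * r + 2))]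
      omega
  · refine Or.inr (Or.inr (Or.inl ⟨h7, key _ _ ?_ ?_⟩))
    all_goals
      rw [h7] at hd
      unfold linkTo
      rw [if_neg (by omega : ¬ m < n * (2 * r + 1)), if_neg (by omega : ¬ m < n * (2 * r + 2)),
        if_pos (by omega : m < n * (2 * r + 3))]
      omega
  · refine Or.inr (Or.inr (Or.inr ⟨h7, key _ _ ?_ ?_⟩))
    all_goals
      rw [h7] at hd
      unfold linkTo
      rw [if_neg (by omega : ¬ m < n * (2 * r + 1)), if_neg (by omega : ¬ m < n * (2 * r + 2)),
        if_neg (by omega : ¬ m < n * (2 * r + 3))]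
      omega

private theorem link_eps (r m t : ℕ)
    (ht : (m ≤ 2 * r ∧ t = m + 2) ∨ (m = 2 * r + 1 ∧ t = 0) ∨ (m = 2 * r + 2 ∧ t = 2 * r + 3) ∨
      (m = 2 * r + 3 ∧ t = 1)) :
    (if t = 2 * r + 3 then (r + 2).bodd
      else if t % 2 = 0 then (t / 2).bodd else (r + 1 + t / 2).bodd) =
    !(if m = 2 * r + 3 then (r + 2).bodd
      else if m % 2 = 0 then (m / 2).bodd else (r + 1 + m / 2).bodd) := by
  rcases ht with ⟨h, ht⟩ | ⟨h, ht⟩ | ⟨h, ht⟩ | ⟨h, ht⟩
  · have h1 : ¬ m = 2 * r + 3 := by omega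
    have h2 : ¬ t = 2 * r + 3 := by omega
    have h3 : t / 2 = m / 2 + 1 := by omega
    rw [if_neg h1, if_neg h2, h3]
    by_cases h4 : m % 2 = 0
    · have h5 : t % 2 = 0 := by omega
      rw [if_pos h4, if_pos h5, Nat.bodd_succ]
    · have h5 : ¬ t % 2 = 0 := by omega
      rw [if_neg h4, if_neg h5, ← add_assoc, Nat.bodd_succ]
  · have h1 : ¬ m = 2 * r + 3 := by omega
    have h2 : ¬ t = 2 * r + 3 := by omega
    have h3 : t / 2 = 0 := by omega
    have h4 : ¬ m % 2 = 0 := by omega
    have h5 : t % 2 = 0 := by omega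
    have h6 : r + 1 + m / 2 = 2 * r + 1 := by omega
    rw [if_neg h1, if_neg h2, if_pos h5, if_neg h4, h3, h6, Nat.bodd_succ, Nat.bodd_mul]
    rfl
  · have h1 : ¬ m = 2 * r + 3 := by omega
    have h4 : m % 2 = 0 := by omega
    have h6 : m / 2 = r + 1 := by omega
    rw [if_neg h1, if_pos ht, if_pos h4, h6, Nat.bodd_succ]
  · have h2 : ¬ t = 2 * r + 3 := by omega
    have h3 : t / 2 = 0 := by omega
    have h5 : ¬ t % 2 = 0 := by omega
    rw [if_pos h, if_neg h2, if_neg h5, h3, Nat.bodd_succ (r + 1), Bool.not_not]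

private theorem link_del (r m t : ℕ)
    (ht : (m ≤ 2 * r ∧ t = m + 2) ∨ (m = 2 * r + 1 ∧ t = 0) ∨ (m = 2 * r + 2 ∧ t = 2 * r + 3) ∨
      (m = 2 * r + 3 ∧ t = 1)) :
    decide (t = 1 ∨ t = 2 * r + 3 ∨ (t % 2 = 0 ∧ t ≠ 0)) =
    (decide (m = 1 ∨ m = 2 * r + 3 ∨ (m % 2 = 0 ∧ m ≠ 0)) ^^
      (if m ≤ 1 then 1 else 0 : ℕ).bodd) := by
  by_cases h : m ≤ 1
  · rw [if_pos h]
    rcases (by omega : m = 0 ∨ m = 1) with h1 | h1
    · have h2 : (t = 1 ∨ t = 2 * r + 3 ∨ (t % 2 = 0 ∧ t ≠ 0)) := by omega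
      have h3 : ¬ (m = 1 ∨ m = 2 * r + 3 ∨ (m % 2 = 0 ∧ m ≠ 0)) := by omega
      rw [decide_eq_true h2, decide_eq_false h3]
      rfl
    · have h2 : ¬ (t = 1 ∨ t = 2 * r + 3 ∨ (t % 2 = 0 ∧ t ≠ 0)) := by omega
      have h3 : (m = 1 ∨ m = 2 * r + 3 ∨ (m % 2 = 0 ∧ m ≠ 0)) := Or.inl h1
      rw [decide_eq_false h2, decide_eq_true h3]
      rfl
  · rw [if_neg h, Nat.bodd_zero, Bool.xor_false, decide_eq_decide]
    omega

private theorem link_fold {n m : ℕ} (hn : 0 < n) :
    (if m < 2 * n then 1 else 0) = (if m / n ≤ 1 then 1 else 0 : ℕ) := by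
  by_cases h : m < 2 * n
  · rw [if_pos h, if_pos (Nat.le_of_lt_succ (Nat.div_lt_of_lt_mul (by rw [mul_comm]; exact h)))]
  · rw [if_neg h, if_neg]
    intro h1
    apply h
    have h2 : n * (m / n) + m % n = m := Nat.div_add_mod m n
    have h3 : m % n < n := Nat.mod_lt m hn
    have h4 : n * (m / n) ≤ n * 1 := Nat.mul_le_mul_left n h1
    omega

/-- The diagram of the elliptic surface `E(n)_(2,2r+1)`. -/
def torusLink (n r : ℕ) (hn : 0 < n) : Diagram (n * (2 * r + 4)) where
  sig := Equiv.refl _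
  tau := linkTau n r
  ne m h := link_ne hn m.2 (congrArg Fin.val h)
  c m := if m.val < 2 * n then 1 else 0
  eps m := if m.val / n = 2 * r + 3 then (r + 2).bodd
    else if (m.val / n) % 2 = 0 then (m.val / n / 2).bodd else (r + 1 + m.val / n / 2).bodd
  del m := decide (m.val / n = 1 ∨ m.val / n = 2 * r + 3 ∨
    ((m.val / n) % 2 = 0 ∧ m.val / n ≠ 0))
  eps_next m := link_eps r (m.val / n) (linkTo n r m.val / n) (link_block hn m.2)
  del_next m := by
    have h := link_del r (m.val / n) (linkTo n r m.val / n) (link_block hn m.2)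
    rw [link_fold hn]
    exact h

private theorem link_mark {n r : ℕ} {hn : 0 < n} {l k : Fin (n * (2 * r + 4))} {e : Bool}
    (h : (torusLink n r hn).row l e = k) : k.val = l.val ∨ k.val = linkTo n r l.val := by
  cases e
  · exact Or.inl (congrArg Fin.val h).symm
  · exact Or.inr (congrArg Fin.val h).symm

private theorem link_side {n r : ℕ} {hn : 0 < n} {m k : Fin (n * (2 * r + 4))}
    (h : (torusLink n r hn).side m k = false) (h3 : m.val < linkTo n r m.val) :
    m.val ≤ k.val ∧ k.val < linkTo n r m.val := by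
  have h1 : cyc m (linkTau n r m) k = true := by
    have h2 : (!cyc m (linkTau n r m) k) = false := h
    simpa using h2
  unfold cyc at h1
  rw [if_pos (show m < linkTau n r m from Fin.lt_def.2 h3)] at h1
  have h4 := of_decide_eq_true h1
  exact ⟨Fin.le_def.1 h4.1, Fin.lt_def.1 h4.2⟩

private theorem link_cross {n r : ℕ} {hn : 0 < n} (hr : 0 < r) {m k : Fin (n * (2 * r + 4))}
    (hm : m.val < 2 * n) (h : (torusLink n r hn).Crosses m false k) :
    ∃ l, l < m.val ∧ k.val = l + 2 * n := by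
  obtain ⟨h1, ⟨l, e, hl, hle⟩, -⟩ := h
  have hlv : l.val < m.val := hl
  obtain ⟨q1, q2, q3, q4, q5, q6⟩ := link_mul n r
  have hx : n ≤ n * r := Nat.le_mul_of_pos_right n hr
  have h5 : m.val < n * (2 * r + 1) := by omega
  have h6 : l.val < n * (2 * r + 1) := by omega
  have h7 : linkTo n r m.val = m.val + 2 * n := if_pos h5
  have h8 : linkTo n r l.val = l.val + 2 * n := if_pos h6
  have h2 := link_side h1 (by omega)
  refine ⟨l.val, hlv, ?_⟩
  rcases link_mark hle with h9 | h9 <;> omega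

private theorem link_start {n r : ℕ} {hn : 0 < n} (hr : 0 < r) (m : ℕ) (hm : m < 2 * n)
    (hmN : m < n * (2 * r + 4)) (e : Bool) :
    (torusLink n r hn).Coloured ∅ ((torusLink n r hn).row ⟨m, hmN⟩ e) := by
  induction m using Nat.strong_induction_on generalizing e with
  | _ m IH =>
    refine Diagram.Coloured.fold ⟨m, hmN⟩ false e ?_ ?_
    · show 0 < (if m < 2 * n then 1 else 0)
      rw [if_pos hm]
      norm_num
    · intro k hk
      obtain ⟨l, hl, hkl⟩ := link_cross hr (m := ⟨m, hmN⟩) hm hk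
      have hl' : l < m := hl
      have h1 := IH l hl' (by omega) (by omega) true
      obtain ⟨q1, q2, q3, q4, q5, q6⟩ := link_mul n r
      have hx : n ≤ n * r := Nat.le_mul_of_pos_right n hr
      have h2 : (torusLink n r hn).row ⟨l, by omega⟩ true = k := by
        apply Fin.ext
        rw [hkl]
        show linkTo n r l = l + 2 * n
        exact if_pos (by omega)
      rwa [h2] at h1

private theorem link_pass {n r : ℕ} {hn : 0 < n} (k : ℕ) (hk : k < n * (2 * r + 4)) (m : ℕ)
    (hm : m < n * (2 * r + 4)) (hmk : linkTo n r m = k) (hlt : m < k)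
    (IH : ∀ j : ℕ, j < k → ∀ hj : j < n * (2 * r + 4), (torusLink n r hn).Coloured ∅ ⟨j, hj⟩) :
    (torusLink n r hn).Coloured ∅ ⟨k, hk⟩ := by
  have h2 : (torusLink n r hn).Coloured ∅ ((torusLink n r hn).row ⟨m, hm⟩ (!false)) := by
    refine Diagram.Coloured.pass ⟨m, hm⟩ false false ?_ (IH m hlt hm)
    intro j hj
    have h3 := link_side (m := ⟨m, hm⟩) hj.1 (by show m < linkTo n r m; omega)
    have h4 : j.val < linkTo n r m := h3.2
    exact IH j.val (by omega) j.2
  have h3 : (torusLink n r hn).row ⟨m, hm⟩ (!false) = ⟨k, hk⟩ := Fin.ext hmk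
  rwa [h3] at h2

theorem torusLink_coloured {n r : ℕ} (hn : 0 < n) (hr : 0 < r) (k : Fin (n * (2 * r + 4))) :
    (torusLink n r hn).Coloured ∅ k := by
  obtain ⟨k, hk⟩ := k
  obtain ⟨q1, q2, q3, q4, q5, q6⟩ := link_mul n r
  have hx : n ≤ n * r := Nat.le_mul_of_pos_right n hr
  induction k using Nat.strong_induction_on with
  | _ k IH =>
    rcases (by omega : k < 2 * n ∨ (2 * n ≤ k ∧ k < 4 * n) ∨
      (4 * n ≤ k ∧ k < n * (2 * r + 3)) ∨ n * (2 * r + 3) ≤ k) with h | h | h | h
    · exact link_start hr k h hk false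
    · have h1 := link_start (hn := hn) hr (k - 2 * n) (by omega) (by omega) true
      have h2 : (torusLink n r hn).row ⟨k - 2 * n, by omega⟩ true = ⟨k, hk⟩ := by
        apply Fin.ext
        show linkTo n r (k - 2 * n) = k
        unfold linkTo
        rw [if_pos (by omega : k - 2 * n < n * (2 * r + 1))]
        omega
      rwa [h2] at h1
    · refine link_pass k hk (k - 2 * n) (by omega) ?_ (by omega) fun j hj hjN => IH j hj hjN
      unfold linkTo
      rw [if_pos (by omega : k - 2 * n < n * (2 * r + 1))]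
      omega
    · refine link_pass k hk (n * (4 * r + 6) - 1 - k) (by omega) ?_ (by omega)
        fun j hj hjN => IH j hj hjN
      unfold linkTo
      rw [if_neg (by omega), if_neg (by omega), if_pos (by omega)]
      omega

end Pool.MP_f18604_gt.LS
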