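import Mathlib
import Pool.Agent.Helper7.LS.Marks

/-!
# LS-12: a fold in every column suffices

PROOF.  By strong induction on the column `m` both rows of column `m` are coloured: a row `k` which crosses `(m, false)` has a mark in a column `l < m` (definition of `Crosses`), so
it is coloured; hence `Coloured.fold m false e`.  Every row has a mark (`row_lcol`).
-/

set_option autoImplicit false

namespace Pool.MP_f18604_gt.LS

theorem coloured_of_all {N : ℕ} (D : Diagram N) (hc : ∀ m, 0 < D.c m) (k : Fin N) :
    D.Coloured ∅ k := by
  have key : ∀ (v : ℕ) (m : Fin N), m.val = v → ∀ e, D.Coloured ∅ (D.row m e) := by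
    intro v
    induction v using Nat.strong_induction_on with
    | _ v ih =>
      intro m hm e
      refine Diagram.Coloured.fold m false e (hc m) fun k hk => ?_
      obtain ⟨_, ⟨l, e', hl, rfl⟩, _⟩ := hk
      exact ih l.val (hm ▸ hl) l rfl e'
  rw [← D.row_lcol k]
  exact key _ _ rfl _

end Pool.MP_f18604_gt.LS
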